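import Mathlib
import Pool.Agent.MP_154433_an.fib.Spec

/-! Structured part, van der Corput part and probability for powers of one map at
polylogarithmic density: definitions and statements of the rows. -/

set_option autoImplicit false
set_option linter.unusedVariables false
set_option warn.classDefReducibility false

open MeasureTheory ProbabilityTheory Filter Topology Function
open scoped BigOperators ComplexConjugate InnerProductSpace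

noncomputable section

namespace Pool.Agent.MP_154433_an.T3S

open SG (ABM)

def B1 {α : Type} (f : α → ℂ) : Prop := ∀ x, ‖f x‖ ≤ 1

/-! ### finite abelian groups -/

section Grp

variable {G : Type} [AddCommGroup G] [Fintype G]

def dd (h : G) (f : G → ℂ) : G → ℂ := fun x => f (x + h) * conj (f x)

/-- `Q k f` is the `2 ^ (k + 1)`-th power of the uniformity norm of order `k + 1` -/
def Q : ℕ → (G → ℂ) → ℝ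
  | 0, f => ‖𝔼 x, f x‖ ^ 2
  | k + 1, f => 𝔼 h, Q k (dd h f)

def ip (f g : G → ℂ) : ℂ := 𝔼 x, f x * conj (g x)

def Samp (lam : ℝ) {n : ℕ} (t : Fin n → G) : Prop :=
  ∀ (k : ℕ) (F : G → ℂ), B1 F → |(𝔼 j, Q k (dd (t j) F)) - Q (k + 1) F| ≤ lam

def Dual (k : ℕ) (A : ℝ) (u : G → ℂ) : Prop :=
  B1 u ∧ ∀ g : G → ℂ, B1 g → ‖ip g u‖ ^ 2 ^ (k + 1) ≤ A * Q k g

def cub {k : ℕ} {U : Type} [Fintype U] (a : Fin k → U → G) (γ : Fin k → (Fin k → G) → G → ℂ)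
    (x : G) : ℂ :=
  𝔼 u : Fin k → U, 𝔼 u' : Fin k → U,
    ∏ i, γ i (update (fun j => a j (u' j) - a j (u j)) i 0) (x + (a i (u' i) - a i (u i)))

end Grp

def LG (G : Type) [Fintype G] : ℝ := Real.log (Fintype.card G) + 1

def TsetS : Prop := ∀ lam : ℝ, 0 < lam → ∃ C : ℝ, 0 ≤ C ∧
  ∀ (G : Type) [AddCommGroup G] [Fintype G], ∃ (n : ℕ) (t : Fin n → G), 0 < n ∧
    (n : ℝ) ≤ C * LG G ∧ ∀ χ : AddChar G ℂ, χ ≠ 0 → |(𝔼 j, χ (t j)).re| ≤ lam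

def SampS : Prop := ∀ (G : Type) [AddCommGroup G] [Fintype G] (lam : ℝ) (n : ℕ) (t : Fin n → G),
  0 < n → 0 ≤ lam → (∀ χ : AddChar G ℂ, χ ≠ 0 → |(𝔼 j, χ (t j)).re| ≤ lam) → Samp lam t

def U2S : Prop := ∀ (G : Type) [AddCommGroup G] [Fintype G] (f : G → ℂ), B1 f →
  ∃ χ : AddChar G ℂ, Q 1 f ≤ ‖ip f χ‖ ^ 2

def CodeS : Prop := ∀ (G : Type) [AddCommGroup G] [Fintype G] (n : ℕ) (t : Fin n → G)
  (lam eta c β : ℝ) (J : Finset (Fin n)) (φ : Fin n → G → ℂ) (ι : Type) [Fintype ι]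
  (f : ι → G → ℂ), 0 < n → 0 < c → 0 < β → 0 ≤ lam → 0 ≤ eta → eta + lam ≤ β * c ^ 4 / 8 →
  Samp lam t → β * n ≤ J.card → (∀ j, B1 (φ j)) → (∀ i, B1 (f i)) →
  (∀ i, ∀ j ∈ J, c ≤ ‖ip (dd (t j) (f i)) (φ j)‖) →
  (∀ i i', i ≠ i' → Q 1 (fun x => f i x * conj (f i' x)) ≤ eta) →
  (Fintype.card ι : ℝ) * c ^ 2 ≤ 2

def InvS : Prop := ∀ (k : ℕ) (δ : ℝ), 0 < δ → ∃ c C : ℝ, 0 < c ∧ 0 ≤ C ∧
  ∀ (G : Type) [AddCommGroup G] [Fintype G], ∃ 𝓕 : Finset (G → ℂ), (∀ φ ∈ 𝓕, B1 φ) ∧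
    (𝓕.card : ℝ) ≤ Real.exp (C * LG G ^ k) ∧
    ∀ f : G → ℂ, B1 f → δ ≤ Q k f → ∃ φ ∈ 𝓕, c ≤ ‖ip f φ‖

def CovS : Prop := ∀ (k : ℕ) (A ε : ℝ), 0 < A → 0 < ε → ∃ C : ℝ, 0 ≤ C ∧
  ∀ (G : Type) [AddCommGroup G] [Fintype G], ∃ 𝓥 : Finset (G → ℂ), (∀ v ∈ 𝓥, B1 v) ∧
    (𝓥.card : ℝ) ≤ Real.exp (C * LG G ^ k) ∧
    ∀ u : G → ℂ, Dual k A u → ∃ v ∈ 𝓥, 𝔼 x, ‖u x - v x‖ ≤ ε

def GcsS : Prop := ∀ (k : ℕ) (G : Type) [AddCommGroup G] [Fintype G] (g : G → ℂ)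
  (γ : Fin (k + 1) → (Fin (k + 1) → G) → G → ℂ), (∀ i τ, B1 (γ i τ)) →
  ‖𝔼 x : G, 𝔼 τ : Fin (k + 1) → G, g x * ∏ i, γ i (update τ i 0) (x + τ i)‖ ^ 2 ^ (k + 1) ≤ Q k g

def WinS : Prop := ∀ (G : Type) [AddCommGroup G] [Fintype G] (V : Type) [Fintype V] [Nonempty V]
  (a : V → G) (Φ : G → ℂ) (τ : ℝ), Injective a →
  (∀ χ : AddChar G ℂ, ‖𝔼 t, Φ t * χ t‖ ≤ τ) →
  ‖𝔼 v, 𝔼 v', Φ (a v' - a v)‖ ≤ (Fintype.card G : ℝ) / Fintype.card V * τ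

def DualS : Prop := ∀ (k : ℕ), 1 ≤ k → ∀ (G : Type) [AddCommGroup G] [Fintype G] (U : Type)
  [Fintype U] [Nonempty U] (a : Fin (k + 1) → U → G) (γ : Fin (k + 1) → (Fin (k + 1) → G) → G → ℂ),
  (∀ i, Injective (a i)) → (∀ i τ, B1 (γ i τ)) →
  Dual k ((((Fintype.card G : ℝ) / Fintype.card U) ^ (k + 1)) ^ 2 ^ (k + 1)) (cub a γ)

/-! ### blocks for an action of the integers -/

def dif {k H : ℕ} (h h' : Fin k → Fin H) : Fin k → ℤ := fun j => ((h' j : ℕ) : ℤ) - ((h j : ℕ) : ℤ)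

def blk {X : Type} {k : ℕ} (A : ℤ → X → X) (b : Fin k → ℤ) (H : ℕ)
    (β : Fin k → (Fin k → ℤ) → X → ℂ) (x : X) : ℂ :=
  𝔼 h : Fin k → Fin H, 𝔼 h' : Fin k → Fin H,
    ∏ i, β i (update (dif h h') i 0) (A (b i * dif h h' i) x)

def sh (v n : ℤ) : ℤ := n + v

/-- convex combinations of blocks on the integers at scales at least `H0` -/
def CZ {k : ℕ} (b : Fin k → ℤ) (H0 : ℕ) : Set (ℤ → ℂ) :=
  convexHull ℝ {u | ∃ (H : ℕ) (β : Fin k → (Fin k → ℤ) → ℤ → ℂ), H0 ≤ H ∧ (∀ i τ, B1 (β i τ)) ∧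
    u = blk sh b H β}

def ShiftS : Prop := ∀ (k H M : ℕ) (Ψ : (Fin k → ℤ) → ℂ), 1 ≤ H → 1 ≤ M → B1 Ψ →
  ‖(𝔼 h : Fin k → Fin H, 𝔼 h' : Fin k → Fin H, Ψ (dif h h')) -
    𝔼 h : Fin k → Fin H, 𝔼 h' : Fin k → Fin H, 𝔼 u : Fin k → Fin M, 𝔼 u' : Fin k → Fin M,
      Ψ (dif h h' + dif u u')‖ ≤ 4 * k * M / H

def ApxS : Prop := ∀ (l : ℕ), 1 ≤ l → ∀ (b : Fin (l + 1) → ℤ) (R C0 M H0 : ℕ) [NeZero (C0 * M)],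
  (∀ i, b i ≠ 0) → (∀ i, 2 * ((R : ℤ) + |b i|) ≤ C0) → 1 ≤ H0 → ∀ w ∈ CZ b H0,
  ∃ u : ZMod (C0 * M) → ℂ, Dual l (((C0 : ℝ) ^ (l + 1)) ^ 2 ^ (l + 1)) u ∧
    ∀ m : ℤ, |m| ≤ R * M → ‖w m - u (m : ZMod (C0 * M))‖ ≤ 4 * (l + 1) * M / H0

def NetS : Prop := ∀ (l : ℕ), 1 ≤ l → ∀ (J : ℕ) (r : Fin J → ℤ) (b : Fin J → Fin (l + 1) → ℤ),
  (∀ t i, b t i ≠ 0) → ∀ ε : ℝ, 0 < ε → ∃ (C : ℝ) (S : ℕ → Finset (ℕ → ℂ)),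
    (∀ M, ∀ c ∈ S M, B1 c) ∧
    (∀ M, 1 ≤ M → ((S M).card : ℝ) ≤ Real.exp (C * (Real.log M + 1) ^ l)) ∧
    ∀ᶠ M in atTop, ∀ (y : ℕ → ℝ) (τ : ℝ),
      (∀ c ∈ S M, ‖∑ d ∈ Finset.range M, (y d : ℂ) * c d‖ ≤ τ) →
      ∀ u : Fin J → ℤ → ℂ, (∀ t, u t ∈ CZ (b t) (M ^ 2)) →
        ∑ n ∈ Finset.range M, ‖∑ d ∈ Finset.range M, (y d : ℂ) * ∏ t, u t (n + r t * d)‖ ≤
          (τ + ε * ∑ d ∈ Finset.range M, |y d|) * M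

/-! ### weights -/

/-- probability weights on `range M`, for large `M` -/
def PW (w : ℕ → ℕ → ℝ) : Prop :=
  (∀ M d, 0 ≤ w M d) ∧ ∀ᶠ M in atTop, ∑ d ∈ Finset.range M, w M d = 1

def AsInv (w : ℕ → ℕ → ℝ) : Prop := ∀ (h : ℕ) (ε : ℝ), 0 < ε → ∀ᶠ M in atTop,
  ∀ (V : Type) [NormedAddCommGroup V] [NormedSpace ℝ V] (u : ℕ → V), (∀ d, ‖u d‖ ≤ 1) →
    ‖∑ d ∈ Finset.range M, w M d • (u (d + h) - u d)‖ ≤ ε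

def Erg (w : ℕ → ℕ → ℝ) : Prop := ∀ (E : Type) [NormedAddCommGroup E] [InnerProductSpace ℂ E]
  [CompleteSpace E] (V : E ≃ₗᵢ[ℂ] E) (v : E), (∀ z, V z = z → ⟪z, v⟫_ℂ = 0) →
  Tendsto (fun M => ∑ d ∈ Finset.range M, (w M d : ℂ) • (⇑V)^[d] v) atTop (𝓝 0)

def Mix (w : ℕ → ℕ → ℝ) : Prop := ∀ ε : ℝ, 0 < ε → ∀ᶠ M in atTop,
  ∀ χ : AddChar (ZMod (2 * M)) ℂ, ‖∑ d ∈ Finset.range M, (w M d : ℂ) * χ (d : ZMod (2 * M))‖ ≤ ε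

def Str (l : ℕ) (w : ℕ → ℕ → ℝ) : Prop := ∀ (J : ℕ) (r : Fin J → ℤ)
  (b : Fin J → Fin (l + 1) → ℤ), (∀ t i, b t i ≠ 0) → ∀ ε : ℝ, 0 < ε → ∀ᶠ M in atTop,
  ∀ u : Fin J → ℤ → ℂ, (∀ t, u t ∈ CZ (b t) (M ^ 2)) →
    ∑ n ∈ Finset.range M, ‖∑ d ∈ Finset.range M, (w M d : ℂ) * ∏ t, u t (n + r t * d)‖ ≤ ε * M

/-- total mass at most three, for large `M` -/
def Bd (w : ℕ → ℕ → ℝ) : Prop := ∀ᶠ M in atTop, ∑ d ∈ Finset.range M, |w M d| ≤ 3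

/-- total variation distance tending to zero -/
def Near (w w' : ℕ → ℕ → ℝ) : Prop :=
  Tendsto (fun M => ∑ d ∈ Finset.range M, |w M d - w' M d|) atTop (𝓝 0)

def Wt (σ : ℕ → ℝ) (M : ℕ) : ℝ := ∑ k ∈ Finset.range M, σ k

def Gr (σ : ℕ → ℝ) (l : ℕ) : Prop :=
  Tendsto (fun M : ℕ => Wt σ M / Real.log M ^ l) atTop atTop

open Classical in
def ind (p : ℕ → Prop) (d : ℕ) : ℝ := if p d then 1 else 0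

def yw (σ : ℕ → ℝ) (p : ℕ → Prop) (M d : ℕ) : ℝ := (ind p d - σ d) / Wt σ M

def nu (p : ℕ → Prop) (M d : ℕ) : ℝ := ind p d / Wt (ind p) M

def nb (σ : ℕ → ℝ) (M d : ℕ) : ℝ := σ d / Wt σ M

def UbS : Prop := ∀ σ : ℕ → ℝ, (∀ n, 0 ≤ σ n ∧ σ n ≤ 1) →
  ∀ (Ω : Type) [MeasurableSpace Ω] (P : Measure Ω) [IsProbabilityMeasure P] (E : ℕ → Set Ω),
  (∀ n, MeasurableSet (E n)) → iIndepSet E P → (∀ n, P (E n) = ENNReal.ofReal (σ n)) →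
  ∀ l : ℕ, 1 ≤ l → Gr σ l → ∀ (C : ℝ) (S : ℕ → Finset (ℕ → ℂ)), (∀ M, ∀ c ∈ S M, B1 c) →
  (∀ M, 1 ≤ M → ((S M).card : ℝ) ≤ Real.exp (C * (Real.log M + 1) ^ l)) → ∀ ε : ℝ, 0 < ε →
  ∀ᵐ ω ∂P, ∀ᶠ M in atTop, ∀ c ∈ S M,
    ‖∑ d ∈ Finset.range M, (yw σ (fun m => ω ∈ E m) M d : ℂ) * c d‖ ≤ ε

def AeS : Prop := ∀ σ : ℕ → ℝ, (∀ n, 0 ≤ σ n ∧ σ n ≤ 1) →
  ∀ (Ω : Type) [MeasurableSpace Ω] (P : Measure Ω) [IsProbabilityMeasure P] (E : ℕ → Set Ω),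
  (∀ n, MeasurableSet (E n)) → iIndepSet E P → (∀ n, P (E n) = ENNReal.ofReal (σ n)) → Gr σ 1 →
  ∀ᵐ ω ∂P, Mix (yw σ fun m => ω ∈ E m) ∧
    ∀ l : ℕ, 1 ≤ l → Gr σ l → Str l (yw σ fun m => ω ∈ E m)

def NormS : Prop := (∀ (σ : ℕ → ℝ) (p : ℕ → Prop), (∀ n, 0 ≤ σ n) →
    Tendsto (Wt σ) atTop atTop → Mix (yw σ p) →
    PW (nu p) ∧ PW (nb σ) ∧ Bd (yw σ p) ∧ Near (fun M d => nu p M d - nb σ M d) (yw σ p) ∧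
      Tendsto (fun M => ∑ d ∈ Finset.range M, yw σ p M d) atTop (𝓝 0)) ∧
  (∀ w w' : ℕ → ℕ → ℝ, Near w w' → Mix w' → Mix w) ∧
  (∀ (l : ℕ) (w w' : ℕ → ℕ → ℝ), Near w w' → Str l w' → Str l w) ∧
  ∀ σ : ℕ → ℝ, (∀ n, 0 ≤ σ n) → Antitone σ → Tendsto (Wt σ) atTop atTop → AsInv (nb σ)

def VnS : Prop := ∀ (E : Type) [NormedAddCommGroup E] [InnerProductSpace ℂ E] (V : E ≃ₗᵢ[ℂ] E)
  (M : ℕ) (w : ℕ → ℝ) (τ : ℝ) (v : E), 1 ≤ M →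
  (∀ χ : AddChar (ZMod (2 * M)) ℂ,
    ‖∑ d ∈ Finset.range M, (w d : ℂ) * χ (d : ZMod (2 * M))‖ ≤ τ) →
  ‖∑ d ∈ Finset.range M, (w d : ℂ) • (⇑V)^[d] v‖ ≤ 2 * τ * ‖v‖

def ErgS : Prop := (∀ w : ℕ → ℕ → ℝ, PW w → AsInv w → Erg w) ∧
  ∀ w w' : ℕ → ℕ → ℝ, Erg w' → Mix (fun M d => w M d - w' M d) → Erg w

/-! ### systems -/

section Sys

variable {X : Type} [m0 : MeasurableSpace X]

def Tz (T : X ≃ᵐ X) (v : ℤ) : X → X := ⇑((T.toEquiv : Equiv.Perm X) ^ v)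

def MB1 (f : X → ℂ) : Prop := Measurable f ∧ B1 f

def CX {k : ℕ} (T : X ≃ᵐ X) (b : Fin k → ℤ) (H0 : ℕ) : Set (X → ℂ) :=
  convexHull ℝ {u | ∃ (H : ℕ) (β : Fin k → (Fin k → ℤ) → X → ℂ), H0 ≤ H ∧ (∀ i τ, MB1 (β i τ)) ∧
    u = blk (Tz T) b H β}

def DD {k : ℕ} (μ : Measure X) (T : X ≃ᵐ X) (b : Fin k → ℤ) : Set (X → ℂ) :=
  {D | MB1 D ∧ ∀ (H0 : ℕ) (ε : ℝ), 0 < ε → ∃ u ∈ CX T b H0, ∫ x, ‖D x - u x‖ ∂μ ≤ ε}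

def Gen (μ : Measure X) (T : X ≃ᵐ X) (l : ℕ) : Set (X → ℝ) :=
  {φ | (∃ b : Fin (l + 1) → ℤ, (∀ i, b i ≠ 0) ∧ (fun x => (φ x : ℂ)) ∈ DD μ T b) ∨
    (Measurable φ ∧ (∀ x, |φ x| ≤ 1) ∧ (fun x => φ (T x)) =ᵐ[μ] φ)}

def B0 (μ : Measure X) (T : X ≃ᵐ X) (l : ℕ) : MeasurableSpace X :=
  ⨆ φ ∈ Gen μ T l, MeasurableSpace.comap φ inferInstance

/-- the weighted multiple average -/
def wavg {ι : Type} [Fintype ι] (T : X ≃ᵐ X) (w : ℕ → ℕ → ℝ) (r : ι → ℤ) (f : ι → X → ℂ) (M : ℕ)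
    (x : X) : ℂ := ∑ d ∈ Finset.range M, (w M d : ℂ) * ∏ i, f i (Tz T (r i * d) x)

def Van {ι : Type} [Fintype ι] (μ : Measure X) (T : X ≃ᵐ X) (w : ℕ → ℕ → ℝ) (r : ι → ℤ)
    (f : ι → X → ℂ) : Prop := Tendsto (fun M => ∫ x, ‖wavg T w r f M x‖ ^ 2 ∂μ) atTop (𝓝 0)

def ddX (T : X ≃ᵐ X) (v : ℤ) (g : X → ℂ) : X → ℂ := fun x => g (Tz T v x) * conj (g x)

def QX (μ : Measure X) (T : X ≃ᵐ X) (H : ℕ) : (n : ℕ) → (Fin n → ℤ) → (X → ℂ) → ℝ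
  | 0, _, g => (∫ x, g x ∂μ).re
  | n + 1, b, g => 𝔼 h : Fin H, 𝔼 h' : Fin H,
      QX μ T H n (Fin.tail b) (ddX T (b 0 * (((h' : ℕ) : ℤ) - ((h : ℕ) : ℤ))) g)

end Sys

def Good {ι : Type} [Fintype ι] {X : Type} (B : MeasurableSpace X) {m0 : MeasurableSpace X}
    (μ : Measure X) (T : X ≃ᵐ X) (w : ℕ → ℕ → ℝ) (r : ι → ℤ) : Prop :=
  ∀ f : ι → X → ℂ, (∀ i, ABM B μ (f i)) → Van μ T w r f

/-- the property of a factor used in the compact step -/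
def Unif {ι : Type} [Fintype ι] [DecidableEq ι] {X : Type} (B : MeasurableSpace X)
    {m0 : MeasurableSpace X} (μ : Measure X) (T : X ≃ᵐ X) (w : ℕ → ℕ → ℝ) (r : ι → ℤ) : Prop :=
  ∀ (i0 : ι) (g : X → ℂ), MB1 g → μ[g | B] =ᵐ[μ] 0 → ∀ ε : ℝ, 0 < ε →
    ∃ (H : ℕ) (a : ℕ → ℕ → ℝ), 1 ≤ H ∧
      ∑ n ∈ Finset.range H, ∑ n' ∈ Finset.range H, a n n' ≤ ε * H ^ 2 ∧
      ∀ (n n' : ℕ) (c : ι → X → ℂ), (∀ i, MB1 (c i)) → ∀ η : ℝ, 0 < η → ∀ᶠ M in atTop,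
        ∫ x, ‖wavg T w r (update c i0 fun y => g (Tz T n y) * conj (g (Tz T n' y))) M x‖ ^ 2 ∂μ ≤
          a n n' + η

/-- an invariant sub-sigma-algebra containing the almost invariant sets -/
def FacI {X : Type} (B : MeasurableSpace X) {m0 : MeasurableSpace X} (μ : Measure X)
    (T : X ≃ᵐ X) : Prop :=
  B ≤ m0 ∧ (∀ A, MeasurableSet[B] A → MeasurableSet[B] (T ⁻¹' A)) ∧
    (∀ A, MeasurableSet[B] A → MeasurableSet[B] (T.symm ⁻¹' A)) ∧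
    ∀ A, MeasurableSet[m0] A → T ⁻¹' A =ᵐ[μ] A → MeasurableSet[B] A

def ProdS : Prop := ∀ (l : ℕ) (w : ℕ → ℕ → ℝ), Str l w → Bd w →
  ∀ (X : Type) [MeasurableSpace X] (μ : Measure X) [IsProbabilityMeasure μ] (T : X ≃ᵐ X),
  MeasurePreserving T μ μ → ∀ (ι : Type) [Fintype ι] (r : ι → ℤ) (D : ι → X → ℂ),
  (∀ t, ∃ b : Fin (l + 1) → ℤ, (∀ i, b i ≠ 0) ∧ D t ∈ DD μ T b) → Van μ T w r D

def FacS : Prop := ∀ (l : ℕ) (X : Type) [MeasurableSpace X] (μ : Measure X)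
  [IsProbabilityMeasure μ] (T : X ≃ᵐ X), MeasurePreserving T μ μ → FacI (B0 μ T l) μ T ∧
    ∀ b : Fin (l + 1) → ℤ, (∀ i, b i ≠ 0) → ∀ D ∈ DD μ T b, Measurable[B0 μ T l] D

def GoodS : Prop := ∀ (l : ℕ) (w : ℕ → ℕ → ℝ), Str l w → Bd w →
  ∀ (X : Type) [MeasurableSpace X] (μ : Measure X) [IsProbabilityMeasure μ] (T : X ≃ᵐ X),
  MeasurePreserving T μ μ → ∀ (ι : Type) [Fintype ι] (r : ι → ℤ), Good (B0 μ T l) μ T w r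

def NestS : Prop := ∀ (E : Type) [NormedAddCommGroup E] [InnerProductSpace ℝ E] [CompleteSpace E]
  (C : ℕ → Set E) (R : ℝ), Antitone C → (∀ n, (C n).Nonempty) → (∀ n, Convex ℝ (C n)) →
  (∀ n, ∀ x ∈ C n, ‖x‖ ≤ R) → ∃ x, ∀ n, x ∈ closure (C n)

def LinkS : Prop := ∀ (X : Type) [MeasurableSpace X] (μ : Measure X) [IsProbabilityMeasure μ]
  (T : X ≃ᵐ X), MeasurePreserving T μ μ → ∀ (H n : ℕ) (b : Fin n → ℤ) (g : X → ℂ), MB1 g →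
  ∃ β : Fin n → (Fin n → ℤ) → X → ℂ, (∀ i τ, MB1 (β i τ)) ∧
    QX μ T H n b g = (∫ x, g x * blk (Tz T) b H β x ∂μ).re

def ZeroS : Prop := ∀ (X : Type) [MeasurableSpace X] (μ : Measure X) [IsProbabilityMeasure μ]
  (T : X ≃ᵐ X), MeasurePreserving T μ μ → ∀ (n : ℕ) (b : Fin n → ℤ) (g : X → ℂ), MB1 g →
  (∀ D ∈ DD μ T b, ∫ x, g x * D x ∂μ = 0) → ∀ ε : ℝ, 0 < ε → ∃ H, 1 ≤ H ∧ QX μ T H n b g ≤ ε

def VdcS : Prop := ∀ w : ℕ → ℕ → ℝ, PW w → AsInv w → ∀ (H : ℕ), 1 ≤ H → ∀ η : ℝ, 0 < η →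
  ∀ᶠ M in atTop, ∀ u : ℕ → ℂ, B1 u → ‖∑ d ∈ Finset.range M, (w M d : ℂ) * u d‖ ^ 2 ≤
    (𝔼 h : Fin H, 𝔼 h' : Fin H,
      ∑ d ∈ Finset.range M, (w M d : ℂ) * (u (d + h') * conj (u (d + h)))).re + η

def GvnS : Prop := ∀ w : ℕ → ℕ → ℝ, PW w → AsInv w →
  ∀ (X : Type) [MeasurableSpace X] (μ : Measure X) [IsProbabilityMeasure μ] (T : X ≃ᵐ X),
  MeasurePreserving T μ μ → ∀ (H : ℕ), 1 ≤ H → ∀ (l : ℕ) (r : Fin (l + 1) → ℤ)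
  (f : Fin (l + 1) → X → ℂ), (∀ i, MB1 (f i)) → ∀ η : ℝ, 0 < η → ∀ᶠ M in atTop,
    (∫ x, ‖wavg T w r f M x‖ ^ 2 ∂μ) ^ 2 ^ l ≤
      QX μ T H (l + 1) (Fin.cons (r 0) fun j : Fin l => r 0 - r j.succ) (f 0) + η

def UnifS : Prop := ∀ w : ℕ → ℕ → ℝ, PW w → AsInv w →
  ∀ (X : Type) [MeasurableSpace X] (μ : Measure X) [IsProbabilityMeasure μ] (T : X ≃ᵐ X),
  MeasurePreserving T μ μ → ∀ (l : ℕ) (r : Fin l → ℤ), Injective r → (∀ i, r i ≠ 0) →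
  Unif (B0 μ T l) μ T w r

/-- every system has a good factor that is large enough for the compact step -/
def HasB0 (ν ν' : ℕ → ℕ → ℝ) {l : ℕ} (r : Fin l → ℤ) : Prop :=
  ∀ (X : Type) [MeasurableSpace X] (μ : Measure X) [IsProbabilityMeasure μ] (T : X ≃ᵐ X),
  MeasurePreserving T μ μ → ∃ B : MeasurableSpace X, FacI B μ T ∧
    Good B μ T (fun M d => ν M d - ν' M d) r ∧ Unif B μ T ν' r

/-- the deterministic theorem (sections 0 to 6 of the note) -/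
def DetS : Prop := ∀ ν ν' : ℕ → ℕ → ℝ, PW ν → PW ν' → Erg ν → Erg ν' →
  ∀ (l : ℕ) (r : Fin l → ℤ), Injective r → (∀ i, r i ≠ 0) → HasB0 ν ν' r →
  ∀ (X : Type) [MeasurableSpace X] (μ : Measure X) [IsProbabilityMeasure μ] (T : X ≃ᵐ X),
  MeasurePreserving T μ μ → ∀ f : Fin l → X → ℂ, (∀ i, MB1 (f i)) →
  Van μ T (fun M d => ν M d - ν' M d) r f

/-- the deterministic theorem for weakly mixing maps -/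
def DetWS : Prop := ∀ ν ν' : ℕ → ℕ → ℝ, PW ν → PW ν' → Erg ν → Erg ν' →
  ∀ (l : ℕ) (r : Fin l → ℤ), Injective r → (∀ i, r i ≠ 0) →
  ∀ (X : Type) [MeasurableSpace X] (μ : Measure X) [IsProbabilityMeasure μ] (T : X ≃ᵐ X),
  MeasurePreserving T μ μ → Ergodic (Prod.map T T) (μ.prod μ) →
  ∀ f : Fin l → X → ℂ, (∀ i, MB1 (f i)) → Van μ T (fun M d => ν M d - ν' M d) r f

def RedS : Prop := ∀ (w w' : ℕ → ℕ → ℝ), Near w w' →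
  Tendsto (fun M => ∑ d ∈ Finset.range M, w' M d) atTop (𝓝 0) →
  ∀ (X : Type) [MeasurableSpace X] (μ : Measure X) [IsProbabilityMeasure μ] (T : X ≃ᵐ X),
  MeasurePreserving T μ μ → ∀ ℓ : ℕ,
  (∀ l, 1 ≤ l → l ≤ ℓ → ∀ r : Fin l → ℤ, Injective r → (∀ i, r i ≠ 0) →
    ∀ f : Fin l → X → ℂ, (∀ i, MB1 (f i)) → Van μ T w r f) →
  ∀ (k : Fin ℓ → ℤ) (f : Fin ℓ → X → ℂ), (∀ i, MB1 (f i)) → Van μ T w' k f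

/-- the conclusion of the theorems -/
def Concl (p : ℕ → Prop) {ℓ : ℕ} (k : Fin ℓ → ℤ) {X : Type} [MeasurableSpace X] (μ : Measure X)
    (T : X ≃ᵐ X) (f : Fin ℓ → X → ℝ) : Prop :=
  ∃ g : X → ℝ, MemLp g 2 μ ∧
    Tendsto (fun N : ℕ => eLpNorm (fun x => (N : ℝ)⁻¹ * (∑ n ∈ Finset.range N, ∏ i,
        f i (((T.toEquiv : Equiv.Perm X) ^ (k i * (Nat.nth p n : ℕ))) x)) - g x) 2 μ)
      atTop (𝓝 0) ∧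
    Tendsto (fun N : ℕ => eLpNorm (fun x => (N : ℝ)⁻¹ * (∑ n ∈ Finset.Icc 1 N, ∏ i,
        f i (((T.toEquiv : Equiv.Perm X) ^ (k i * (n : ℕ))) x)) - g x) 2 μ) atTop (𝓝 0)

def EndS : Prop := ∀ (σ : ℕ → ℝ) (p : ℕ → Prop), (∀ n, 0 ≤ σ n) → Antitone σ →
  Tendsto (Wt σ) atTop atTop →
  Tendsto (fun M => ∑ d ∈ Finset.range M, yw σ p M d) atTop (𝓝 0) →
  ∀ (ℓ : ℕ) (k : Fin ℓ → ℤ) (X : Type) [MeasurableSpace X] (μ : Measure X)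
  [IsProbabilityMeasure μ] (T : X ≃ᵐ X), MeasurePreserving T μ μ →
  (∀ f : Fin ℓ → X → ℂ, (∀ i, MB1 (f i)) → Van μ T (yw σ p) k f) →
  ∀ f : Fin ℓ → X → ℝ, (∀ i, MemLp (f i) ⊤ μ) → Concl p k μ T f

def MainS : Prop := ∀ (σ : ℕ → ℝ), (∀ n, 0 ≤ σ n ∧ σ n ≤ 1) → Antitone σ →
  ∀ (Ω : Type) [MeasurableSpace Ω] (P : Measure Ω) [IsProbabilityMeasure P]
    (E : ℕ → Set Ω), (∀ n, MeasurableSet (E n)) → iIndepSet E P →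
    (∀ n, P (E n) = ENNReal.ofReal (σ n)) →
  ∀ᵐ ω ∂P, ∀ ℓ : ℕ, Gr σ ℓ → ∀ (k : Fin ℓ → ℤ)
    (X : Type) [MeasurableSpace X] (μ : Measure X) [IsProbabilityMeasure μ]
    (T : X ≃ᵐ X) (f : Fin ℓ → X → ℝ),
    MeasurePreserving (⇑T) μ μ → (∀ i, MemLp (f i) ⊤ μ) → Concl (fun m => ω ∈ E m) k μ T f

def MainWS : Prop := ∀ (σ : ℕ → ℝ), (∀ n, 0 ≤ σ n ∧ σ n ≤ 1) → Antitone σ → Gr σ 1 →
  ∀ (Ω : Type) [MeasurableSpace Ω] (P : Measure Ω) [IsProbabilityMeasure P]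
    (E : ℕ → Set Ω), (∀ n, MeasurableSet (E n)) → iIndepSet E P →
    (∀ n, P (E n) = ENNReal.ofReal (σ n)) →
  ∀ᵐ ω ∂P, ∀ (ℓ : ℕ) (k : Fin ℓ → ℤ)
    (X : Type) [MeasurableSpace X] (μ : Measure X) [IsProbabilityMeasure μ]
    (T : X ≃ᵐ X) (f : Fin ℓ → X → ℝ),
    MeasurePreserving (⇑T) μ μ → Ergodic (Prod.map T T) (μ.prod μ) →
    (∀ i, MemLp (f i) ⊤ μ) → Concl (fun m => ω ∈ E m) k μ T f

end Pool.Agent.MP_154433_an.T3S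

end
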