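import Mathlib
import Pool.Agent.MP_154433_an.t3s.Spec

/-! Small facts shared by the rows. -/

set_option autoImplicit false
set_option linter.unusedVariables false

open MeasureTheory ProbabilityTheory Filter Topology Function
open scoped BigOperators ComplexConjugate InnerProductSpace

noncomputable section

namespace Pool.Agent.MP_154433_an.T3S

lemma norm_exp_le {ι : Type} (s : Finset ι) (f : ι → ℂ) : ‖𝔼 i ∈ s, f i‖ ≤ 𝔼 i ∈ s, ‖f i‖ :=
  RCLike.norm_expect_le (K := ℂ)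

lemma exp_le_of_le {ι : Type} {s : Finset ι} {f : ι → ℝ} {c : ℝ} (hc : 0 ≤ c)
    (h : ∀ i ∈ s, f i ≤ c) : 𝔼 i ∈ s, f i ≤ c := by
  rcases s.eq_empty_or_nonempty with rfl | hs
  · simpa using hc
  · exact Finset.expect_le hs h

lemma norm_exp_le_of {ι : Type} {s : Finset ι} {f : ι → ℂ} {c : ℝ} (hc : 0 ≤ c)
    (h : ∀ i ∈ s, ‖f i‖ ≤ c) : ‖𝔼 i ∈ s, f i‖ ≤ c :=
  (norm_exp_le s f).trans (exp_le_of_le hc h)

lemma re_exp {ι : Type} (s : Finset ι) (f : ι → ℂ) : (𝔼 i ∈ s, f i).re = 𝔼 i ∈ s, (f i).re :=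
  Complex.re_expect s f

lemma conj_exp {ι : Type} (s : Finset ι) (f : ι → ℂ) :
    conj (𝔼 i ∈ s, f i) = 𝔼 i ∈ s, conj (f i) := by
  simp only [Finset.expect_eq_sum_div_card, map_div₀, map_sum, map_natCast]

lemma norm_prod_le_one {ι : Type} (s : Finset ι) {f : ι → ℂ} (h : ∀ i ∈ s, ‖f i‖ ≤ 1) :
    ‖∏ i ∈ s, f i‖ ≤ 1 := by
  rw [norm_prod]
  exact Finset.prod_le_one (fun _ _ => norm_nonneg _) h

/-- telescoping for products of numbers in the unit disc -/
lemma norm_prod_sub_le {ι : Type} (s : Finset ι) {f g : ι → ℂ} (hf : ∀ i, ‖f i‖ ≤ 1)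
    (hg : ∀ i, ‖g i‖ ≤ 1) : ‖∏ i ∈ s, f i - ∏ i ∈ s, g i‖ ≤ ∑ i ∈ s, ‖f i - g i‖ := by
  classical
  induction s using Finset.induction_on with
  | empty => simp
  | insert a s ha ih =>
    rw [Finset.prod_insert ha, Finset.prod_insert ha, Finset.sum_insert ha]
    have e : f a * ∏ i ∈ s, f i - g a * ∏ i ∈ s, g i =
        (f a - g a) * ∏ i ∈ s, f i + g a * (∏ i ∈ s, f i - ∏ i ∈ s, g i) := by ring
    rw [e]
    refine (norm_add_le _ _).trans (add_le_add ?_ ?_)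
    · rw [norm_mul]
      exact mul_le_of_le_one_right (norm_nonneg _) (norm_prod_le_one s fun i _ => hf i)
    · rw [norm_mul]
      exact (mul_le_of_le_one_left (norm_nonneg _) (hg a)).trans ih

namespace B1

variable {α : Type} {f g : α → ℂ}

lemma mul (hf : B1 f) (hg : B1 g) : B1 fun x => f x * g x := fun x => by
  rw [norm_mul]
  exact mul_le_one₀ (hf x) (norm_nonneg _) (hg x)

lemma cj (hf : B1 f) : B1 fun x => conj (f x) := fun x => by
  rw [RCLike.norm_conj]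
  exact hf x

lemma comp {β : Type} (hf : B1 f) (e : β → α) : B1 fun y => f (e y) := fun y => hf _

lemma convex : Convex ℝ {f : α → ℂ | B1 f} := by
  intro f hf g hg a b ha hb hab x
  refine (norm_add_le _ _).trans ?_
  simp only [Pi.smul_apply, norm_smul, Real.norm_eq_abs, abs_of_nonneg ha, abs_of_nonneg hb]
  nlinarith [hf x, hg x]

end B1

section Grp

variable {G : Type} [AddCommGroup G] [Fintype G]

omit [Fintype G] in
lemma B1.dd {f : G → ℂ} (hf : B1 f) (h : G) : B1 (dd h f) := (hf.comp _).mul hf.cj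

omit [Fintype G] in
lemma dd_comm (h t : G) (f : G → ℂ) : dd h (dd t f) = dd t (dd h f) := by
  funext x
  simp only [dd, map_mul, RCLike.conj_conj, add_right_comm x h t]
  ring

lemma Q_nonneg (k : ℕ) (f : G → ℂ) : 0 ≤ Q k f := by
  induction k generalizing f with
  | zero => exact sq_nonneg _
  | succ k ih => exact Finset.expect_nonneg fun h _ => ih _

lemma Q_le_one (k : ℕ) {f : G → ℂ} (hf : B1 f) : Q k f ≤ 1 := by
  induction k generalizing f with
  | zero => exact pow_le_one₀ (norm_nonneg _) (norm_exp_le_of zero_le_one fun x _ => hf x)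
  | succ k ih => exact exp_le_of_le zero_le_one fun h _ => ih (hf.dd h)

lemma B1_char (χ : AddChar G ℂ) : B1 χ := fun x => (χ.norm_apply x).le

omit [AddCommGroup G] in
lemma one_le_LG : 1 ≤ LG G := by
  have : 0 ≤ Real.log (Fintype.card G) := Real.log_natCast_nonneg _
  simp only [LG]
  linarith

lemma card_le_exp_LG : (Fintype.card G : ℝ) ≤ Real.exp (LG G) := by
  have h : (0 : ℝ) < Fintype.card G := by exact_mod_cast Fintype.card_pos
  rw [LG, Real.exp_add, Real.exp_log h]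
  exact le_mul_of_one_le_right h.le (Real.one_le_exp zero_le_one)

lemma Dual.convex (k : ℕ) (A : ℝ) : Convex ℝ {u : G → ℂ | Dual k A u} := by
  intro u hu v hv a b ha hb hab
  refine ⟨B1.convex hu.1 hv.1 ha hb hab, fun g hg => ?_⟩
  have e : ip g (a • u + b • v) = a * ip g u + b * ip g v := by
    simp only [ip, Finset.mul_expect, ← Finset.expect_add_distrib]
    refine Finset.expect_congr rfl fun x _ => ?_
    simp only [Pi.add_apply, Pi.smul_apply, Complex.real_smul, map_add, map_mul,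
      Complex.conj_ofReal]
    ring
  have h1 : ‖ip g (a • u + b • v)‖ ≤ max ‖ip g u‖ ‖ip g v‖ := by
    rw [e]
    refine (norm_add_le _ _).trans ?_
    simp only [norm_mul, Complex.norm_real, Real.norm_eq_abs, abs_of_nonneg ha, abs_of_nonneg hb]
    have h2 := mul_le_mul_of_nonneg_left (le_max_left ‖ip g u‖ ‖ip g v‖) ha
    have h3 := mul_le_mul_of_nonneg_left (le_max_right ‖ip g u‖ ‖ip g v‖) hb
    calc _ ≤ (a + b) * max ‖ip g u‖ ‖ip g v‖ := by linarith
      _ = _ := by rw [hab, one_mul]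
  refine (pow_le_pow_left₀ (norm_nonneg _) h1 _).trans ?_
  rcases max_choice ‖ip g u‖ ‖ip g v‖ with h | h <;> rw [h]
  · exact hu.2 g hg
  · exact hv.2 g hg

end Grp

lemma blk_B1 {X : Type} {k : ℕ} (A : ℤ → X → X) (b : Fin k → ℤ) (H : ℕ)
    {β : Fin k → (Fin k → ℤ) → X → ℂ} (hβ : ∀ i τ, B1 (β i τ)) : B1 (blk A b H β) := fun x =>
  norm_exp_le_of zero_le_one fun h _ => norm_exp_le_of zero_le_one fun h' _ =>
    norm_prod_le_one _ fun i _ => hβ _ _ _

lemma CZ_B1 {k : ℕ} {b : Fin k → ℤ} {H0 : ℕ} {u : ℤ → ℂ} (hu : u ∈ CZ b H0) : B1 u := by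
  refine convexHull_min ?_ B1.convex hu
  rintro _ ⟨H, β, -, hβ, rfl⟩
  exact blk_B1 _ _ _ hβ

section Sys

variable {X : Type} [MeasurableSpace X] {μ : Measure X} {T : X ≃ᵐ X}

lemma Tz_add (T : X ≃ᵐ X) (v w : ℤ) (x : X) : Tz T (v + w) x = Tz T v (Tz T w x) := by
  simp only [Tz, zpow_add, Equiv.Perm.mul_apply]

lemma Tz_zero (T : X ≃ᵐ X) (x : X) : Tz T 0 x = x := by simp [Tz]

lemma Tz_one (T : X ≃ᵐ X) (x : X) : Tz T 1 x = T x := by simp [Tz]

lemma Tz_neg_one (T : X ≃ᵐ X) (x : X) : Tz T (-1) x = T.symm x := by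
  simp only [Tz, zpow_neg, zpow_one]
  rfl

lemma Tz_meas (T : X ≃ᵐ X) (v : ℤ) : Measurable (Tz T v) := by
  let P : Subgroup (Equiv.Perm X) :=
    { carrier := {e | Measurable e ∧ Measurable e.symm}
      one_mem' := ⟨measurable_id, measurable_id⟩
      mul_mem' := fun ha hb => ⟨ha.1.comp hb.1, hb.2.comp ha.2⟩
      inv_mem' := fun ha => ⟨ha.2, ha.1⟩ }
  exact (P.zpow_mem (x := T.toEquiv) ⟨T.measurable, T.symm.measurable⟩ v).1

lemma Tz_mp (hT : MeasurePreserving T μ μ) (v : ℤ) : MeasurePreserving (Tz T v) μ μ := by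
  let P : Subgroup (Equiv.Perm X) :=
    { carrier := {e | MeasurePreserving e μ μ ∧ MeasurePreserving e.symm μ μ}
      one_mem' := ⟨MeasurePreserving.id μ, MeasurePreserving.id μ⟩
      mul_mem' := fun ha hb => ⟨ha.1.comp hb.1, hb.2.comp ha.2⟩
      inv_mem' := fun ha => ⟨ha.2, ha.1⟩ }
  exact (P.zpow_mem (x := T.toEquiv) ⟨hT, hT.symm T⟩ v).1

lemma integral_Tz (hT : MeasurePreserving T μ μ) (v : ℤ) {E : Type} [NormedAddCommGroup E]
    [NormedSpace ℝ E] {f : X → E} (hf : AEStronglyMeasurable f μ) :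
    ∫ x, f (Tz T v x) ∂μ = ∫ x, f x ∂μ := by
  have h := Tz_mp hT v
  rw [← integral_map h.measurable.aemeasurable (by rwa [h.map_eq]), h.map_eq]

lemma meas_exp {ι : Type} (s : Finset ι) {f : ι → X → ℂ} (h : ∀ i ∈ s, Measurable (f i)) :
    Measurable fun x => 𝔼 i ∈ s, f i x := by
  simp only [Finset.expect_eq_sum_div_card]
  exact (Finset.measurable_sum _ h).div_const _

lemma integral_exp {ι : Type} (s : Finset ι) {f : ι → X → ℂ} (h : ∀ i ∈ s, Integrable (f i) μ) :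
    ∫ x, 𝔼 i ∈ s, f i x ∂μ = 𝔼 i ∈ s, ∫ x, f i x ∂μ := by
  simp only [Finset.expect_eq_sum_div_card]
  rw [integral_div, integral_finsetSum _ h]

namespace MB1

variable {f g : X → ℂ}

lemma mul (hf : MB1 f) (hg : MB1 g) : MB1 fun x => f x * g x := ⟨hf.1.mul hg.1, hf.2.mul hg.2⟩

lemma cj (hf : MB1 f) : MB1 fun x => conj (f x) :=
  ⟨Complex.continuous_conj.measurable.comp hf.1, hf.2.cj⟩

lemma tz (hf : MB1 f) (T : X ≃ᵐ X) (v : ℤ) : MB1 fun x => f (Tz T v x) :=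
  ⟨hf.1.comp (Tz_meas T v), hf.2.comp _⟩

lemma ddX (hf : MB1 f) (T : X ≃ᵐ X) (v : ℤ) : MB1 (ddX T v f) := (hf.tz T v).mul hf.cj

lemma prod {ι : Type} (s : Finset ι) {F : ι → X → ℂ} (h : ∀ i ∈ s, MB1 (F i)) :
    MB1 fun x => ∏ i ∈ s, F i x :=
  ⟨Finset.measurable_prod _ fun i hi => (h i hi).1,
    fun x => norm_prod_le_one s fun i hi => (h i hi).2 x⟩

lemma integrable (hf : MB1 f) (μ : Measure X) [IsFiniteMeasure μ] : Integrable f μ :=
  Integrable.of_bound hf.1.aestronglyMeasurable 1 (Eventually.of_forall hf.2)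

lemma convex : Convex ℝ {f : X → ℂ | MB1 f} := fun f hf g hg a b ha hb hab =>
  ⟨(hf.1.const_smul a).add (hg.1.const_smul b), B1.convex hf.2 hg.2 ha hb hab⟩

end MB1

lemma blk_MB1 {k : ℕ} (T : X ≃ᵐ X) (b : Fin k → ℤ) (H : ℕ) {β : Fin k → (Fin k → ℤ) → X → ℂ}
    (hβ : ∀ i τ, MB1 (β i τ)) : MB1 (blk (Tz T) b H β) :=
  ⟨meas_exp _ fun h _ => meas_exp _ fun h' _ =>
    Finset.measurable_prod _ fun i _ => ((hβ _ _).tz T _).1, blk_B1 _ _ _ fun i τ => (hβ i τ).2⟩

lemma CX_MB1 {k : ℕ} {b : Fin k → ℤ} {H0 : ℕ} {u : X → ℂ} (hu : u ∈ CX T b H0) : MB1 u := by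
  refine convexHull_min ?_ MB1.convex hu
  rintro _ ⟨H, β, -, hβ, rfl⟩
  exact blk_MB1 _ _ _ hβ

lemma wavg_meas {ι : Type} [Fintype ι] (T : X ≃ᵐ X) (w : ℕ → ℕ → ℝ) (r : ι → ℤ) {f : ι → X → ℂ}
    (hf : ∀ i, Measurable (f i)) (M : ℕ) : Measurable (wavg T w r f M) :=
  Finset.measurable_sum _ fun d _ =>
    (Finset.measurable_prod _ fun i _ => (hf i).comp (Tz_meas T _)).const_mul _

lemma wavg_norm_le {ι : Type} [Fintype ι] (T : X ≃ᵐ X) (w : ℕ → ℕ → ℝ) (r : ι → ℤ)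
    {f : ι → X → ℂ} (hf : ∀ i, B1 (f i)) (M : ℕ) (x : X) :
    ‖wavg T w r f M x‖ ≤ ∑ d ∈ Finset.range M, |w M d| := by
  refine (norm_sum_le _ _).trans (Finset.sum_le_sum fun d _ => ?_)
  rw [norm_mul, Complex.norm_real, Real.norm_eq_abs]
  exact mul_le_of_le_one_right (abs_nonneg _) (norm_prod_le_one _ fun i _ => hf i _)

lemma QX_tz (hT : MeasurePreserving T μ μ) (H n : ℕ) (b : Fin n → ℤ) (v : ℤ) {g : X → ℂ}
    (hg : MB1 g) : QX μ T H n b (fun x => g (Tz T v x)) = QX μ T H n b g := by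
  induction n generalizing g with
  | zero => simp only [QX, integral_Tz hT v hg.1.aestronglyMeasurable]
  | succ n ih =>
    simp only [QX]
    refine Finset.expect_congr rfl fun h _ => Finset.expect_congr rfl fun h' _ => ?_
    rw [← ih _ (hg.ddX T _)]
    congr 1
    funext x
    simp only [T3S.ddX, ← Tz_add, add_comm v]

end Sys

end Pool.Agent.MP_154433_an.T3S

end
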