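import Mathlib
import Pool.Agent.MP_154433_an.t3s.Basic

/-! Approximation of convex combinations of blocks on the integers by dual functions on a cyclic
group. -/

set_option autoImplicit false
set_option linter.unusedVariables false

open MeasureTheory ProbabilityTheory Filter Topology Function
open scoped BigOperators ComplexConjugate InnerProductSpace

noncomputable section

namespace Pool.Agent.MP_154433_an.T3S

namespace Apx

lemma vm {N : ℕ} [NeZero N] {z : ℤ} (h : 2 * |z| < N) : ((z : ZMod N)).valMinAbs = z := by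
  rw [ZMod.valMinAbs_spec]
  have h1 := le_abs_self z
  have h2 := neg_abs_le z
  exact ⟨rfl, by linarith, by linarith⟩

lemma exp_mem {ι α : Type} [Fintype ι] [Nonempty ι] {S : Set (α → ℂ)} (hS : Convex ℝ S)
    {f : ι → α → ℂ} (hf : ∀ i, f i ∈ S) : (fun x => 𝔼 i, f i x) ∈ S := by
  have hc : (Fintype.card ι : ℝ) ≠ 0 := by exact_mod_cast Fintype.card_ne_zero
  have h := hS.sum_mem (t := Finset.univ) (w := fun _ : ι => (Fintype.card ι : ℝ)⁻¹) (z := f)
    (fun _ _ => by positivity) (by simp [hc]) fun i _ => hf i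
  convert h using 1
  funext x
  rw [Finset.expect_eq_sum_div_card, Finset.sum_apply, Finset.sum_div]
  refine Finset.sum_congr rfl fun i _ => ?_
  simp [div_eq_inv_mul]

lemma dif_lt {k M : ℕ} (u u' : Fin k → Fin M) (j : Fin k) : |dif u u' j| + 1 ≤ M := by
  have h1 := (u j).2
  have h2 := (u' j).2
  have : |dif u u' j| < M := by
    rw [abs_lt, dif]
    constructor <;> omega
  omega

lemma small {R C0 M : ℕ} {b m s : ℤ} (hb : b ≠ 0) (hC : 2 * ((R : ℤ) + |b|) ≤ C0)
    (hm : |m| ≤ R * M) (hs : |s| + 1 ≤ M) : 2 * |m + b * s| < ((C0 * M : ℕ) : ℤ) := by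
  have h1 : |m + b * s| ≤ |m| + |b| * |s| := (abs_add_le _ _).trans (by rw [abs_mul])
  have h2 : 1 ≤ |b| := Int.one_le_abs hb
  have h3 : |b| * (|s| + 1) ≤ |b| * M := mul_le_mul_of_nonneg_left hs (abs_nonneg _)
  have h4 : 2 * ((R : ℤ) + |b|) * M ≤ C0 * M := mul_le_mul_of_nonneg_right hC (Nat.cast_nonneg _)
  push_cast
  nlinarith

/-- the progressions in the cyclic group -/
def aa {k : ℕ} (b : Fin k → ℤ) (N M : ℕ) (j : Fin k) (u : Fin M) : ZMod N :=
  ((b j * ((u : ℕ) : ℤ) : ℤ) : ZMod N)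

lemma aa_sub {k : ℕ} (b : Fin k → ℤ) (N M : ℕ) (u u' : Fin k → Fin M) (j : Fin k) :
    aa b N M j (u' j) - aa b N M j (u j) = ((b j * dif u u' j : ℤ) : ZMod N) := by
  simp only [aa, dif]
  push_cast
  ring

/-- the functions on the cyclic group attached to one shift -/
def gam {k : ℕ} (b : Fin k → ℤ) (N : ℕ) (β : Fin k → (Fin k → ℤ) → ℤ → ℂ) (t : Fin k → ℤ)
    (i : Fin k) (τ : Fin k → ZMod N) (y : ZMod N) : ℂ :=
  β i (update t i 0 + fun j => (τ j).valMinAbs / b j) (y.valMinAbs + b i * t i)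

lemma cub_eq {k : ℕ} {b : Fin k → ℤ} {R C0 M : ℕ} [NeZero (C0 * M)] (hb : ∀ i, b i ≠ 0)
    (hC : ∀ i, 2 * ((R : ℤ) + |b i|) ≤ C0) (β : Fin k → (Fin k → ℤ) → ℤ → ℂ) (t : Fin k → ℤ)
    {m : ℤ} (hm : |m| ≤ R * M) :
    cub (aa b (C0 * M) M) (gam b (C0 * M) β t) (m : ZMod (C0 * M)) =
      𝔼 u : Fin k → Fin M, 𝔼 u' : Fin k → Fin M,
        ∏ i, β i (update (t + dif u u') i 0) (sh (b i * (t + dif u u') i) m) := by
  refine Finset.expect_congr rfl fun u _ => Finset.expect_congr rfl fun u' _ =>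
    Finset.prod_congr rfl fun i _ => ?_
  simp only [gam, aa_sub]
  congr 1
  · funext j
    by_cases hj : j = i
    · subst hj
      simp
    · have h := small (m := 0) (hb j) (hC j) (by simp; positivity) (dif_lt u u' j)
      rw [zero_add] at h
      simp only [Pi.add_apply, update_of_ne hj, vm h, Int.mul_ediv_cancel_left _ (hb j)]
  · rw [← Int.cast_add, vm (small (hb i) (hC i) hm (dif_lt u u' i))]
    simp only [sh, Pi.add_apply]
    ring

lemma aa_inj {k : ℕ} {b : Fin k → ℤ} {R C0 M : ℕ} [NeZero (C0 * M)] (hb : ∀ i, b i ≠ 0)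
    (hC : ∀ i, 2 * ((R : ℤ) + |b i|) ≤ C0) (j : Fin k) : Injective (aa b (C0 * M) M j) := by
  intro u u' h
  have h1 := aa_sub b (C0 * M) M (fun _ => u) (fun _ => u') j
  have h2 := small (m := 0) (hb j) (hC j) (by simp; positivity)
    (dif_lt (fun _ : Fin k => u) (fun _ => u') j)
  rw [zero_add] at h2
  have h3 := vm h2
  rw [← h1, h, sub_self, ZMod.valMinAbs_zero] at h3
  have h4 := (mul_eq_zero.1 h3.symm).resolve_left (hb j)
  simp only [dif] at h4
  exact Fin.ext (by omega)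

end Apx

open Apx in
theorem apx (h1 : ShiftS) (h2 : DualS) : ApxS := by
  intro l hl b R C0 M H0 _ hb hC hH0 w hw
  have hM : 1 ≤ M := Nat.pos_of_ne_zero fun h => NeZero.ne (C0 * M) (by rw [h, mul_zero])
  have hM' : (M : ℝ) ≠ 0 := by exact_mod_cast (by omega : M ≠ 0)
  refine convexHull_min (t := {w : ℤ → ℂ | ∃ u : ZMod (C0 * M) → ℂ,
    Dual l (((C0 : ℝ) ^ (l + 1)) ^ 2 ^ (l + 1)) u ∧
    ∀ m : ℤ, |m| ≤ R * M → ‖w m - u (m : ZMod (C0 * M))‖ ≤ 4 * (l + 1) * M / H0}) ?_ ?_ hw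
  · rintro _ ⟨H, β, hH, hβ, rfl⟩
    have hH1 : 1 ≤ H := hH0.trans hH
    have : Nonempty (Fin H) := ⟨⟨0, hH1⟩⟩
    have : Nonempty (Fin M) := ⟨⟨0, hM⟩⟩
    refine ⟨fun x => 𝔼 h : Fin (l + 1) → Fin H, 𝔼 h' : Fin (l + 1) → Fin H,
      cub (aa b (C0 * M) M) (gam b (C0 * M) β (dif h h')) x, ?_, fun m hm => ?_⟩
    · refine exp_mem (Dual.convex _ _) fun h => exp_mem (Dual.convex _ _) fun h' => ?_
      have := h2 l hl (ZMod (C0 * M)) (Fin M) (aa b (C0 * M) M) (gam b (C0 * M) β (dif h h'))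
        (aa_inj hb hC) fun i τ y => hβ _ _ _
      rwa [ZMod.card, Fintype.card_fin, Nat.cast_mul, mul_div_cancel_right₀ _ hM'] at this
    · simp only [cub_eq hb hC β _ hm]
      refine (h1 (l + 1) H M (fun t => ∏ i, β i (update t i 0) (sh (b i * t i) m)) hH1 hM
        fun t => norm_prod_le_one _ fun i _ => hβ _ _ _).trans ?_
      have h0 : (0 : ℝ) < H0 := by exact_mod_cast hH0
      push_cast
      exact div_le_div_of_nonneg_left (by positivity) h0 (by exact_mod_cast hH)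
  · rintro w ⟨u, hu, hw⟩ w' ⟨u', hu', hw'⟩ a c ha hc hac
    refine ⟨a • u + c • u', Dual.convex _ _ hu hu' ha hc hac, fun m hm => ?_⟩
    have e : (a • w + c • w') m - (a • u + c • u') (m : ZMod (C0 * M)) =
        a • (w m - u m) + c • (w' m - u' m) := by
      simp only [Pi.add_apply, Pi.smul_apply, smul_sub]
      ring
    rw [e]
    refine (norm_add_le _ _).trans ?_
    rw [norm_smul, norm_smul, Real.norm_eq_abs, Real.norm_eq_abs, abs_of_nonneg ha,
      abs_of_nonneg hc]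
    have k1 := mul_le_mul_of_nonneg_left (hw m hm) ha
    have k2 := mul_le_mul_of_nonneg_left (hw' m hm) hc
    calc _ ≤ (a + c) * (4 * (l + 1) * M / H0 : ℝ) := by linarith
      _ = _ := by rw [hac, one_mul]

end Pool.Agent.MP_154433_an.T3S

end
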