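import Mathlib
import Pool.Agent.MP_154433_an.t3s.Basic

/-! From the rows and the deterministic theorems to the two main statements. -/

set_option autoImplicit false
set_option linter.unusedVariables false

open MeasureTheory ProbabilityTheory Filter Topology Function
open scoped BigOperators ComplexConjugate InnerProductSpace

noncomputable section

namespace Pool.Agent.MP_154433_an.T3S

namespace Asm

lemma gr_mono {σ : ℕ → ℝ} (h0 : ∀ n, 0 ≤ σ n) {l l' : ℕ} (hl : l' ≤ l) (h : Gr σ l) : Gr σ l' := by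
  refine tendsto_atTop_mono' _ ?_ h
  have hlog : Tendsto (fun M : ℕ => Real.log M) atTop atTop :=
    Real.tendsto_log_atTop.comp tendsto_natCast_atTop_atTop
  filter_upwards [hlog.eventually_ge_atTop 1] with M hM
  have hW : 0 ≤ Wt σ M := Finset.sum_nonneg fun k _ => h0 k
  exact div_le_div_of_nonneg_left hW (by positivity) (pow_le_pow_right₀ hM hl)

lemma wt_tendsto {σ : ℕ → ℝ} (h0 : ∀ n, 0 ≤ σ n) {l : ℕ} (h : Gr σ l) :
    Tendsto (Wt σ) atTop atTop := by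
  have := gr_mono h0 (Nat.zero_le l) h
  simpa [Gr] using this

lemma bd_sub {ν ν' : ℕ → ℕ → ℝ} (h : PW ν) (h' : PW ν') : Bd fun M d => ν M d - ν' M d := by
  filter_upwards [h.2, h'.2] with M h1 h2
  have : ∑ d ∈ Finset.range M, |ν M d - ν' M d| ≤ ∑ d ∈ Finset.range M, (ν M d + ν' M d) :=
    Finset.sum_le_sum fun d _ => by
      have := h.1 M d
      have := h'.1 M d
      rw [abs_le]
      constructor <;> linarith
  rw [Finset.sum_add_distrib, h1, h2] at this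
  linarith

lemma concl_zero (p : ℕ → Prop) (k : Fin 0 → ℤ) {X : Type} [MeasurableSpace X] (μ : Measure X)
    [IsProbabilityMeasure μ] (T : X ≃ᵐ X) (f : Fin 0 → X → ℝ) : Concl p k μ T f := by
  refine ⟨fun _ => 1, memLp_const 1, ?_, ?_⟩
  · refine tendsto_const_nhds.congr' ?_
    filter_upwards [eventually_gt_atTop 0] with N hN
    have : (N : ℝ) ≠ 0 := by positivity
    simp [inv_mul_cancel₀ this]
  · refine tendsto_const_nhds.congr' ?_
    filter_upwards [eventually_gt_atTop 0] with N hN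
    have : (N : ℝ) ≠ 0 := by positivity
    simp [inv_mul_cancel₀ this]

end Asm

open Asm

theorem hasB0 (h1 : FacS) (h2 : GoodS) (h3 : UnifS) {ν ν' : ℕ → ℕ → ℝ} (hν : PW ν) (hν' : PW ν')
    (hi : AsInv ν') {l : ℕ} (hs : Str l fun M d => ν M d - ν' M d) (r : Fin l → ℤ)
    (hr : Injective r) (hr0 : ∀ i, r i ≠ 0) : HasB0 ν ν' r := fun X _ μ _ T hT =>
  ⟨B0 μ T l, (h1 l X μ T hT).1, h2 l _ hs (bd_sub hν hν') X μ T hT _ r,
    h3 ν' hν' hi X μ T hT l r hr hr0⟩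

theorem mainOf (h1 : FacS) (h2 : GoodS) (h3 : UnifS) (h4 : AeS) (h5 : NormS) (h6 : ErgS)
    (h7 : RedS) (h8 : EndS) (hD : DetS) : MainS := by
  intro σ hσ ha Ω _ P _ E hE hind hP
  have h0 : ∀ n, 0 ≤ σ n := fun n => (hσ n).1
  by_cases hg : Gr σ 1
  swap
  · refine Eventually.of_forall fun ω ℓ hℓ k X _ μ _ T f hT hf => ?_
    rcases Nat.eq_zero_or_pos ℓ with rfl | hpos
    · exact concl_zero _ _ _ _ _
    · exact absurd (gr_mono h0 hpos hℓ) hg
  have hW := wt_tendsto h0 hg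
  filter_upwards [h4 σ hσ Ω P E hE hind hP hg] with ω hω ℓ hℓ k X _ μ _ T f hT hf
  obtain ⟨a1, a2, a3, a4, a5⟩ := h5.1 σ _ h0 hW hω.1
  have hi := h5.2.2.2 σ h0 ha hW
  have e2 : Erg (nb σ) := h6.1 _ a2 hi
  have e1 : Erg (nu fun m => ω ∈ E m) := h6.2 _ _ e2 (h5.2.1 _ _ a4 hω.1)
  refine h8 σ _ h0 ha hW a5 ℓ k X μ T hT (h7 _ _ a4 a5 X μ T hT ℓ ?_ k) f hf
  intro l hl1 hl r hr hr0
  exact hD _ _ a1 a2 e1 e2 l r hr hr0
    (hasB0 h1 h2 h3 a1 a2 hi (h5.2.2.1 l _ _ a4 (hω.2 l hl1 (gr_mono h0 hl hℓ))) r hr hr0)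
    X μ T hT

theorem mainWOf (h4 : AeS) (h5 : NormS) (h6 : ErgS) (h7 : RedS) (h8 : EndS) (hD : DetWS) :
    MainWS := by
  intro σ hσ ha hg Ω _ P _ E hE hind hP
  have h0 : ∀ n, 0 ≤ σ n := fun n => (hσ n).1
  have hW := wt_tendsto h0 hg
  filter_upwards [h4 σ hσ Ω P E hE hind hP hg] with ω hω ℓ k X _ μ _ T f hT hw hf
  obtain ⟨a1, a2, a3, a4, a5⟩ := h5.1 σ _ h0 hW hω.1
  have hi := h5.2.2.2 σ h0 ha hW
  have e2 : Erg (nb σ) := h6.1 _ a2 hi
  have e1 : Erg (nu fun m => ω ∈ E m) := h6.2 _ _ e2 (h5.2.1 _ _ a4 hω.1)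
  refine h8 σ _ h0 ha hW a5 ℓ k X μ T hT (h7 _ _ a4 a5 X μ T hT ℓ ?_ k) f hf
  intro l hl1 hl r hr hr0
  exact hD _ _ a1 a2 e1 e2 l r hr hr0 X μ T hT hw

end Pool.Agent.MP_154433_an.T3S

end
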