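import Mathlib
import Pool.Agent.MP_154433_an.t3.Spec
import Pool.Agent.MP_154433_an.t3s.Basic

/-! The deterministic theorems in the vocabulary of the probabilistic part. -/

set_option autoImplicit false
set_option linter.unusedVariables false

open MeasureTheory ProbabilityTheory Filter Topology Function
open scoped BigOperators ComplexConjugate InnerProductSpace

noncomputable section

namespace Pool.Agent.MP_154433_an.T3S

namespace Bridge

open Classical in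
def toWt (ν : ℕ → ℕ → ℝ) (h : PW ν) : T3x.Wt where
  sp M := if ∑ d ∈ Finset.range M, ν M d = 1 then (Finset.range M).image (Nat.cast : ℕ → ℤ)
    else {0}
  w M d := if ∑ d ∈ Finset.range M, ν M d = 1 then ν M d.toNat else 1
  nn M d := by
    split_ifs
    · exact h.1 _ _
    · exact zero_le_one
  one M := by
    split_ifs with e
    · rw [Finset.sum_image fun x _ y _ e => Nat.cast_injective e]
      simpa only [Int.toNat_natCast] using e
    · simp

lemma av_eq {ν : ℕ → ℕ → ℝ} (h : PW ν) {M : ℕ} (e : ∑ d ∈ Finset.range M, ν M d = 1) {E : Type}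
    [AddCommMonoid E] [Module ℝ E] (φ : ℤ → E) :
    (toWt ν h).av M φ = ∑ d ∈ Finset.range M, ν M d • φ d := by
  simp only [T3x.Wt.av, toWt, if_pos e]
  rw [Finset.sum_image fun x _ y _ e => Nat.cast_injective e]
  simp only [Int.toNat_natCast]

lemma pow_app {E : Type} [NormedAddCommGroup E] [InnerProductSpace ℂ E] (V : E ≃ₗᵢ[ℂ] E) (d : ℕ)
    (v : E) : (V ^ (d : ℤ)) v = (⇑V)^[d] v := by
  rw [zpow_natCast]
  induction d with
  | zero => rfl
  | succ d ih => rw [pow_succ', iterate_succ_apply', ← ih]; rfl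

lemma erg_to {ν : ℕ → ℕ → ℝ} (h : PW ν) (he : Erg ν) : T3x.ERG (toWt ν h) := by
  intro E _ _ _ V v hv
  refine (he E V v hv).congr' ?_
  filter_upwards [h.2] with M e
  rw [av_eq h e]
  exact Finset.sum_congr rfl fun d _ => by rw [pow_app, Complex.coe_smul]

lemma avg_eq {ν : ℕ → ℕ → ℝ} (h : PW ν) {M : ℕ} (e : ∑ d ∈ Finset.range M, ν M d = 1)
    (X : T3x.Sys) {ι : Type} [Fintype ι] (r : ι → ℤ) (f : ι → X.X → ℂ) (x : X.X) :
    T3x.avg (toWt ν h) M X r f x = wavg X.T ν r f M x := by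
  rw [T3x.avg, av_eq h e]
  exact Finset.sum_congr rfl fun d _ => Complex.real_smul

lemma wavg_sub {X : Type} [MeasurableSpace X] (T : X ≃ᵐ X) (ν ν' : ℕ → ℕ → ℝ) {ι : Type}
    [Fintype ι] (r : ι → ℤ) (f : ι → X → ℂ) (M : ℕ) (x : X) :
    wavg T (fun M d => ν M d - ν' M d) r f M x = wavg T ν r f M x - wavg T ν' r f M x := by
  simp only [wavg, ← Finset.sum_sub_distrib]
  refine Finset.sum_congr rfl fun d _ => ?_
  push_cast
  ring

lemma van_iff {ν ν' : ℕ → ℕ → ℝ} (h : PW ν) (h' : PW ν') (X : T3x.Sys) {ι : Type} [Fintype ι]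
    (r : ι → ℤ) (f : ι → X.X → ℂ) : Van X.μ X.T (fun M d => ν M d - ν' M d) r f ↔
    Tendsto (fun M => ∫ x, ‖T3x.avg (toWt ν h) M X r f x - T3x.avg (toWt ν' h') M X r f x‖ ^ 2 ∂X.μ)
      atTop (𝓝 0) := by
  refine tendsto_congr' ?_
  filter_upwards [h.2, h'.2] with M e e'
  simp only [avg_eq h e, avg_eq h' e', wavg_sub]

lemma exists_MB1 {X : Type} [MeasurableSpace X] {μ : Measure X} {g : X → ℂ}
    (hm : AEStronglyMeasurable g μ) (hb : ∀ᵐ x ∂μ, ‖g x‖ ≤ 1) : ∃ g', MB1 g' ∧ g =ᵐ[μ] g' := by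
  classical
  have h1 := hm.stronglyMeasurable_mk.measurable
  refine ⟨fun x => if ‖hm.mk g x‖ ≤ 1 then hm.mk g x else 0,
    ⟨Measurable.ite (measurableSet_le h1.norm measurable_const) h1 measurable_const,
      fun x => ?_⟩, ?_⟩
  · beta_reduce
    split_ifs with e
    · exact e
    · simp
  · filter_upwards [hb, hm.ae_eq_mk] with x h2 h3
    rw [← h3, if_pos h2]

lemma wavg_congr {X : Type} [MeasurableSpace X] {μ : Measure X} {T : X ≃ᵐ X}
    (hT : MeasurePreserving T μ μ) (w : ℕ → ℕ → ℝ) {ι : Type} [Fintype ι] (r : ι → ℤ)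
    {f f' : ι → X → ℂ} (h : ∀ i, f i =ᵐ[μ] f' i) (M : ℕ) :
    wavg T w r f M =ᵐ[μ] wavg T w r f' M := by
  have : ∀ᵐ x ∂μ, ∀ (i : ι) (v : ℤ), f i (Tz T v x) = f' i (Tz T v x) :=
    ae_all_iff.2 fun i => ae_all_iff.2 fun v =>
      (Tz_mp hT v).quasiMeasurePreserving.ae_eq_comp (h i)
  filter_upwards [this] with x hx
  simp only [wavg, hx]

lemma tz_congr (X : T3x.Sys) {g g' : X.X → ℂ} (h : g =ᵐ[X.μ] g') (v : ℤ) :
    ∀ᵐ y ∂X.μ, g (X.Tz v y) = g' (X.Tz v y) :=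
  (Tz_mp X.mp v).quasiMeasurePreserving.ae_eq_comp h

lemma null_inv (X : T3x.Sys) {A : Set X.X} (hA : MeasurableSet A) (h0 : X.μ A = 0) :
    X.T ⁻¹' A =ᵐ[X.μ] A := by
  have h1 : X.μ (X.T ⁻¹' A) = 0 := by
    rw [X.mp.measure_preimage hA.nullMeasurableSet]
    exact h0
  exact (ae_eq_empty.2 h1).trans (ae_eq_empty.2 h0).symm

lemma tz_one (X : T3x.Sys) : X.Tz 1 = X.T := funext (Tz_one X.T)

lemma tz_neg (X : T3x.Sys) : X.Tz (-1) = X.T.symm := funext (Tz_neg_one X.T)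

lemma g0_to {ν' : ℕ → ℕ → ℝ} (h' : PW ν') (X : T3x.Sys) {ι : Type} [Fintype ι] [DecidableEq ι]
    (r : ι → ℤ) (B : MeasurableSpace X.X) (hu : Unif B X.μ X.T ν' r) :
    T3x.G0 (toWt ν' h') X r B := by
  intro g hg hg1 hg0 i0 ε hε
  obtain ⟨g', m1, e1⟩ := @exists_MB1 X.X X.ms X.μ g hg.1 hg1
  obtain ⟨H, a, hH, ha, hb⟩ := hu i0 g' m1 ((condExp_congr_ae e1).symm.trans hg0) ε hε
  refine ⟨H, a, hH, ha, fun n n' c η hc hc1 hη => ?_⟩
  choose c' m2 e2 using fun i => @exists_MB1 X.X X.ms X.μ (c i) (hc i).1 (hc1 i)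
  filter_upwards [hb n n' c' m2 η hη, h'.2] with M hM e
  refine le_of_eq_of_le (integral_congr_ae ?_) hM
  have key := @wavg_congr X.X X.ms X.μ X.T X.mp ν' ι _ r
    (update c i0 fun y => g (X.Tz n y) * conj (g (X.Tz n' y)))
    (update c' i0 fun y => g' (@Tz X.X X.ms X.T n y) * conj (g' (@Tz X.X X.ms X.T n' y)))
    (fun i => ?_) M
  · filter_upwards [key] with x hx
    rw [avg_eq h' e, hx]
  · by_cases hi : i = i0
    · subst hi
      simp only [update_self]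
      filter_upwards [tz_congr X e1 n, tz_congr X e1 n'] with y h1 h2
      exact congrArg₂ (fun a b => a * conj b) h1 h2
    · simp only [update_of_ne hi]
      exact e2 i

lemma fac_to (X : T3x.Sys) (B : MeasurableSpace X.X) (h : FacI B X.μ X.T) :
    T3x.Fac X B ∧ T3x.Inv X ≤ B := by
  have hn : T3x.nul X.μ ≤ B :=
    MeasurableSpace.generateFrom_le fun A hA => h.2.2.2 A hA.1 (null_inv X hA.1 hA.2)
  refine ⟨⟨h.1, hn, ?_, ?_⟩, sup_le ?_ hn⟩
  · rintro _ ⟨A, hA, rfl⟩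
    rw [tz_one]
    exact h.2.1 A hA
  · rintro _ ⟨A, hA, rfl⟩
    rw [tz_neg]
    exact h.2.2.1 A hA
  · intro A hA
    exact h.2.2.2 A hA.1 (EventuallyEq.of_eq hA.2)

end Bridge

open Bridge

theorem detOf (h : T3x.DET) : DetS := by
  intro ν ν' h1 h2 e1 e2 l r hr hr0 hB X _ μ _ T hT f hf
  let Y : T3x.Sys := { X := X, μ := μ, T := T, mp := hT }
  refine (van_iff h1 h2 Y r f).2 (h _ _ (Fin l) r (erg_to h1 e1) (erg_to h2 e2) hr hr0 ?_ Y f
    fun i => ⟨(hf i).1.aestronglyMeasurable, 1, Eventually.of_forall (hf i).2⟩)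
  intro Z
  obtain ⟨B, b1, b2, b3⟩ := hB Z.X Z.μ Z.T Z.mp
  exact ⟨B, (fac_to Z B b1).1, (fac_to Z B b1).2, fun g hg => (van_iff h1 h2 Z r g).1 (b2 g hg),
    g0_to h2 Z r B b3⟩

theorem detWOf (h : T3x.DETW) : DetWS := by
  intro ν ν' h1 h2 e1 e2 l r hr hr0 X _ μ _ T hT hw f hf
  let Y : T3x.Sys := { X := X, μ := μ, T := T, mp := hT }
  exact (van_iff h1 h2 Y r f).2 (h _ _ (Fin l) r (erg_to h1 e1) (erg_to h2 e2) hr hr0 Y hw f
    fun i => ⟨(hf i).1.aestronglyMeasurable, 1, Eventually.of_forall (hf i).2⟩)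

end Pool.Agent.MP_154433_an.T3S

end
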