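import Mathlib
import Pool.Agent.MP_154433_an.t3s.Basic

/-! Few almost orthogonal functions share a code. -/

set_option autoImplicit false
set_option linter.unusedVariables false

open MeasureTheory ProbabilityTheory Filter Topology Function
open scoped BigOperators ComplexConjugate InnerProductSpace

noncomputable section

namespace Pool.Agent.MP_154433_an.T3S

namespace Code

variable {G : Type} [AddCommGroup G] [Fintype G]

lemma bessel {ι : Type} [Fintype ι] (g : ι → G → ℂ) {φ : G → ℂ} (hφ : B1 φ) {c : ℝ} (hc : 0 ≤ c)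
    (h : ∀ i, c ≤ ‖ip (g i) φ‖) :
    (Fintype.card ι * c) ^ 2 ≤ ∑ i, ∑ i', ‖𝔼 x, g i x * conj (g i' x)‖ := by
  choose θ h1 h2 using fun i => Complex.exists_norm_eq_mul_self (ip (g i) φ)
  let S : G → ℂ := fun x => ∑ i, θ i * g i x
  have e1 : ip S φ = ((∑ i, ‖ip (g i) φ‖ : ℝ) : ℂ) := by
    simp only [ip, S, Finset.sum_mul, Finset.expect_sum_comm, mul_assoc, ← Finset.mul_expect,
      Complex.ofReal_sum]
    exact Finset.sum_congr rfl fun i _ => (h2 i).symm
  have e2 : Fintype.card ι * c ≤ 𝔼 x, ‖S x‖ := by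
    calc Fintype.card ι * c ≤ ∑ i, ‖ip (g i) φ‖ := by
          simpa using Finset.card_nsmul_le_sum Finset.univ _ c fun i _ => h i
      _ = ‖ip S φ‖ := by
          rw [e1, Complex.norm_real, Real.norm_of_nonneg (Finset.sum_nonneg fun _ _ => norm_nonneg _)]
      _ ≤ _ := (norm_exp_le _ _).trans (Finset.expect_le_expect fun x _ => by
          rw [norm_mul]
          exact mul_le_of_le_one_right (norm_nonneg _) (hφ.cj x))
  have e3 : (𝔼 x, ‖S x‖) ^ 2 ≤ 𝔼 x, ‖S x‖ ^ 2 := by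
    simpa using Finset.expect_mul_sq_le_sq_mul_sq Finset.univ (fun x => ‖S x‖) fun _ => (1 : ℝ)
  have e4 : ((𝔼 x, ‖S x‖ ^ 2 : ℝ) : ℂ) =
      ∑ i, ∑ i', θ i * conj (θ i') * 𝔼 x, g i x * conj (g i' x) := by
    simp only [Complex.ofReal_expect, Complex.ofReal_pow, ← Complex.mul_conj', S, map_sum,
      Finset.sum_mul_sum, Finset.expect_sum_comm, Finset.mul_expect, map_mul]
    refine Finset.sum_congr rfl fun i _ => Finset.sum_congr rfl fun i' _ =>
      Finset.expect_congr rfl fun x _ => by ring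
  refine (pow_le_pow_left₀ (by positivity) e2 2).trans (e3.trans ((Real.le_norm_self _).trans ?_))
  rw [← Complex.norm_real, e4]
  refine (norm_sum_le _ _).trans (Finset.sum_le_sum fun i _ =>
    (norm_sum_le _ _).trans (Finset.sum_le_sum fun i' _ => le_of_eq ?_))
  rw [norm_mul, norm_mul, RCLike.norm_conj, h1, h1, one_mul, one_mul]

lemma off {n : ℕ} {t : Fin n → G} {lam eta c β : ℝ} {J : Finset (Fin n)} {F : G → ℂ} (hn : 0 < n)
    (hc : 0 < c) (h1 : eta + lam ≤ β * c ^ 4 / 8) (h2 : Samp lam t) (h3 : β * n ≤ J.card)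
    (hF : B1 F) (h4 : Q 1 F ≤ eta) :
    ∑ j ∈ J, ‖𝔼 x, dd (t j) F x‖ ≤ J.card * (3 / 8 * c ^ 2) := by
  have hn' : (0 : ℝ) < n := by exact_mod_cast hn
  have hc2 : 0 < c ^ 2 := by positivity
  have a1 := (abs_le.1 (h2 0 F hF)).2
  rw [Finset.expect_eq_sum_div_card, Finset.card_univ, Fintype.card_fin, sub_le_iff_le_add,
    div_le_iff₀ hn'] at a1
  have a2 : ∑ j ∈ J, Q 0 (dd (t j) F) ≤ ∑ j, Q 0 (dd (t j) F) :=
    Finset.sum_le_sum_of_subset_of_nonneg J.subset_univ fun _ _ _ => Q_nonneg _ _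
  have a3 : c ^ 2 * ∑ j ∈ J, ‖𝔼 x, dd (t j) F x‖ ≤ ∑ j ∈ J, (c ^ 4 / 4 + Q 0 (dd (t j) F)) := by
    rw [Finset.mul_sum]
    refine Finset.sum_le_sum fun j _ => ?_
    rw [Q]
    nlinarith [sq_nonneg (‖𝔼 x, dd (t j) F x‖ - c ^ 2 / 2)]
  rw [Finset.sum_add_distrib, Finset.sum_const, nsmul_eq_mul] at a3
  have a4 : (lam + Q (0 + 1) F) * n ≤ β * c ^ 4 / 8 * n :=
    mul_le_mul_of_nonneg_right (by linarith) hn'.le
  have a5 := mul_le_mul_of_nonneg_right h3 (by positivity : 0 ≤ c ^ 4 / 8)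
  refine le_of_mul_le_mul_left ?_ hc2
  linarith

end Code

theorem code : CodeS := by
  intro G _ _ n t lam eta c β J φ ι _ f hn hc hβ _ _ h1 h2 h3 hφ hf h4 h5
  classical
  have hJ : (0 : ℝ) < J.card := lt_of_lt_of_le (by positivity) h3
  have e : ∀ j i i', 𝔼 x, dd (t j) (f i) x * conj (dd (t j) (f i') x) =
      𝔼 x, dd (t j) (fun x => f i x * conj (f i' x)) x := fun j i i' =>
    Finset.expect_congr rfl fun x _ => by
      simp only [dd, map_mul]
      ring
  have a1 : ∑ j ∈ J, (Fintype.card ι * c) ^ 2 ≤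
      ∑ i, ∑ i', ∑ j ∈ J, ‖𝔼 x, dd (t j) (fun x => f i x * conj (f i' x)) x‖ := by
    refine (Finset.sum_le_sum fun j hj =>
      Code.bessel (fun i => dd (t j) (f i)) (hφ j) hc.le fun i => h4 i j hj).trans (le_of_eq ?_)
    rw [Finset.sum_comm]
    exact Finset.sum_congr rfl fun i _ => by simp only [e]; exact Finset.sum_comm
  have a2 : ∀ i i', ∑ j ∈ J, ‖𝔼 x, dd (t j) (fun x => f i x * conj (f i' x)) x‖ ≤
      (if i = i' then (J.card : ℝ) else 0) + J.card * (3 / 8 * c ^ 2) := fun i i' => by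
    have hF := (hf i).mul (hf i').cj
    split_ifs with hi
    · refine le_add_of_le_of_nonneg ?_ (by positivity)
      simpa using Finset.sum_le_card_nsmul J _ 1 fun j _ =>
        norm_exp_le_of (s := Finset.univ) zero_le_one fun x _ => hF.dd (t j) x
    · rw [zero_add]
      exact Code.off hn hc h1 h2 h3 hF (h5 i i' hi)
  have a3 := a1.trans (Finset.sum_le_sum fun i _ => Finset.sum_le_sum fun i' _ => a2 i i')
  simp only [Finset.sum_add_distrib, Finset.sum_ite_eq, Finset.mem_univ, if_true, Finset.sum_const,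
    nsmul_eq_mul, Finset.card_univ] at a3
  by_contra hlt
  have b1 : 2 < (Fintype.card ι : ℝ) * c ^ 2 := not_le.1 hlt
  have b2 : (0 : ℝ) < Fintype.card ι := pos_of_mul_pos_left (two_pos.trans b1) (sq_nonneg c)
  nlinarith [mul_pos (mul_pos hJ b2) (sub_pos.2 b1), mul_pos hJ b2]

end Pool.Agent.MP_154433_an.T3S
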