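import Mathlib
import Pool.Agent.MP_154433_an.t3s.Basic

/-! Small nets for dual functions, by energy decrement. -/

set_option autoImplicit false
set_option linter.unusedVariables false

open MeasureTheory ProbabilityTheory Filter Topology Function
open scoped BigOperators ComplexConjugate InnerProductSpace

noncomputable section

namespace Pool.Agent.MP_154433_an.T3S

namespace Cov

lemma clip (z : ℂ) : ∃ w : ℂ, ‖w‖ ≤ 1 ∧ ∀ u : ℂ, ‖u‖ ≤ 1 → ‖u - w‖ ^ 2 ≤ ‖u - z‖ ^ 2 := by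
  rcases le_or_gt ‖z‖ 1 with h | h
  · exact ⟨z, h, fun _ _ => le_rfl⟩
  have h0 : (‖z‖ : ℂ) ≠ 0 := by exact_mod_cast (zero_lt_one.trans h).ne'
  obtain ⟨w, h1, e⟩ : ∃ w : ℂ, ‖w‖ = 1 ∧ z = ‖z‖ * w :=
    ⟨z / ‖z‖, by rw [norm_div, Complex.norm_real, norm_norm, div_self (zero_lt_one.trans h).ne'],
      (mul_div_cancel₀ z h0).symm⟩
  generalize ‖z‖ = r at h e
  refine ⟨w, h1.le, fun u hu => ?_⟩
  have a1 : ‖w‖ ^ 2 = 1 := by rw [h1, one_pow]
  have a2 : ‖u‖ ^ 2 ≤ 1 := pow_le_one₀ (norm_nonneg _) hu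
  rw [e]
  simp only [Complex.sq_norm, Complex.normSq_apply, Complex.sub_re, Complex.sub_im,
    Complex.re_ofReal_mul, Complex.im_ofReal_mul] at a1 a2 ⊢
  have a3 : 0 ≤ (r - 1) * (r + 1 - 2 * (u.re * w.re + u.im * w.im)) :=
    mul_nonneg (by linarith) (by nlinarith [sq_nonneg (u.re - w.re), sq_nonneg (u.im - w.im)])
  have a4 : r * w.re * (r * w.re) + r * w.im * (r * w.im) = r * r := by linear_combination r * r * a1
  nlinarith

lemma pt (d ψ : ℂ) (c : ℝ) (h : ‖ψ‖ ≤ 1) :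
    ‖d - c * ψ‖ ^ 2 ≤ ‖d‖ ^ 2 - 2 * c * (d * conj ψ).re + c ^ 2 := by
  have a : ‖ψ‖ ^ 2 ≤ 1 := pow_le_one₀ (norm_nonneg _) h
  simp only [Complex.sq_norm, Complex.normSq_apply, Complex.sub_re, Complex.sub_im,
    Complex.ofReal_re, Complex.ofReal_im, Complex.im_ofReal_mul, Complex.mul_re, Complex.conj_re,
    Complex.conj_im] at a ⊢
  nlinarith [mul_le_mul_of_nonneg_left a (sq_nonneg c)]

lemma phase (z : ℂ) : ∃ θ ∈ ({1, -1, Complex.I, -Complex.I} : Finset ℂ),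
    ‖z‖ ≤ 2 * (conj θ * z).re := by
  have := Complex.norm_le_abs_re_add_abs_im z
  simp only [Finset.mem_insert, Finset.mem_singleton, exists_eq_or_imp, exists_eq_left]
  simp only [map_one, map_neg, Complex.conj_I, Complex.mul_re, Complex.neg_re, Complex.neg_im,
    Complex.one_re, Complex.one_im, Complex.I_re, Complex.I_im]
  by_contra h
  simp only [not_or, not_le] at h
  rcases abs_cases z.re with a | a <;> rcases abs_cases z.im with b | b <;> linarith [h.1, h.2.1,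
    h.2.2.1, h.2.2.2, a.1, b.1]

variable {G : Type} [AddCommGroup G] [Fintype G]

omit [AddCommGroup G] in
lemma ip_left (c : ℂ) (d φ : G → ℂ) : ip (fun x => c * d x) φ = c * ip d φ := by
  simp only [ip, Finset.mul_expect, mul_assoc]

omit [AddCommGroup G] in
lemma ip_right (c : ℂ) (d φ : G → ℂ) : ip d (fun x => c * φ x) = conj c * ip d φ := by
  simp only [ip, Finset.mul_expect, map_mul, mul_left_comm]

omit [AddCommGroup G] in
lemma en (u v : G → ℂ) : 𝔼 x, ‖u x - v x‖ ^ 2 =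
    (ip (fun x => u x - v x) u).re + (ip (fun x => u x - v x) fun x => -v x).re := by
  simp only [ip, re_exp, ← Finset.expect_add_distrib]
  refine Finset.expect_congr rfl fun x _ => ?_
  rw [← Complex.add_re, ← mul_add, ← map_add, ← sub_eq_add_neg, Complex.mul_conj,
    Complex.ofReal_re, Complex.sq_norm]

lemma drop {u v ψ w : G → ℂ} {c : ℝ} (hc : 0 ≤ c) (hψ : B1 ψ)
    (h : c ≤ (ip (fun x => u x - v x) ψ).re)
    (hw : ∀ x, ‖u x - w x‖ ^ 2 ≤ ‖u x - (v x + c * ψ x)‖ ^ 2) :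
    𝔼 x, ‖u x - w x‖ ^ 2 ≤ (𝔼 x, ‖u x - v x‖ ^ 2) - c ^ 2 := by
  have a : 𝔼 x, ‖u x - w x‖ ^ 2 ≤
      𝔼 x, (‖u x - v x‖ ^ 2 - 2 * c * ((u x - v x) * conj (ψ x)).re + c ^ 2) :=
    Finset.expect_le_expect fun x _ => (hw x).trans (sub_sub (u x) _ _ ▸ pt _ _ c (hψ x))
  rw [Finset.expect_add_distrib, Finset.expect_sub_distrib, ← Finset.mul_expect, ← re_exp,
    Finset.expect_const Finset.univ_nonempty] at a
  have b := mul_le_mul_of_nonneg_left h hc
  simp only [ip] at b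
  nlinarith

end Cov

open Cov in
theorem cov (h : InvS) : CovS := by
  classical
  intro k A ε hA hε
  obtain ⟨c, C, hc, hC, h⟩ := h k ((ε ^ 2 / 4) ^ 2 ^ (k + 1) / A) (by positivity)
  obtain ⟨c₀, h0, h1, h2⟩ : ∃ c₀ : ℝ, 0 < c₀ ∧ c₀ ≤ c ∧ c₀ ≤ ε ^ 2 / 2 :=
    ⟨min c (ε ^ 2 / 2), by positivity, min_le_left _ _, min_le_right _ _⟩
  obtain ⟨n, hn⟩ := exists_nat_ge (1 / c₀ ^ 2)
  rw [div_le_iff₀ (by positivity)] at hn
  refine ⟨n * (C + 5), by positivity, fun G _ _ => ?_⟩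
  obtain ⟨F, f1, f2, f3⟩ := h G
  choose cl c1 c2 using clip
  let P : Finset (G → ℂ) := (({1, -1, Complex.I, -Complex.I} : Finset ℂ) ×ˢ F).image
    fun p x => p.1 * p.2 x
  have p1 : P.card ≤ 4 * F.card := Finset.card_image_le.trans (by
    rw [Finset.card_product]
    exact Nat.mul_le_mul_right _ Finset.card_le_four)
  have p2 : ∀ u v, Dual k A u → B1 v → ε ^ 2 < 𝔼 x, ‖u x - v x‖ ^ 2 →
      ∃ ψ ∈ insert (fun x => -v x) P, B1 ψ ∧ c₀ ≤ (ip (fun x => u x - v x) ψ).re := by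
    intro u v hu hv he
    rw [en] at he
    by_cases q : ε ^ 2 / 2 ≤ (ip (fun x => u x - v x) fun x => -v x).re
    · exact ⟨_, Finset.mem_insert_self _ _, fun x => (norm_neg _).trans_le (hv x), h2.trans q⟩
    have n2 : ‖(2⁻¹ : ℂ)‖ = 2⁻¹ := by simp
    have g : B1 fun x => (2⁻¹ : ℂ) * (u x - v x) := fun x => by
      rw [norm_mul, n2]
      linarith [norm_sub_le (u x) (v x), hu.1 x, hv x]
    have a := hu.2 _ g
    rw [ip_left, norm_mul, n2] at a
    obtain ⟨φ, hφ, b⟩ := f3 _ g ((div_le_iff₀' hA).2 ((pow_le_pow_left₀ (by positivity)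
      (by linarith [Complex.re_le_norm (ip (fun x => u x - v x) u)]) _).trans a))
    rw [ip_left, norm_mul, n2] at b
    obtain ⟨θ, t1, t2⟩ := phase (ip (fun x => u x - v x) φ)
    refine ⟨fun x => θ * φ x, Finset.mem_insert_of_mem (Finset.mem_image.2
      ⟨(θ, φ), Finset.mem_product.2 ⟨t1, hφ⟩, rfl⟩), B1.mul (fun _ => ?_) (f1 φ hφ), ?_⟩
    · simp only [Finset.mem_insert, Finset.mem_singleton] at t1
      rcases t1 with rfl | rfl | rfl | rfl <;> simp
    · rw [ip_right]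
      linarith
  have key : ∀ s : ℕ, ∃ N : Finset (G → ℂ), (∀ v ∈ N, B1 v) ∧ N.card ≤ (4 * F.card + 2) ^ s ∧
      ∀ u, Dual k A u → ∃ v ∈ N, 𝔼 x, ‖u x - v x‖ ^ 2 ≤ ε ^ 2 ∨
        𝔼 x, ‖u x - v x‖ ^ 2 ≤ 1 - s * c₀ ^ 2 := by
    intro s
    induction s with
    | zero =>
      refine ⟨{0}, fun v hv x => by simp [Finset.mem_singleton.1 hv], by simp, fun u hu =>
        ⟨0, Finset.mem_singleton_self _, Or.inr ?_⟩⟩
      rw [Nat.cast_zero, zero_mul, sub_zero]
      exact exp_le_of_le zero_le_one fun x _ => pow_le_one₀ (norm_nonneg _) (by simpa using hu.1 x)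
    | succ s ih =>
      obtain ⟨N, n1, n2, n3⟩ := ih
      refine ⟨N ∪ N.biUnion fun v => (insert (fun x => -v x) P).image
        fun ψ x => cl (v x + c₀ * ψ x), fun v hv => ?_, ?_, fun u hu => ?_⟩
      · rcases Finset.mem_union.1 hv with hv | hv
        · exact n1 v hv
        · obtain ⟨w, -, hw⟩ := Finset.mem_biUnion.1 hv
          obtain ⟨ψ, -, rfl⟩ := Finset.mem_image.1 hw
          exact fun x => c1 _
      · refine (Finset.card_union_le _ _).trans ((Nat.add_le_add_left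
          (Finset.card_biUnion_le_card_mul _ _ (4 * F.card + 1) fun v _ =>
            Finset.card_image_le.trans ((Finset.card_insert_le _ _).trans (by omega))) _).trans ?_)
        rw [pow_succ]
        nlinarith
      · obtain ⟨v, hv, a⟩ := n3 u hu
        rcases le_or_gt (𝔼 x, ‖u x - v x‖ ^ 2) (ε ^ 2) with b | b
        · exact ⟨v, Finset.mem_union_left _ hv, Or.inl b⟩
        obtain ⟨ψ, q1, q2, q3⟩ := p2 u v hu (n1 v hv) b
        refine ⟨_, Finset.mem_union_right _ (Finset.mem_biUnion.2 ⟨v, hv,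
          Finset.mem_image_of_mem _ q1⟩), Or.inr ((drop h0.le q2 q3 fun x => c2 _ _ (hu.1 x)).trans ?_)⟩
        push_cast
        linarith [a.resolve_left b.not_ge]
  obtain ⟨N, n1, n2, n3⟩ := key n
  refine ⟨N, n1, ?_, fun u hu => ?_⟩
  · have l : 1 ≤ LG G ^ k := one_le_pow₀ one_le_LG
    have e1 := Real.one_le_exp (show 0 ≤ C * LG G ^ k by positivity)
    have e2 := Real.add_one_le_exp (5 * LG G ^ k)
    rw [mul_assoc, Real.exp_nat_mul, add_mul, Real.exp_add]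
    refine le_trans (by exact_mod_cast n2) (pow_le_pow_left₀ (a := 4 * (F.card : ℝ) + 2)
      (by positivity) (by nlinarith) n)
  · obtain ⟨v, hv, a⟩ := n3 u hu
    refine ⟨v, hv, le_of_mul_le_mul_left ?_ (show 0 < 2 * ε by positivity)⟩
    have b : 𝔼 x, 2 * ε * ‖u x - v x‖ ≤ 𝔼 x, (‖u x - v x‖ ^ 2 + ε ^ 2) :=
      Finset.expect_le_expect fun x _ => by nlinarith [sq_nonneg (‖u x - v x‖ - ε)]
    rw [← Finset.mul_expect, Finset.expect_add_distrib,
      Finset.expect_const Finset.univ_nonempty] at b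
    rcases a with a | a <;> nlinarith [sq_nonneg ε]

end Pool.Agent.MP_154433_an.T3S

end
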