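import Mathlib
import Pool.Agent.MP_154433_an.t3s.Basic

/-! Windowed cube averages are dual functions. -/

set_option autoImplicit false
set_option linter.unusedVariables false

open MeasureTheory ProbabilityTheory Filter Topology Function
open scoped BigOperators ComplexConjugate InnerProductSpace

noncomputable section

namespace Pool.Agent.MP_154433_an.T3S

namespace DualL

lemma char_sum {A ι : Type} [AddCommMonoid A] (χ : AddChar A ℂ) (s : Finset ι) (f : ι → A) :
    χ (∑ i ∈ s, f i) = ∏ i ∈ s, χ (f i) := by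
  classical
  induction s using Finset.induction_on with
  | empty => simp
  | insert a s ha ih => rw [Finset.sum_insert ha, Finset.prod_insert ha, χ.map_add_eq_mul, ih]

lemma char_eq {k : ℕ} (hk : 1 ≤ k) {G : Type} [AddCommGroup G] (χ : AddChar (Fin (k + 1) → G) ℂ)
    (τ : Fin (k + 1) → G) : ∏ i, χ (Pi.single (i - 1) (update τ i 0 (i - 1))) = χ τ := by
  have h : ∀ i : Fin (k + 1), i - 1 ≠ i := fun i e => by
    rw [sub_eq_self, Fin.one_eq_zero_iff] at e
    omega
  simp only [update_of_ne (h _)]
  rw [← char_sum]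
  exact congrArg χ (((Equiv.subRight (1 : Fin (k + 1))).sum_comp
    fun j => (Pi.single j (τ j) : Fin (k + 1) → G)).trans (Finset.univ_sum_single τ))

end DualL

open DualL in
theorem dual (h1 : GcsS) (h2 : WinS) : DualS := by
  intro k hk G _ _ U _ _ a γ ha hγ
  refine ⟨fun x => norm_exp_le_of zero_le_one fun u _ => norm_exp_le_of zero_le_one fun u' _ =>
    norm_prod_le_one _ fun i _ => hγ _ _ _, fun g hg => ?_⟩
  let Φ : (Fin (k + 1) → G) → ℂ := fun τ => 𝔼 x, g x * ∏ i, conj (γ i (update τ i 0) (x + τ i))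
  let A : (Fin (k + 1) → U) → Fin (k + 1) → G := fun u j => a j (u j)
  have e : ip g (cub a γ) = 𝔼 u, 𝔼 u', Φ (A u' - A u) := by
    simp only [ip, cub, conj_exp, Finset.mul_expect, map_prod]
    rw [Finset.expect_comm]
    refine Finset.expect_congr rfl fun u _ => ?_
    rw [Finset.expect_comm]
    rfl
  obtain ⟨χ, -, hχ⟩ := Finset.exists_max_image Finset.univ
    (fun χ : AddChar (Fin (k + 1) → G) ℂ => ‖𝔼 t, Φ t * χ t‖) Finset.univ_nonempty
  have h3 := h2 _ _ A Φ _ (fun u u' h => funext fun j => ha j (congrFun h j))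
    fun χ' => hχ χ' (Finset.mem_univ _)
  have h4 := h1 k G g (fun i σ y => conj (γ i σ y) * χ (Pi.single (i - 1) (σ (i - 1))))
    fun i σ => (hγ i σ).cj.mul fun _ => B1_char χ _
  simp only [Finset.prod_mul_distrib, char_eq hk, ← mul_assoc] at h4
  rw [Finset.expect_comm] at h4
  simp only [← Finset.expect_mul] at h4
  rw [Fintype.card_fun, Fintype.card_fun, Fintype.card_fin, Nat.cast_pow, Nat.cast_pow,
    ← div_pow, ← e] at h3
  refine (pow_le_pow_left₀ (norm_nonneg _) h3 _).trans ?_
  rw [mul_pow]
  exact mul_le_mul_of_nonneg_left h4 (by positivity)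

end Pool.Agent.MP_154433_an.T3S

end
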