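import Pool.Agent.MP_154433_an.t3s.Basic
import Pool.Agent.MP_154433_an.Main

/-! From the vanishing of the weighted averages to the convergence of the averages. -/

set_option autoImplicit false
set_option linter.unusedVariables false

open MeasureTheory ProbabilityTheory Filter Topology Function Asymptotics
open scoped BigOperators ComplexConjugate InnerProductSpace

noncomputable section

namespace Pool.Agent.MP_154433_an.T3S

namespace End

variable {X : Type} [MeasurableSpace X] {μ : Measure X} [IsProbabilityMeasure μ]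

theorem core {ℓ : ℕ} {σ : ℕ → ℝ} (h0 : ∀ n, 0 ≤ σ n) (ha : Antitone σ)
    (hW : Tendsto (Wt σ) atTop atTop) (p : ℕ → Prop) (T : Fin ℓ → X ≃ᵐ X)
    (H1 : Tendsto (fun M => ∑ d ∈ Finset.range M, yw σ p M d) atTop (𝓝 0))
    (hT : ∀ i, MeasurePreserving (T i) μ μ) (hc : ∀ i j, Function.Commute (T i) (T j))
    (f : Fin ℓ → X → ℝ) (hm : ∀ i, Measurable (f i)) (hb : ∀ i x, |f i x| ≤ 1)
    (H2 : Tendsto (fun M => ∫ x, (∑ d ∈ Finset.range M, yw σ p M d *
      ∏ i, f i ((T i)^[d] x)) ^ 2 ∂μ) atTop (𝓝 0)) :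
    ∃ (F : ℕ → Lp ℝ 2 μ) (G : Lp ℝ 2 μ), (∀ k, F k =ᵐ[μ] fun x => ∏ i, f i ((T i)^[k] x)) ∧
      Tendsto (fun N : ℕ => (N : ℝ)⁻¹ • ∑ n ∈ Finset.range N, F (Nat.nth p n)) atTop (𝓝 G) ∧
      Tendsto (fun N : ℕ => (N : ℝ)⁻¹ • ∑ n ∈ Finset.Icc 1 N, F n) atTop (𝓝 G) := by
  let Φ : ℕ → X → ℝ := fun k x => ∏ i, f i ((T i)^[k] x)
  have hΦm : ∀ k, Measurable (Φ k) := fun k =>
    Finset.measurable_prod _ fun i _ => (hm i).comp ((T i).measurable.iterate k)
  have hΦb : ∀ k x, |Φ k x| ≤ 1 := fun k x => by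
    rw [Finset.abs_prod]
    exact Finset.prod_le_one (fun _ _ => abs_nonneg _) fun j _ => hb j _
  have hΦp : ∀ k, MemLp (Φ k) 2 μ := fun k =>
    MemLp.of_bound (hΦm k).aestronglyMeasurable 1 (Eventually.of_forall (hΦb k))
  let F : ℕ → Lp ℝ 2 μ := fun k => (hΦp k).toLp _
  have hF : ∀ k, F k =ᵐ[μ] Φ k := fun k => (hΦp k).coeFn_toLp
  have hFn : ∀ k, ‖F k‖ ≤ 1 := fun k => by
    have h1 : ‖F k‖ ^ 2 ≤ 1 := by
      rw [norm_sq_eq _ (hF k)]
      calc ∫ x, Φ k x ^ 2 ∂μ ≤ ∫ _, (1 : ℝ) ∂μ :=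
            integral_mono_of_nonneg (Eventually.of_forall fun x => sq_nonneg _)
              (integrable_const _) (Eventually.of_forall fun x => by
                have := hΦb k x
                show Φ k x ^ 2 ≤ 1
                rw [← sq_abs]; nlinarith [abs_nonneg (Φ k x)])
        _ = 1 := by simp
    nlinarith [norm_nonneg (F k)]
  have hcau : CauchySeq fun N : ℕ => (N : ℝ)⁻¹ • ∑ n ∈ Finset.range N, F n := by
    let _ : TopologicalSpace X := ⊥
    have : DiscreteTopology X := ⟨rfl⟩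
    rw [Metric.cauchySeq_iff]
    intro ε hε
    obtain ⟨N0, hN0⟩ := cauchy_aux μ T hT hc f hm hb (ε ^ 2 / 2) (by positivity)
    refine ⟨N0, fun N hN N' hN' => ?_⟩
    rw [dist_eq_norm]
    have h1 := hN0 N hN N' hN'
    rw [← norm_sq_eq ((N : ℝ)⁻¹ • ∑ n ∈ Finset.range N, F n -
      (N' : ℝ)⁻¹ • ∑ n ∈ Finset.range N', F n) (by
        filter_upwards [Lp.coeFn_sub ((N : ℝ)⁻¹ • ∑ n ∈ Finset.range N, F n)
          ((N' : ℝ)⁻¹ • ∑ n ∈ Finset.range N', F n),
          coe_avg (Finset.range N) (N : ℝ)⁻¹ id F Φ hF,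
          coe_avg (Finset.range N') (N' : ℝ)⁻¹ id F Φ hF] with x h1 h2 h3
        rw [h1, Pi.sub_apply]
        exact congrArg₂ _ h2 h3)] at h1
    refine lt_of_pow_lt_pow_left₀ 2 hε.le ?_
    have : 0 < ε ^ 2 := by positivity
    linarith
  obtain ⟨G, hG⟩ := cauchySeq_tendsto_of_complete hcau
  let _ : DecidablePred p := fun a => Classical.propDecidable _
  refine ⟨F, G, hF, tendsto_nth h0 ha hW p ?_ ?_ hG, tendsto_Icc hFn hG⟩
  · refine (isLittleO_iff_tendsto' ?_).2 ?_
    · filter_upwards [hW.eventually_gt_atTop 0] with M hM e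
      exact (hM.ne' e).elim
    · refine H1.congr fun M => ?_
      rw [Finset.sum_div]
      rfl
  · rw [isLittleO_iff]
    intro ε hε
    filter_upwards [H2.eventually (eventually_le_nhds (show (0 : ℝ) < ε ^ 2 by positivity)),
      hW.eventually_gt_atTop 0] with M hM1 hM3
    change ‖∑ k ∈ Finset.range M, (ind p k - σ k) • F k‖ ≤ ε * ‖Wt σ M‖
    rw [Real.norm_eq_abs, abs_of_pos hM3]
    refine le_of_pow_le_pow_left₀ two_ne_zero (by positivity) ?_
    rw [norm_sq_eq _ (coe_comb (Finset.range M) (fun k => ind p k - σ k) F Φ hF), mul_pow]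
    refine le_trans (le_of_eq ?_) (mul_le_mul_of_nonneg_right hM1 (sq_nonneg (Wt σ M)))
    rw [← integral_mul_const]
    refine integral_congr_ae (Eventually.of_forall fun x => ?_)
    beta_reduce
    rw [← mul_pow, Finset.sum_mul]
    congr 1
    refine Finset.sum_congr rfl fun k _ => ?_
    rw [yw]
    field_simp
    rfl

end End

theorem endr : EndS := by
  intro σ p h0 ha hW H1 ℓ k X _ μ _ T hT hV f hf
  let T' : Fin ℓ → X ≃ᵐ X := fun i =>
    { toEquiv := (T.toEquiv : Equiv.Perm X) ^ k i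
      measurable_toFun := Tz_meas T (k i)
      measurable_invFun := by
        have := Tz_meas T (-k i)
        rw [Tz, zpow_neg] at this
        exact this }
  have hit : ∀ i (n : ℕ) x, (T' i)^[n] x = ((T.toEquiv : Equiv.Perm X) ^ (k i * n)) x := by
    intro i n x
    rw [zpow_mul, zpow_natCast, Equiv.Perm.coe_pow]
    rfl
  have hT' : ∀ i, MeasurePreserving (T' i) μ μ := fun i => Tz_mp hT (k i)
  choose c f' hm hb he using fun i => exists_rep (hf i)
  have H2 := hV (fun i x => (f' i x : ℂ)) fun i => ⟨Complex.measurable_ofReal.comp (hm i),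
    fun x => by simpa using hb i x⟩
  obtain ⟨F, G, hF, h1, h2⟩ := End.core h0 ha hW p T' H1 hT' (fun i j x => congrArg
    (fun e : Equiv.Perm X => e x) (zpow_mul_comm (T.toEquiv : Equiv.Perm X) (k i) (k j))) f' hm hb
    (H2.congr fun M => integral_congr_ae (Eventually.of_forall fun x => by
      beta_reduce
      rw [← sq_abs (∑ _ ∈ _, _), ← Real.norm_eq_abs, ← Complex.norm_real]
      simp only [hit, wavg, Tz]
      push_cast
      rfl))
  have hk : ∀ᵐ x ∂μ, ∀ k, ∏ i, f i ((T' i)^[k] x) =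
      (∏ i, c i) * ∏ i, f' i ((T' i)^[k] x) := by
    have : ∀ᵐ x ∂μ, ∀ k i, f i ((T' i)^[k] x) = c i * f' i ((T' i)^[k] x) :=
      ae_all_iff.2 fun k => ae_all_iff.2 fun i =>
        ((hT' i).iterate k).quasiMeasurePreserving.ae_eq_comp (he i)
    filter_upwards [this] with x hx k
    simp only [hx, Finset.prod_mul_distrib]
  refine ⟨fun x => (∏ i, c i) * G x, (Lp.memLp G).const_mul _,
    tendsto_eLpNorm h1 _ fun N => ?_, tendsto_eLpNorm h2 _ fun N => ?_⟩
  · filter_upwards [hk, coe_avg (Finset.range N) (N : ℝ)⁻¹ (Nat.nth p) F _ hF] with x h3 h4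
    rw [h4]
    simp only [← hit, h3, ← Finset.mul_sum]
    ring
  · filter_upwards [hk, coe_avg (Finset.Icc 1 N) (N : ℝ)⁻¹ id F _ hF] with x h3 h4
    simp only [id] at h4
    rw [h4]
    simp only [← hit, h3, ← Finset.mul_sum]
    ring

end Pool.Agent.MP_154433_an.T3S

end
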