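import Pool.Agent.MP_154433_an.t3s.Basic

/-! Row Erg: weights that are ergodic. -/

set_option autoImplicit false

open Filter Topology
open scoped BigOperators InnerProductSpace

namespace Pool.Agent.MP_154433_an.T3S

theorem erg (h : VnS) : ErgS := by
  refine ⟨fun w hw ha E _ _ _ V v hv => ?_, fun w w' hw hm E _ _ _ V v hv => ?_⟩
  · have nV : ∀ (d : ℕ) (x : E), ‖(⇑V)^[d] x‖ = ‖x‖ := fun d x => by
      induction d with
      | zero => rfl
      | succ d ih => rw [Function.iterate_succ_apply', V.norm_map, ih]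
    have sV : ∀ (d : ℕ) (x y : E), (⇑V)^[d] (x - y) = (⇑V)^[d] x - (⇑V)^[d] y := fun d x y => by
      induction d with
      | zero => rfl
      | succ d ih => simp only [Function.iterate_succ_apply', ih, map_sub]
    let S : Submodule ℂ E := LinearMap.range (V.toLinearEquiv.toLinearMap - LinearMap.id)
    have hS : v ∈ S.topologicalClosure := by
      rw [← Submodule.orthogonal_orthogonal_eq_closure]
      refine (Submodule.mem_orthogonal _ _).2 fun z hz => hv z ?_
      have h1 : ⟪V z - z, z⟫_ℂ = 0 := (Submodule.mem_orthogonal _ _).1 hz _ ⟨z, rfl⟩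
      rw [inner_sub_left, sub_eq_zero] at h1
      refine eq_of_norm_le_re_inner_eq_norm_sq (𝕜 := ℂ) (V.norm_map z).le ?_
      rw [h1, inner_self_eq_norm_sq]
    rw [Metric.tendsto_atTop]
    intro ε hε
    obtain ⟨_, ⟨x, rfl⟩, hx⟩ := Metric.mem_closure_iff.1 hS (ε / 3) (by positivity)
    have x0 : 0 < ‖x‖ + 1 := by positivity
    refine eventually_atTop.1 ?_
    filter_upwards [hw.2, ha 1 (ε / 3 / (‖x‖ + 1)) (by positivity)] with M h1 h2
    have h3 := h2 E (fun d => (‖x‖ + 1)⁻¹ • (⇑V)^[d] x) fun d => by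
      rw [norm_smul, nV, norm_inv, Real.norm_of_nonneg x0.le, inv_mul_le_iff₀ x0]
      linarith
    simp only [← smul_sub, smul_comm (w M _) (‖x‖ + 1)⁻¹, ← Finset.smul_sum] at h3
    rw [norm_smul, norm_inv, Real.norm_of_nonneg x0.le, inv_mul_le_iff₀ x0,
      mul_div_cancel₀ _ x0.ne'] at h3
    have e : ∑ d ∈ Finset.range M, (w M d : ℂ) • (⇑V)^[d] v =
        ∑ d ∈ Finset.range M, w M d • (⇑V)^[d] (v - (V x - x)) +
          ∑ d ∈ Finset.range M, w M d • ((⇑V)^[d + 1] x - (⇑V)^[d] x) := by
      rw [← Finset.sum_add_distrib]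
      refine Finset.sum_congr rfl fun d _ => ?_
      rw [← smul_add, sV, sV, Function.iterate_succ_apply, sub_add_cancel, Complex.coe_smul]
    have h4 : ‖∑ d ∈ Finset.range M, w M d • (⇑V)^[d] (v - (V x - x))‖ ≤ ε / 3 := by
      refine (norm_sum_le _ _).trans ?_
      simp only [norm_smul, nV, Real.norm_of_nonneg (hw.1 M _), ← Finset.sum_mul, h1, one_mul]
      rw [dist_eq_norm] at hx
      exact hx.le
    rw [dist_zero_right, e]
    refine (norm_add_le _ _).trans_lt ?_
    linarith
  · have h1 : Tendsto (fun M => ∑ d ∈ Finset.range M, ((w M d - w' M d : ℝ) : ℂ) • (⇑V)^[d] v)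
        atTop (𝓝 0) := by
      rw [Metric.tendsto_atTop]
      intro ε hε
      have v0 : 0 < ‖v‖ + 1 := by positivity
      refine eventually_atTop.1 ?_
      filter_upwards [hm (ε / 2 / (‖v‖ + 1)) (by positivity), eventually_ge_atTop 1] with M a b
      rw [dist_zero_right]
      refine (h E V M _ _ v b a).trans_lt ?_
      rw [← mul_div_assoc, mul_div_cancel₀ _ two_ne_zero, div_mul_eq_mul_div, div_lt_iff₀ v0]
      nlinarith
    have := h1.add (hw E V v hv)
    rw [add_zero] at this
    refine this.congr fun M => ?_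
    rw [← Finset.sum_add_distrib]
    refine Finset.sum_congr rfl fun d _ => ?_
    rw [← add_smul, Complex.ofReal_sub, sub_add_cancel]

end Pool.Agent.MP_154433_an.T3S
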