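import Mathlib
import Pool.Agent.MP_154433_an.t3s.Basic

/-! The structured factor is an invariant sigma-algebra that contains the almost invariant sets. -/

set_option autoImplicit false
set_option linter.unusedVariables false

open MeasureTheory ProbabilityTheory Filter Topology Function
open scoped BigOperators ComplexConjugate InnerProductSpace

noncomputable section

namespace Pool.Agent.MP_154433_an.T3S

namespace Fac

variable {X : Type} [m0 : MeasurableSpace X] {μ : Measure X} {T : X ≃ᵐ X}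

lemma CX_map {k : ℕ} {b : Fin k → ℤ} {H0 : ℕ} (L : (X → ℂ) →ₗ[ℝ] (X → ℂ))
    (h : ∀ (H : ℕ) (β : Fin k → (Fin k → ℤ) → X → ℂ), (∀ i τ, MB1 (β i τ)) →
      ∃ β' : Fin k → (Fin k → ℤ) → X → ℂ, (∀ i τ, MB1 (β' i τ)) ∧
        L (blk (Tz T) b H β) = blk (Tz T) b H β')
    {u : X → ℂ} (hu : u ∈ CX T b H0) : L u ∈ CX T b H0 := by
  have hc : Convex ℝ (L ⁻¹' CX T b H0) := (convex_convexHull ℝ _).linear_preimage L
  refine convexHull_min ?_ hc hu
  rintro _ ⟨H, β, h1, h2, rfl⟩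
  obtain ⟨β', h3, h4⟩ := h H β h2
  exact subset_convexHull ℝ _ ⟨H, β', h1, h3, h4⟩

lemma DD_map {k : ℕ} {b : Fin k → ℤ} (L : (X → ℂ) →ₗ[ℝ] (X → ℂ))
    (h : ∀ (H : ℕ) (β : Fin k → (Fin k → ℤ) → X → ℂ), (∀ i τ, MB1 (β i τ)) →
      ∃ β' : Fin k → (Fin k → ℤ) → X → ℂ, (∀ i τ, MB1 (β' i τ)) ∧
        L (blk (Tz T) b H β) = blk (Tz T) b H β')
    (h1 : ∀ D, MB1 D → MB1 (L D))
    (h2 : ∀ D u, MB1 D → MB1 u → ∫ x, ‖L D x - L u x‖ ∂μ ≤ ∫ x, ‖D x - u x‖ ∂μ)
    {D : X → ℂ} (hD : D ∈ DD μ T b) : L D ∈ DD μ T b := by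
  refine ⟨h1 D hD.1, fun H0 ε hε => ?_⟩
  obtain ⟨u, hu, hε'⟩ := hD.2 H0 ε hε
  exact ⟨L u, CX_map L h hu, (h2 D u hD.1 (CX_MB1 hu)).trans hε'⟩

lemma DD_tz {k : ℕ} {b : Fin k → ℤ} (hT : MeasurePreserving T μ μ) (v : ℤ) {D : X → ℂ}
    (hD : D ∈ DD μ T b) : (fun x => D (Tz T v x)) ∈ DD μ T b := by
  refine DD_map (LinearMap.funLeft ℝ ℂ (Tz T v)) (fun H β hβ => ?_) (fun D hD => hD.tz T v)
    (fun D u hD hu => ?_) hD
  · refine ⟨fun i τ y => β i τ (Tz T v y), fun i τ => (hβ i τ).tz T v, ?_⟩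
    funext x
    simp only [LinearMap.funLeft_apply, blk, ← Tz_add, add_comm v]
  · exact (integral_Tz hT v (f := fun x => ‖D x - u x‖)
      (hD.1.sub hu.1).norm.aestronglyMeasurable).le

/-- pointwise conjugation -/
def cjL (X : Type) : (X → ℂ) →ₗ[ℝ] (X → ℂ) where
  toFun u := fun x => conj (u x)
  map_add' u w := by funext x; simp
  map_smul' c u := by funext x; simp

/-- pointwise multiplication by a constant -/
def mlL (X : Type) (c : ℂ) : (X → ℂ) →ₗ[ℝ] (X → ℂ) where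
  toFun u := fun x => c * u x
  map_add' u w := by funext x; simp [mul_add]
  map_smul' a u := by funext x; simp [mul_left_comm]

lemma DD_cj {k : ℕ} {b : Fin k → ℤ} {D : X → ℂ} (hD : D ∈ DD μ T b) :
    (fun x => conj (D x)) ∈ DD μ T b := by
  refine DD_map (cjL X) (fun H β hβ => ?_) (fun D hD => hD.cj) (fun D u hD hu => ?_) hD
  · refine ⟨fun i τ y => conj (β i τ y), fun i τ => (hβ i τ).cj, ?_⟩
    funext x
    change conj (blk (Tz T) b H β x) = _
    simp only [blk, conj_exp, map_prod]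
  · refine le_of_eq (integral_congr_ae (Eventually.of_forall fun x => ?_))
    change ‖conj (D x) - conj (u x)‖ = ‖D x - u x‖
    rw [← map_sub, RCLike.norm_conj]

lemma MB1_const {c : ℂ} (hc : ‖c‖ ≤ 1) : MB1 fun _ : X => c := ⟨measurable_const, fun _ => hc⟩

lemma DD_ml {k : ℕ} {b : Fin (k + 1) → ℤ} {c : ℂ} (hc : ‖c‖ = 1) {D : X → ℂ}
    (hD : D ∈ DD μ T b) : (fun x => c * D x) ∈ DD μ T b := by
  refine DD_map (mlL X c) (fun H β hβ => ?_) (fun D hD => (MB1_const hc.le).mul hD)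
    (fun D u hD hu => ?_) hD
  · refine ⟨fun i τ y => (if i = 0 then c else 1) * β i τ y, fun i τ => ?_, ?_⟩
    · refine (MB1_const ?_).mul (hβ i τ)
      split_ifs
      · exact hc.le
      · simp
    · funext x
      change c * blk (Tz T) b H β x = _
      simp only [blk, Finset.mul_expect, Finset.prod_mul_distrib, Finset.prod_ite_eq',
        Finset.mem_univ, if_true]
  · refine le_of_eq (integral_congr_ae (Eventually.of_forall fun x => ?_))
    change ‖c * D x - c * u x‖ = ‖D x - u x‖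
    rw [← mul_sub, norm_mul, hc, one_mul]

lemma DD_mid [IsFiniteMeasure μ] {k : ℕ} {b : Fin k → ℤ} {D E : X → ℂ} (hD : D ∈ DD μ T b)
    (hE : E ∈ DD μ T b) : (1 / 2 : ℝ) • D + (1 / 2 : ℝ) • E ∈ DD μ T b := by
  have h2 : (0 : ℝ) ≤ 1 / 2 := by norm_num
  have h1 : (1 / 2 : ℝ) + 1 / 2 = 1 := by norm_num
  refine ⟨MB1.convex hD.1 hE.1 h2 h2 h1, fun H0 ε hε => ?_⟩
  obtain ⟨u, hu, hu'⟩ := hD.2 H0 ε hε
  obtain ⟨w, hw, hw'⟩ := hE.2 H0 ε hε
  refine ⟨(1 / 2 : ℝ) • u + (1 / 2 : ℝ) • w, convex_convexHull ℝ _ hu hw h2 h2 h1, ?_⟩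
  have i1 : Integrable (fun x => ‖D x - u x‖) μ :=
    ((hD.1.integrable μ).sub ((CX_MB1 hu).integrable μ)).norm
  have i2 : Integrable (fun x => ‖E x - w x‖) μ :=
    ((hE.1.integrable μ).sub ((CX_MB1 hw).integrable μ)).norm
  calc _ ≤ ∫ x, ((1 / 2) * ‖D x - u x‖ + (1 / 2) * ‖E x - w x‖) ∂μ := by
        refine integral_mono_of_nonneg (Eventually.of_forall fun x => norm_nonneg _)
          ((i1.const_mul _).add (i2.const_mul _)) (Eventually.of_forall fun x => ?_)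
        have e : ((1 / 2 : ℝ) • D + (1 / 2 : ℝ) • E) x - ((1 / 2 : ℝ) • u + (1 / 2 : ℝ) • w) x =
            (1 / 2 : ℝ) • (D x - u x) + (1 / 2 : ℝ) • (E x - w x) := by
          simp only [Pi.add_apply, Pi.smul_apply, smul_sub]
          abel
        change ‖((1 / 2 : ℝ) • D + (1 / 2 : ℝ) • E) x -
          ((1 / 2 : ℝ) • u + (1 / 2 : ℝ) • w) x‖ ≤ _
        rw [e]
        refine (norm_add_le _ _).trans (le_of_eq ?_)
        simp only [norm_smul, Real.norm_eq_abs, abs_of_nonneg h2]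
    _ = (1 / 2) * ∫ x, ‖D x - u x‖ ∂μ + (1 / 2) * ∫ x, ‖E x - w x‖ ∂μ := by
        rw [integral_add (i1.const_mul _) (i2.const_mul _), integral_const_mul,
          integral_const_mul]
    _ ≤ ε := by linarith

lemma DD_re [IsFiniteMeasure μ] {k : ℕ} {b : Fin k → ℤ} {D : X → ℂ} (hD : D ∈ DD μ T b) :
    (fun x => (((D x).re : ℝ) : ℂ)) ∈ DD μ T b := by
  have e : (fun x => (((D x).re : ℝ) : ℂ)) =
      (1 / 2 : ℝ) • D + (1 / 2 : ℝ) • fun x => conj (D x) := by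
    funext x
    simp only [Pi.add_apply, Pi.smul_apply, Complex.real_smul]
    rw [← mul_add, Complex.add_conj]
    push_cast
    ring
  rw [e]
  exact DD_mid hD (DD_cj hD)

lemma DD_im [IsFiniteMeasure μ] {k : ℕ} {b : Fin (k + 1) → ℤ} {D : X → ℂ} (hD : D ∈ DD μ T b) :
    (fun x => (((D x).im : ℝ) : ℂ)) ∈ DD μ T b := by
  have h := DD_re (DD_ml (c := -Complex.I) (by simp) hD)
  simpa using h

lemma Gen_meas {l : ℕ} {φ : X → ℝ} (hφ : φ ∈ Gen μ T l) : Measurable φ := by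
  rcases hφ with ⟨b, -, h⟩ | h
  · have h1 := Complex.measurable_re.comp h.1.1
    simpa [Function.comp_def] using h1
  · exact h.1

lemma Gen_B0 {l : ℕ} {φ : X → ℝ} (hφ : φ ∈ Gen μ T l) : Measurable[B0 μ T l] φ :=
  measurable_iff_comap_le.2
    (le_iSup₂ (f := fun φ (_ : φ ∈ Gen μ T l) => MeasurableSpace.comap φ inferInstance) φ hφ)

lemma Gen_tz {l : ℕ} (hT : MeasurePreserving T μ μ) (v : ℤ) {φ : X → ℝ} (hφ : φ ∈ Gen μ T l) :
    (fun x => φ (Tz T v x)) ∈ Gen μ T l := by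
  rcases hφ with ⟨b, hb, h⟩ | ⟨h1, h2, h3⟩
  · exact Or.inl ⟨b, hb, DD_tz hT v h⟩
  · refine Or.inr ⟨h1.comp (Tz_meas T v), fun x => h2 _, ?_⟩
    have h4 := (Tz_mp hT v).quasiMeasurePreserving.ae_eq_comp h3
    refine Eventually.mono h4 fun x hx => ?_
    have e : Tz T v (T x) = T (Tz T v x) := by
      rw [← Tz_one, ← Tz_one, ← Tz_add, ← Tz_add, add_comm]
    change φ (Tz T v (T x)) = φ (Tz T v x)
    rw [e]
    exact hx

lemma B0_tz {l : ℕ} (hT : MeasurePreserving T μ μ) (v : ℤ) :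
    Measurable[B0 μ T l, B0 μ T l] (Tz T v) := by
  refine measurable_iff_comap_le.2 ?_
  conv_lhs => rw [B0]
  simp only [MeasurableSpace.comap_iSup, MeasurableSpace.comap_comp]
  exact iSup₂_le fun φ hφ => measurable_iff_comap_le.1 (Gen_B0 (Gen_tz hT v hφ))

end Fac

theorem fac : FacS := by
  intro l X m0 μ _ T hT
  refine ⟨⟨iSup₂_le fun φ hφ => measurable_iff_comap_le.1 (Fac.Gen_meas hφ), fun A hA => ?_,
    fun A hA => ?_, fun A hA hI => ?_⟩, fun b hb D hD => ?_⟩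
  · have e : Tz T 1 = T := funext (Tz_one T)
    rw [← e]
    exact Fac.B0_tz hT 1 hA
  · have e : Tz T (-1) = T.symm := funext (Tz_neg_one T)
    rw [← e]
    exact Fac.B0_tz hT (-1) hA
  · have hφ : A.indicator (fun _ => (1 : ℝ)) ∈ Gen μ T l := by
      refine Or.inr ⟨measurable_const.indicator hA, fun x => ?_, ?_⟩
      · by_cases hx : x ∈ A <;> simp [hx]
      · refine Eventually.mono (eventuallyEq_set.1 hI) fun x hx => ?_
        change A.indicator (fun _ => (1 : ℝ)) (T x) = A.indicator (fun _ => (1 : ℝ)) x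
        by_cases hxA : x ∈ A
        · have h1 : T x ∈ A := hx.2 hxA
          simp [hxA, h1]
        · have h1 : T x ∉ A := fun h => hxA (hx.1 h)
          simp [hxA, h1]
    have e : A = A.indicator (fun _ => (1 : ℝ)) ⁻¹' {1} := by
      ext x
      by_cases hx : x ∈ A <;> simp [hx]
    rw [e]
    exact Fac.Gen_B0 hφ (measurableSet_singleton 1)
  · have h1 : Measurable[B0 μ T l] fun x => (D x).re :=
      Fac.Gen_B0 (Or.inl ⟨b, hb, Fac.DD_re hD⟩)
    have h2 : Measurable[B0 μ T l] fun x => (D x).im :=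
      Fac.Gen_B0 (Or.inl ⟨b, hb, Fac.DD_im hD⟩)
    have e : D = fun x => (((D x).re : ℝ) : ℂ) + (((D x).im : ℝ) : ℂ) * Complex.I :=
      funext fun x => (Complex.re_add_im _).symm
    rw [e]
    let _ : MeasurableSpace X := B0 μ T l
    exact (Complex.measurable_ofReal.comp h1).add
      ((Complex.measurable_ofReal.comp h2).mul_const _)

end Pool.Agent.MP_154433_an.T3S

end
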