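import Mathlib
import Pool.Agent.MP_154433_an.t3s.Basic

/-! Fourier expansion of the lowest uniformity norms: sampling and the largest coefficient. -/

set_option autoImplicit false
set_option linter.unusedVariables false

open MeasureTheory ProbabilityTheory Filter Topology Function
open scoped BigOperators ComplexConjugate InnerProductSpace

noncomputable section

namespace Pool.Agent.MP_154433_an.T3S

namespace Four

variable {G : Type} [AddCommGroup G] [Fintype G]

/-- Fourier inversion -/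
lemma inv (F : G → ℂ) (x : G) : F x = ∑ χ : AddChar G ℂ, ip F χ * χ x := by
  classical
  have e : ∀ χ : AddChar G ℂ, ip F χ * χ x = 𝔼 y, F y * χ (x - y) := by
    intro χ
    rw [ip, Finset.expect_mul]
    refine Finset.expect_congr rfl fun y _ => ?_
    rw [sub_eq_add_neg, AddChar.map_add_eq_mul, AddChar.map_neg_eq_conj]
    ring
  simp only [e]
  rw [← Finset.expect_sum_comm]
  simp only [← Finset.mul_sum, AddChar.sum_apply_eq_ite, sub_eq_zero, mul_ite, mul_zero]
  rw [Fintype.expect_eq_sum_div_card, Finset.sum_ite_eq, if_pos (Finset.mem_univ _)]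
  have : (Fintype.card G : ℂ) ≠ 0 := Nat.cast_ne_zero.2 Fintype.card_ne_zero
  field_simp

/-- The squared size of a coefficient -/
def p (F : G → ℂ) (χ : AddChar G ℂ) : ℝ := ‖ip F χ‖ ^ 2

lemma p_nonneg (F : G → ℂ) (χ : AddChar G ℂ) : 0 ≤ p F χ := sq_nonneg _

lemma auto (F : G → ℂ) (h : G) : 𝔼 x, dd h F x = ∑ χ : AddChar G ℂ, (p F χ : ℂ) * χ h := by
  have e : ∀ x, dd h F x = ∑ χ : AddChar G ℂ, ip F χ * χ h * conj (F x * conj (χ x)) := by
    intro x
    rw [dd, inv F (x + h), Finset.sum_mul]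
    refine Finset.sum_congr rfl fun χ _ => ?_
    rw [AddChar.map_add_eq_mul, map_mul, RCLike.conj_conj]
    ring
  simp only [e]
  rw [Finset.expect_sum_comm]
  refine Finset.sum_congr rfl fun χ _ => ?_
  rw [← Finset.mul_expect, ← conj_exp]
  show ip F χ * χ h * conj (ip F χ) = _
  rw [p, mul_right_comm, Complex.mul_conj, Complex.normSq_eq_norm_sq]

lemma sum_le {F : G → ℂ} (hF : B1 F) : ∑ χ : AddChar G ℂ, p F χ ≤ 1 := by
  have h1 := auto F 0
  simp only [AddChar.map_zero_eq_one, mul_one] at h1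
  have h2 : ‖𝔼 x, dd 0 F x‖ ≤ 1 := norm_exp_le_of zero_le_one fun x _ => hF.dd 0 x
  rw [h1, ← Complex.ofReal_sum, Complex.norm_real, Real.norm_eq_abs] at h2
  exact (le_abs_self _).trans h2

lemma Q0 (F : G → ℂ) (h : G) : Q 0 (dd h F) =
    ∑ χ : AddChar G ℂ, ∑ χ' : AddChar G ℂ, p F χ * p F χ' * ((χ - χ') h).re := by
  rw [Q, auto, ← Complex.normSq_eq_norm_sq, ← Complex.ofReal_re (Complex.normSq _),
    ← Complex.mul_conj, map_sum, Finset.sum_mul_sum, Complex.re_sum]
  refine Finset.sum_congr rfl fun χ _ => ?_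
  rw [Complex.re_sum]
  refine Finset.sum_congr rfl fun χ' _ => ?_
  rw [AddChar.sub_apply, AddChar.map_neg_eq_conj, map_mul, Complex.conj_ofReal,
    ← Complex.re_ofReal_mul]
  congr 1
  push_cast
  ring

lemma avg {ι : Type} [Fintype ι] (F : G → ℂ) (t : ι → G) : 𝔼 j, Q 0 (dd (t j) F) =
    ∑ χ : AddChar G ℂ, ∑ χ' : AddChar G ℂ, p F χ * p F χ' * (𝔼 j, (χ - χ') (t j)).re := by
  simp only [Q0]
  rw [Finset.expect_sum_comm]
  refine Finset.sum_congr rfl fun χ _ => ?_
  rw [Finset.expect_sum_comm]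
  refine Finset.sum_congr rfl fun χ' _ => ?_
  rw [re_exp, Finset.mul_expect]

open Classical in
lemma Q1 (F : G → ℂ) : Q 1 F =
    ∑ χ : AddChar G ℂ, ∑ χ' : AddChar G ℂ, p F χ * p F χ' * if χ - χ' = 0 then 1 else 0 := by
  refine (avg F id).trans ?_
  refine Finset.sum_congr rfl fun χ _ => Finset.sum_congr rfl fun χ' _ => ?_
  simp only [id]
  rw [AddChar.expect_eq_ite]
  split_ifs <;> simp

lemma base {lam : ℝ} {n : ℕ} {t : Fin n → G} (hn : 0 < n) (hl : 0 ≤ lam)
    (ht : ∀ χ : AddChar G ℂ, χ ≠ 0 → |(𝔼 j, χ (t j)).re| ≤ lam) {F : G → ℂ} (hF : B1 F) :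
    |(𝔼 j, Q 0 (dd (t j) F)) - Q 1 F| ≤ lam := by
  classical
  have : Nonempty (Fin n) := ⟨⟨0, hn⟩⟩
  rw [avg, Q1, ← Finset.sum_sub_distrib]
  have h1 := sum_le hF
  have h0 : 0 ≤ ∑ χ : AddChar G ℂ, p F χ := Finset.sum_nonneg fun χ _ => p_nonneg F χ
  calc _ ≤ ∑ χ : AddChar G ℂ, ∑ χ' : AddChar G ℂ, p F χ * p F χ' * lam := by
        refine (Finset.abs_sum_le_sum_abs _ _).trans (Finset.sum_le_sum fun χ _ => ?_)
        rw [← Finset.sum_sub_distrib]
        refine (Finset.abs_sum_le_sum_abs _ _).trans (Finset.sum_le_sum fun χ' _ => ?_)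
        have hp := mul_nonneg (p_nonneg F χ) (p_nonneg F χ')
        rw [← mul_sub, abs_mul, abs_of_nonneg hp]
        refine mul_le_mul_of_nonneg_left ?_ hp
        split_ifs with c
        · simp [c, hl]
        · rw [sub_zero]
          exact ht _ c
    _ = (∑ χ : AddChar G ℂ, p F χ) * (∑ χ : AddChar G ℂ, p F χ) * lam := by
        rw [Finset.sum_mul_sum, Finset.sum_mul]
        simp only [Finset.sum_mul]
    _ ≤ lam := mul_le_of_le_one_left hl (mul_le_one₀ h1 h0 h1)

end Four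

theorem samp : SampS := by
  intro G _ _ lam n t hn hl ht k
  induction k with
  | zero => exact fun F hF => Four.base hn hl ht hF
  | succ k ih =>
    intro F hF
    have e : (𝔼 j, Q (k + 1) (dd (t j) F)) - Q (k + 1 + 1) F =
        𝔼 h, ((𝔼 j, Q k (dd (t j) (dd h F))) - Q (k + 1) (dd h F)) := by
      rw [Finset.expect_sub_distrib, ← Finset.expect_comm]
      congr 1
      refine Finset.expect_congr rfl fun j _ => ?_
      simp only [Q, dd_comm (t j)]
    rw [e]
    exact (Finset.abs_expect_le _ _).trans (exp_le_of_le hl fun h _ => ih _ (hF.dd h))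

theorem u2 : U2S := by
  classical
  intro G _ _ f hf
  obtain ⟨χ, -, hχ⟩ := Finset.exists_max_image Finset.univ (Four.p f) Finset.univ_nonempty
  refine ⟨χ, ?_⟩
  rw [Four.Q1]
  simp only [sub_eq_zero, mul_ite, mul_one, mul_zero, Finset.sum_ite_eq, Finset.mem_univ, if_true]
  calc _ ≤ ∑ ψ : AddChar G ℂ, Four.p f ψ * Four.p f χ := Finset.sum_le_sum fun ψ _ =>
        mul_le_mul_of_nonneg_left (hχ ψ (Finset.mem_univ _)) (Four.p_nonneg f ψ)
    _ = (∑ ψ : AddChar G ℂ, Four.p f ψ) * Four.p f χ := (Finset.sum_mul _ _ _).symm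
    _ ≤ _ := mul_le_of_le_one_left (Four.p_nonneg f χ) (Four.sum_le hf)

end Pool.Agent.MP_154433_an.T3S
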