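import Mathlib
import Pool.Agent.MP_154433_an.t3s.Basic

/-! The Cauchy-Schwarz inequality for the uniformity norms. -/

set_option autoImplicit false
set_option linter.unusedVariables false

open MeasureTheory ProbabilityTheory Filter Topology Function
open scoped BigOperators ComplexConjugate InnerProductSpace

noncomputable section

namespace Pool.Agent.MP_154433_an.T3S

namespace Gcs

lemma pow_exp_le {ι : Type} [Fintype ι] [Nonempty ι] (a : ι → ℝ) (ha : ∀ i, 0 ≤ a i) (n : ℕ) :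
    (𝔼 i, a i) ^ n ≤ 𝔼 i, a i ^ n := by
  have hc : (0 : ℝ) < Fintype.card ι := by exact_mod_cast Fintype.card_pos
  have h := Real.pow_arith_mean_le_arith_mean_pow Finset.univ
    (fun _ : ι => (Fintype.card ι : ℝ)⁻¹) a (fun _ _ => by positivity)
    (by simp [hc.ne']) (fun i _ => ha i) n
  simp only [← Finset.mul_sum] at h
  simpa only [Finset.expect_eq_sum_div_card, Finset.card_univ, div_eq_inv_mul] using h

variable {G : Type} [AddCommGroup G] [Fintype G]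

omit [AddCommGroup G] in
lemma exp_cons {k : ℕ} (F : (Fin (k + 1) → G) → ℂ) :
    𝔼 τ, F τ = 𝔼 s : G, 𝔼 τ : Fin k → G, F (Fin.cons s τ) := by
  rw [← Finset.expect_product', Finset.univ_product_univ]
  exact (Fintype.expect_equiv (Fin.consEquiv fun _ => G) _ _ fun p => rfl).symm

lemma exp_add (F : G → ℂ) (a : G) : 𝔼 s, F s = 𝔼 s, F (a + s) :=
  (Fintype.expect_equiv (Equiv.addLeft a) _ _ fun p => rfl).symm

lemma exp_sub (F : G → ℂ) (a : G) : 𝔼 s, F s = 𝔼 s, F (s - a) :=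
  (Fintype.expect_equiv (Equiv.subRight a) _ _ fun p => rfl).symm

/-- the multilinear form -/
def L {k : ℕ} (g : G → ℂ) (γ : Fin k → (Fin k → G) → G → ℂ) : ℂ :=
  𝔼 x : G, 𝔼 τ : Fin k → G, g x * ∏ i, γ i (update τ i 0) (x + τ i)

/-- the factors with positive index -/
def P {k : ℕ} (γ : Fin (k + 1) → (Fin (k + 1) → G) → G → ℂ) (s : G) (τ : Fin k → G) (x : G) : ℂ :=
  ∏ j, γ j.succ (Fin.cons s (update τ j 0)) (x + τ j)

/-- the inner average -/
def F {k : ℕ} (g : G → ℂ) (γ : Fin (k + 1) → (Fin (k + 1) → G) → G → ℂ) (τ : Fin k → G) (y : G) :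
    ℂ := 𝔼 x, g x * P γ (y - x) τ x

/-- the new factors -/
def nx {k : ℕ} (γ : Fin (k + 1) → (Fin (k + 1) → G) → G → ℂ) (h s : G) :
    Fin k → (Fin k → G) → G → ℂ := fun j τ z =>
  γ j.succ (Fin.cons (s - h) τ) (z + h) * conj (γ j.succ (Fin.cons s τ) z)

lemma L_eq {k : ℕ} (g : G → ℂ) (γ : Fin (k + 1) → (Fin (k + 1) → G) → G → ℂ) :
    L g γ = 𝔼 τ : Fin k → G, 𝔼 y : G, γ 0 (Fin.cons 0 τ) y * F g γ τ y := by
  have e1 : ∀ x : G, (𝔼 τ : Fin (k + 1) → G, g x * ∏ i, γ i (update τ i 0) (x + τ i)) =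
      𝔼 τ : Fin k → G, 𝔼 y : G, γ 0 (Fin.cons 0 τ) y * (g x * P γ (y - x) τ x) := by
    intro x
    rw [exp_cons, Finset.expect_comm]
    refine Finset.expect_congr rfl fun τ _ => ?_
    rw [exp_sub _ x]
    refine Finset.expect_congr rfl fun y _ => ?_
    rw [Fin.prod_univ_succ]
    simp only [Fin.update_cons_zero, Fin.cons_zero, Fin.cons_succ, ← Fin.cons_update,
      add_sub_cancel, P]
    ring
  simp only [L, e1, F, Finset.mul_expect]
  rw [Finset.expect_comm]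
  refine Finset.expect_congr rfl fun τ _ => ?_
  rw [Finset.expect_comm]

lemma F_sq {k : ℕ} (g : G → ℂ) (γ : Fin (k + 1) → (Fin (k + 1) → G) → G → ℂ) :
    (𝔼 τ : Fin k → G, 𝔼 y : G, F g γ τ y * conj (F g γ τ y)) =
      𝔼 h : G, 𝔼 s : G, L (dd h g) (nx γ h s) := by
  have e1 : ∀ (τ : Fin k → G) (y : G), F g γ τ y * conj (F g γ τ y) =
      𝔼 x : G, 𝔼 h : G, dd h g x * (P γ (y - x - h) τ (x + h) * conj (P γ (y - x) τ x)) := by
    intro τ y
    rw [F, conj_exp, Finset.mul_expect]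
    refine Finset.expect_congr rfl fun x _ => ?_
    rw [Finset.expect_mul, exp_add _ x]
    refine Finset.expect_congr rfl fun h _ => ?_
    simp only [dd, map_mul, sub_sub]
    ring
  have e2 : ∀ (τ : Fin k → G) (x h s : G), P γ (s - h) τ (x + h) * conj (P γ s τ x) =
      ∏ j, nx γ h s j (update τ j 0) (x + τ j) := by
    intro τ x h s
    simp only [P, nx, map_prod, ← Finset.prod_mul_distrib, add_right_comm x h]
  have e3 : ∀ τ : Fin k → G, (𝔼 y : G, F g γ τ y * conj (F g γ τ y)) =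
      𝔼 h : G, 𝔼 s : G, 𝔼 x : G, dd h g x * ∏ j, nx γ h s j (update τ j 0) (x + τ j) := by
    intro τ
    simp only [e1]
    calc _ = 𝔼 x : G, 𝔼 y : G, 𝔼 h : G,
          dd h g x * (P γ (y - x - h) τ (x + h) * conj (P γ (y - x) τ x)) :=
          Finset.expect_comm _ _ _
      _ = 𝔼 x : G, 𝔼 s : G, 𝔼 h : G, dd h g x * ∏ j, nx γ h s j (update τ j 0) (x + τ j) := by
          refine Finset.expect_congr rfl fun x _ => ?_
          rw [exp_add _ x]
          refine Finset.expect_congr rfl fun s _ => Finset.expect_congr rfl fun h _ => ?_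
          rw [add_sub_cancel_left, e2]
      _ = 𝔼 s : G, 𝔼 x : G, 𝔼 h : G, dd h g x * ∏ j, nx γ h s j (update τ j 0) (x + τ j) :=
          Finset.expect_comm _ _ _
      _ = 𝔼 s : G, 𝔼 h : G, 𝔼 x : G, dd h g x * ∏ j, nx γ h s j (update τ j 0) (x + τ j) :=
          Finset.expect_congr rfl fun s _ => Finset.expect_comm _ _ _
      _ = _ := Finset.expect_comm _ _ _
  simp only [e3, L]
  rw [Finset.expect_comm]
  refine Finset.expect_congr rfl fun h _ => ?_
  rw [Finset.expect_comm]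
  refine Finset.expect_congr rfl fun s _ => ?_
  rw [Finset.expect_comm]

lemma step {k : ℕ} (g : G → ℂ) (γ : Fin (k + 1) → (Fin (k + 1) → G) → G → ℂ)
    (hγ : ∀ i τ, B1 (γ i τ)) : ‖L g γ‖ ^ 2 ≤ 𝔼 h : G, 𝔼 s : G, ‖L (dd h g) (nx γ h s)‖ := by
  have h1 : ‖L g γ‖ ≤ 𝔼 τ : Fin k → G, 𝔼 y : G, ‖F g γ τ y‖ := by
    rw [L_eq]
    refine (norm_exp_le _ _).trans (Finset.expect_le_expect fun τ _ => ?_)
    refine (norm_exp_le _ _).trans (Finset.expect_le_expect fun y _ => ?_)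
    rw [norm_mul]
    exact mul_le_of_le_one_left (norm_nonneg _) (hγ _ _ _)
  have h2 : (𝔼 τ : Fin k → G, 𝔼 y : G, ‖F g γ τ y‖) ^ 2 ≤
      𝔼 τ : Fin k → G, 𝔼 y : G, ‖F g γ τ y‖ ^ 2 :=
    (pow_exp_le _ (fun τ => Finset.expect_nonneg fun _ _ => norm_nonneg _) 2).trans
      (Finset.expect_le_expect fun τ _ => pow_exp_le _ (fun _ => norm_nonneg _) 2)
  have h3 : (𝔼 τ : Fin k → G, 𝔼 y : G, ‖F g γ τ y‖ ^ 2) =
      (𝔼 h : G, 𝔼 s : G, L (dd h g) (nx γ h s)).re := by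
    rw [← F_sq]
    simp only [re_exp, Complex.mul_conj, Complex.ofReal_re, Complex.normSq_eq_norm_sq]
  refine (pow_le_pow_left₀ (norm_nonneg _) h1 2).trans (h2.trans ?_)
  rw [h3]
  refine (Complex.re_le_norm _).trans ((norm_exp_le _ _).trans ?_)
  exact Finset.expect_le_expect fun h _ => norm_exp_le _ _

omit [Fintype G] in
lemma nx_B1 {k : ℕ} {γ : Fin (k + 1) → (Fin (k + 1) → G) → G → ℂ} (hγ : ∀ i τ, B1 (γ i τ))
    (h s : G) (j : Fin k) (τ : Fin k → G) : B1 (nx γ h s j τ) :=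
  ((hγ _ _).comp _).mul (hγ _ _).cj

lemma base (g : G → ℂ) (γ : Fin 1 → (Fin 1 → G) → G → ℂ) (hγ : ∀ i τ, B1 (γ i τ)) :
    ‖L g γ‖ ≤ ‖𝔼 x, g x‖ := by
  rw [L_eq]
  refine norm_exp_le_of (norm_nonneg _) fun τ _ => norm_exp_le_of (norm_nonneg _) fun y _ => ?_
  have e : F g γ τ y = 𝔼 x, g x := by simp [F, P]
  rw [norm_mul, e]
  exact mul_le_of_le_one_left (norm_nonneg _) (hγ _ _ _)

lemma main (k : ℕ) (g : G → ℂ) (γ : Fin (k + 1) → (Fin (k + 1) → G) → G → ℂ)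
    (hγ : ∀ i τ, B1 (γ i τ)) : ‖L g γ‖ ^ 2 ^ (k + 1) ≤ Q k g := by
  induction k generalizing g with
  | zero =>
    have e : 2 ^ (0 + 1) = 2 := by norm_num
    rw [e]
    exact pow_le_pow_left₀ (norm_nonneg _) (base g γ hγ) 2
  | succ k ih =>
    rw [pow_succ' 2 (k + 1), pow_mul]
    refine (pow_le_pow_left₀ (sq_nonneg _) (step g γ hγ) _).trans ?_
    refine (pow_exp_le _ (fun h => Finset.expect_nonneg fun _ _ => norm_nonneg _) _).trans ?_
    refine Finset.expect_le_expect fun h _ => ?_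
    refine (pow_exp_le _ (fun _ => norm_nonneg _) _).trans ?_
    exact exp_le_of_le (Q_nonneg _ _) fun s _ => ih _ _ (nx_B1 hγ h s)

end Gcs

theorem gcs : GcsS := fun k G _ _ g γ hγ => Gcs.main k g γ hγ

end Pool.Agent.MP_154433_an.T3S

end
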