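import Mathlib
import Pool.Agent.MP_154433_an.t3s.Basic

/-! The generalized von Neumann inequality for weighted multiple averages. -/

set_option autoImplicit false
set_option linter.unusedVariables false

open MeasureTheory ProbabilityTheory Filter Topology Function
open scoped BigOperators ComplexConjugate InnerProductSpace

noncomputable section

namespace Pool.Agent.MP_154433_an.T3S

namespace Gvn

lemma pow_exp_le {ι : Type} [Fintype ι] [Nonempty ι] (s : ι → ℝ) (hs : ∀ i, 0 ≤ s i) (m : ℕ) :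
    (𝔼 i, s i) ^ m ≤ 𝔼 i, s i ^ m := by
  have hc : (0 : ℝ) < Fintype.card ι := by exact_mod_cast Fintype.card_pos
  have h := Real.pow_arith_mean_le_arith_mean_pow Finset.univ (fun _ : ι => (Fintype.card ι : ℝ)⁻¹)
    s (fun _ _ => by positivity) (by simp [hc.ne']) (fun i _ => hs i) m
  simp only [Finset.expect_eq_sum_div_card, Finset.card_univ, div_eq_inv_mul, Finset.mul_sum]
  exact h

lemma add_pow_le {a e : ℝ} (ha : 0 ≤ a) (ha1 : a ≤ 1) (he : 0 ≤ e) (he1 : e ≤ 1) (m : ℕ) :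
    (a + e) ^ m ≤ a ^ m + e * (m * 2 ^ (m - 1)) := by
  have h := abs_pow_sub_pow_le (a := a + e) (b := a) (n := m)
  have h1 : max |a + e| |a| ≤ 2 := by
    rw [abs_of_nonneg ha, abs_of_nonneg (add_nonneg ha he)]
    exact max_le (by linarith) (by linarith)
  have h2 : max |a + e| |a| ^ (m - 1) ≤ 2 ^ (m - 1) :=
    pow_le_pow_left₀ (le_max_of_le_left (abs_nonneg _)) h1 _
  rw [add_sub_cancel_left, abs_of_nonneg he] at h
  have h3 : e * m * max |a + e| |a| ^ (m - 1) ≤ e * m * 2 ^ (m - 1) :=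
    mul_le_mul_of_nonneg_left h2 (by positivity)
  have h4 := le_abs_self ((a + e) ^ m - a ^ m)
  linarith

variable {X : Type} [MeasurableSpace X] {μ : Measure X} [IsProbabilityMeasure μ] {T : X ≃ᵐ X}

/-- the differenced functions -/
def FF {ι : Type} (T : X ≃ᵐ X) (r : ι → ℤ) (f : ι → X → ℂ) (h h' : ℕ) (i : ι) (y : X) : ℂ :=
  f i (Tz T (r i * h') y) * conj (f i (Tz T (r i * h) y))

lemma FF_MB1 {ι : Type} (r : ι → ℤ) {f : ι → X → ℂ} (hf : ∀ i, MB1 (f i)) (h h' : ℕ) (i : ι) :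
    MB1 (FF T r f h h' i) := ((hf i).tz T _).mul ((hf i).tz T _).cj

lemma FF_eq {ι : Type} (r : ι → ℤ) (f : ι → X → ℂ) (h h' : ℕ) (i : ι) :
    FF T r f h h' i = fun x => ddX T (r i * ((h' : ℤ) - (h : ℤ))) (f i) (Tz T (r i * h) x) := by
  funext x
  simp only [FF, ddX, ← Tz_add]
  congr 3
  ring

lemma wavg_MB1 {ι : Type} [Fintype ι] {w : ℕ → ℕ → ℝ} (hw : ∀ M d, 0 ≤ w M d) {M : ℕ}
    (h1 : ∑ d ∈ Finset.range M, w M d = 1) (r : ι → ℤ) {f : ι → X → ℂ} (hf : ∀ i, MB1 (f i)) :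
    MB1 (wavg T w r f M) := by
  refine ⟨wavg_meas T w r (fun i => (hf i).1) M, fun x => ?_⟩
  refine (wavg_norm_le T w r (fun i => (hf i).2) M x).trans (le_of_eq ?_)
  rw [← h1]
  exact Finset.sum_congr rfl fun d _ => abs_of_nonneg (hw M d)

lemma int_sq {g : X → ℂ} (hg : MB1 g) : Integrable (fun x => ‖g x‖ ^ 2) μ :=
  Integrable.of_bound (hg.1.norm.pow_const 2).aestronglyMeasurable 1
    (Eventually.of_forall fun x => by
      rw [Real.norm_eq_abs, abs_of_nonneg (sq_nonneg _)]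
      exact pow_le_one₀ (norm_nonneg _) (hg.2 x))

lemma sq_le_one {g : X → ℂ} (hg : MB1 g) : ∫ x, ‖g x‖ ^ 2 ∂μ ≤ 1 := by
  have h := integral_mono (int_sq (μ := μ) hg) (integrable_const (1 : ℝ))
    (fun x => pow_le_one₀ (norm_nonneg _) (hg.2 x))
  simpa using h

lemma cs {g : X → ℂ} (hg : MB1 g) : (∫ x, ‖g x‖ ∂μ) ^ 2 ≤ ∫ x, ‖g x‖ ^ 2 ∂μ := by
  set a := ∫ x, ‖g x‖ ∂μ with ha
  have i1 : Integrable (fun x => ‖g x‖) μ := (hg.integrable μ).norm
  have h : ∫ x, (2 * a * ‖g x‖ - a ^ 2) ∂μ ≤ ∫ x, ‖g x‖ ^ 2 ∂μ :=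
    integral_mono ((i1.const_mul _).sub (integrable_const _)) (int_sq hg) fun x => by
      have := sq_nonneg (‖g x‖ - a)
      simp only
      nlinarith
  rw [integral_sub (i1.const_mul _) (integrable_const _), integral_const_mul, ← ha] at h
  simp only [integral_const, probReal_univ, smul_eq_mul, one_mul] at h
  nlinarith

lemma int_wavg {ι : Type} [Fintype ι] (w : ℕ → ℕ → ℝ) (M : ℕ) (r : ι → ℤ) {f : ι → X → ℂ}
    (hf : ∀ i, MB1 (f i)) : ∫ x, wavg T w r f M x ∂μ =
      ∑ d ∈ Finset.range M, (w M d : ℂ) * ∫ x, ∏ i, f i (Tz T (r i * d) x) ∂μ := by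
  simp only [wavg]
  rw [integral_finsetSum _ fun d _ =>
    ((MB1.prod _ fun i _ => (hf i).tz T _).integrable μ).const_mul _]
  exact Finset.sum_congr rfl fun d _ => integral_const_mul _ _

/-- the van der Corput inequality, integrated -/
lemma step (hv : VdcS) {w : ℕ → ℕ → ℝ} (hw : PW w) (ha : AsInv w) {H : ℕ} (hH : 1 ≤ H)
    {ι : Type} [Fintype ι] (r : ι → ℤ) {f : ι → X → ℂ} (hf : ∀ i, MB1 (f i)) {η : ℝ}
    (hη : 0 < η) : ∀ᶠ M in atTop, ∫ x, ‖wavg T w r f M x‖ ^ 2 ∂μ ≤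
      (𝔼 h : Fin H, 𝔼 h' : Fin H, (∫ x, wavg T w r (FF T r f h h') M x ∂μ).re) + η := by
  filter_upwards [hv w hw ha H hH η hη, hw.2] with M hM h1
  have iF : ∀ h h' : Fin H, Integrable (wavg T w r (FF T r f h h') M) μ := fun h h' =>
    (wavg_MB1 hw.1 h1 r (FF_MB1 r hf h h')).integrable μ
  have mE : MB1 fun x => 𝔼 h : Fin H, 𝔼 h' : Fin H, wavg T w r (FF T r f h h') M x :=
    ⟨meas_exp _ fun h _ => meas_exp _ fun h' _ => (wavg_MB1 hw.1 h1 r (FF_MB1 r hf h h')).1,
      fun x => norm_exp_le_of zero_le_one fun h _ => norm_exp_le_of zero_le_one fun h' _ =>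
        (wavg_MB1 hw.1 h1 r (FF_MB1 r hf h h')).2 x⟩
  have mE' : ∀ h : Fin H, MB1 fun x => 𝔼 h' : Fin H, wavg T w r (FF T r f h h') M x := fun h =>
    ⟨meas_exp _ fun h' _ => (wavg_MB1 hw.1 h1 r (FF_MB1 r hf h h')).1,
      fun x => norm_exp_le_of zero_le_one fun h' _ =>
        (wavg_MB1 hw.1 h1 r (FF_MB1 r hf h h')).2 x⟩
  have key : ∀ x, ‖wavg T w r f M x‖ ^ 2 ≤
      (𝔼 h : Fin H, 𝔼 h' : Fin H, wavg T w r (FF T r f h h') M x).re + η := by
    intro x
    have h2 := hM (fun d => ∏ i, f i (Tz T (r i * d) x))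
      (fun d => norm_prod_le_one _ fun i _ => (hf i).2 _)
    refine h2.trans (le_of_eq ?_)
    congr 2
    refine Finset.expect_congr rfl fun h _ => Finset.expect_congr rfl fun h' _ => ?_
    refine Finset.sum_congr rfl fun d _ => ?_
    congr 1
    rw [map_prod, ← Finset.prod_mul_distrib]
    refine Finset.prod_congr rfl fun i _ => ?_
    simp only [FF, ← Tz_add]
    congr 3
    · push_cast
      ring
    · push_cast
      ring_nf
  have iR : Integrable (fun x =>
      (𝔼 h : Fin H, 𝔼 h' : Fin H, wavg T w r (FF T r f h h') M x).re) μ := (mE.integrable μ).re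
  refine (integral_mono (int_sq (wavg_MB1 hw.1 h1 r hf)) (iR.add (integrable_const η)) key).trans
    (le_of_eq ?_)
  simp only [Pi.add_apply]
  rw [integral_add iR (integrable_const η)]
  congr 1
  · have e := integral_re (𝕜 := ℂ) (mE.integrable μ)
    simp only [RCLike.re_to_complex] at e
    rw [e, integral_exp _ fun h _ => (mE' h).integrable μ, re_exp]
    refine Finset.expect_congr rfl fun h _ => ?_
    rw [integral_exp _ fun h' _ => iF h h', re_exp]
  · simp

/-- removing the slot one -/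
lemma drop (hT : MeasurePreserving T μ μ) {w : ℕ → ℕ → ℝ} (hw : ∀ M d, 0 ≤ w M d) {M : ℕ}
    (h1 : ∑ d ∈ Finset.range M, w M d = 1) {l : ℕ} (r : Fin (l + 2) → ℤ)
    {F : Fin (l + 2) → X → ℂ} (hF : ∀ i, MB1 (F i)) :
    (∫ x, wavg T w r F M x ∂μ).re ≤ √(∫ x, ‖wavg T w
      (fun j : Fin (l + 1) => r ((1 : Fin (l + 2)).succAbove j) - r 1)
      (fun j => F ((1 : Fin (l + 2)).succAbove j)) M x‖ ^ 2 ∂μ) := by
  set r' : Fin (l + 1) → ℤ := fun j => r ((1 : Fin (l + 2)).succAbove j) - r 1 with hr'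
  set F' : Fin (l + 1) → X → ℂ := fun j => F ((1 : Fin (l + 2)).succAbove j) with hF'
  have mF' : ∀ j, MB1 (F' j) := fun j => hF _
  have mW := wavg_MB1 (T := T) hw h1 r' mF'
  have e : ∫ x, wavg T w r F M x ∂μ = ∫ x, F 1 x * wavg T w r' F' M x ∂μ := by
    rw [int_wavg w M r hF]
    simp only [wavg, Finset.mul_sum]
    rw [integral_finsetSum _ fun d _ => ?_]
    · refine Finset.sum_congr rfl fun d _ => ?_
      rw [← integral_Tz hT (-(r 1 * d)) (MB1.prod _ fun i _ => (hF i).tz T _).1.aestronglyMeasurable,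
        ← integral_const_mul]
      refine integral_congr_ae (Eventually.of_forall fun x => ?_)
      simp only [← Tz_add]
      rw [Fin.prod_univ_succAbove _ (1 : Fin (l + 2)), add_neg_cancel, Tz_zero, mul_left_comm]
      congr 2
      refine Finset.prod_congr rfl fun j _ => ?_
      simp only [hF', hr']
      congr 2
      ring
    · simp only [mul_left_comm (F 1 _)]
      exact (((hF 1).mul (MB1.prod _ fun i _ => (mF' i).tz T _)).integrable μ).const_mul _
  refine le_trans ?_ (Real.le_sqrt_of_sq_le (cs mW))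
  rw [e]
  refine (Complex.re_le_norm _).trans ((norm_integral_le_integral_norm _).trans ?_)
  refine integral_mono (((hF 1).mul mW).integrable μ).norm (mW.integrable μ).norm fun x => ?_
  simp only [norm_mul]
  exact mul_le_of_le_one_left (norm_nonneg _) ((hF 1).2 x)

end Gvn

open Gvn in
theorem gvn (h : VdcS) : GvnS := by
  intro w hw ha X _ μ _ T hT H hH l
  have : Nonempty (Fin H) := ⟨⟨0, hH⟩⟩
  induction l with
  | zero =>
    intro r f hf η hη
    filter_upwards [step (μ := μ) (T := T) h hw ha hH r hf hη, hw.2] with M hM h1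
    rw [pow_zero, pow_one]
    refine hM.trans (le_of_eq ?_)
    congr 1
    simp only [QX, Fin.cons_zero]
    refine Finset.expect_congr rfl fun a _ => Finset.expect_congr rfl fun a' _ => ?_
    rw [int_wavg w M r (FF_MB1 r hf a a')]
    have e : ∀ d : ℕ, ∫ x, ∏ i, FF T r f a a' i (Tz T (r i * d) x) ∂μ =
        ∫ x, ddX T (r 0 * (((a' : ℕ) : ℤ) - ((a : ℕ) : ℤ))) (f 0) x ∂μ := by
      intro d
      simp only [Fin.prod_univ_succ, Fin.prod_univ_zero, mul_one]
      rw [integral_Tz hT _ (FF_MB1 r hf a a' 0).1.aestronglyMeasurable, FF_eq,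
        integral_Tz hT _ ((hf 0).ddX T _).1.aestronglyMeasurable]
    simp only [e, ← Finset.sum_mul]
    rw [← Complex.ofReal_sum, h1, Complex.ofReal_one, one_mul]
  | succ l ih =>
    intro r f hf η hη
    set m : ℕ := 2 ^ (l + 1) with hm
    have hK : (0 : ℝ) < m * 2 ^ (m - 1) := by positivity
    set e : ℝ := min 1 (η / 2 / (m * 2 ^ (m - 1))) with he
    have he0 : 0 < e := lt_min one_pos (by positivity)
    have he2 : e * (m * 2 ^ (m - 1)) ≤ η / 2 := (le_div_iff₀ hK).1 (min_le_right _ _)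
    set r' : Fin (l + 1) → ℤ := fun j => r ((1 : Fin (l + 2)).succAbove j) - r 1 with hr'
    set F' : Fin H → Fin H → Fin (l + 1) → X → ℂ :=
      fun a a' j => FF T r f a a' ((1 : Fin (l + 2)).succAbove j) with hF'
    have mF' : ∀ a a' j, MB1 (F' a a' j) := fun a a' j => FF_MB1 r hf a a' _
    have hI := eventually_all.2 fun a : Fin H => eventually_all.2 fun a' : Fin H =>
      ih r' (F' a a') (mF' a a') (η / 2) (half_pos hη)
    filter_upwards [step (μ := μ) (T := T) h hw ha hH r hf he0, hw.2, hI] with M hM h1 hI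
    set s : Fin H → Fin H → ℝ := fun a a' => √(∫ x, ‖wavg T w r' (F' a a') M x‖ ^ 2 ∂μ) with hs
    have s0 : ∀ a a', 0 ≤ s a a' := fun a a' => Real.sqrt_nonneg _
    have s1 : ∀ a a', s a a' ≤ 1 := fun a a' =>
      Real.sqrt_le_one.2 (sq_le_one (wavg_MB1 hw.1 h1 r' (mF' a a')))
    have hA : ∫ x, ‖wavg T w r f M x‖ ^ 2 ∂μ ≤ (𝔼 a, 𝔼 a', s a a') + e := by
      refine hM.trans (add_le_add_left ?_ _)
      exact Finset.expect_le_expect fun a _ => Finset.expect_le_expect fun a' _ =>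
        drop hT hw.1 h1 r (FF_MB1 r hf a a')
    have E0 : 0 ≤ 𝔼 a, 𝔼 a', s a a' :=
      Finset.expect_nonneg fun a _ => Finset.expect_nonneg fun a' _ => s0 a a'
    have E1 : 𝔼 a, 𝔼 a', s a a' ≤ 1 :=
      exp_le_of_le zero_le_one fun a _ => exp_le_of_le zero_le_one fun a' _ => s1 a a'
    have hB := (pow_le_pow_left₀ (integral_nonneg fun x => sq_nonneg _) hA m).trans
      (add_pow_le E0 E1 he0.le (min_le_left _ _) m)
    have hC : (𝔼 a, 𝔼 a', s a a') ^ m ≤ 𝔼 a, 𝔼 a', s a a' ^ m :=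
      (pow_exp_le _ (fun a => Finset.expect_nonneg fun a' _ => s0 a a') m).trans
        (Finset.expect_le_expect fun a _ => pow_exp_le _ (s0 a) m)
    have hb : (Fin.cons (r' 0) fun j : Fin l => r' 0 - r' j.succ : Fin (l + 1) → ℤ) =
        fun j : Fin (l + 1) => r 0 - r j.succ := by
      funext j
      refine Fin.cases ?_ (fun j => ?_) j
      · simp [hr']
      · simp [hr']
    have hD : ∀ a a' : Fin H, s a a' ^ m ≤ QX μ T H (l + 1) (fun j : Fin (l + 1) => r 0 - r j.succ)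
        (ddX T (r 0 * (((a' : ℕ) : ℤ) - ((a : ℕ) : ℤ))) (f 0)) + η / 2 := by
      intro a a'
      have h2 := hI a a'
      rw [hb] at h2
      have h3 : F' a a' 0 = fun x => ddX T (r 0 * (((a' : ℕ) : ℤ) - ((a : ℕ) : ℤ))) (f 0)
          (Tz T (r 0 * (a : ℕ)) x) := by
        simp only [hF', Fin.one_succAbove_zero, FF_eq]
      rw [h3, QX_tz hT _ _ _ _ ((hf 0).ddX T _)] at h2
      rw [hm, pow_succ', pow_mul, Real.sq_sqrt (integral_nonneg fun x => sq_nonneg _)]
      exact h2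
    have hE : 𝔼 a, 𝔼 a', s a a' ^ m ≤ QX μ T H (l + 1 + 1)
        (Fin.cons (r 0) fun j : Fin (l + 1) => r 0 - r j.succ) (f 0) + η / 2 := by
      refine (Finset.expect_le_expect fun a _ => Finset.expect_le_expect fun a' _ =>
        hD a a').trans (le_of_eq ?_)
      rw [QX]
      simp only [Finset.expect_add_distrib, Finset.expect_const Finset.univ_nonempty,
        Fin.cons_zero, Fin.tail_cons]
    linarith

end Pool.Agent.MP_154433_an.T3S

end
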