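import Mathlib
import Pool.Agent.MP_154433_an.t3s.Basic

/-! A small family of test functions detects large uniformity norm. -/

set_option autoImplicit false
set_option linter.unusedVariables false

open MeasureTheory ProbabilityTheory Filter Topology Function
open scoped BigOperators ComplexConjugate InnerProductSpace

noncomputable section

namespace Pool.Agent.MP_154433_an.T3S

namespace Inv

variable {G : Type} [AddCommGroup G] [Fintype G]

/-- many of the sampled derivatives are large -/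
lemma many {n k : ℕ} {t : Fin n → G} {lam δ : ℝ} (hn : 0 < n) (hδ : 0 < δ) (hl : lam ≤ δ / 4)
    (hS : Samp lam t) {f : G → ℂ} (hf : B1 f) (hQ : δ ≤ Q (k + 1) f) (J : Finset (Fin n))
    (hJ : ∀ j, δ / 4 ≤ Q k (dd (t j) f) → j ∈ J) : δ / 2 * n ≤ J.card := by
  have h1 := (abs_le.1 (hS k f hf)).1
  have hn' : (0 : ℝ) < n := by exact_mod_cast hn
  have h2 : ∑ j, Q k (dd (t j) f) ≤ ∑ j : Fin n, ((if j ∈ J then (1 : ℝ) else 0) + δ / 4) := by
    refine Finset.sum_le_sum fun j _ => ?_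
    by_cases hj : j ∈ J
    · rw [if_pos hj]
      have := Q_le_one k (hf.dd (t j))
      linarith
    · rw [if_neg hj]
      have : ¬ δ / 4 ≤ Q k (dd (t j) f) := fun h => hj (hJ j h)
      linarith [not_le.1 this]
  rw [Finset.sum_add_distrib, Finset.sum_ite_mem, Finset.univ_inter, Finset.sum_const,
    Finset.sum_const, Finset.card_univ, Fintype.card_fin, nsmul_eq_mul, nsmul_eq_mul, mul_one] at h2
  rw [Finset.expect_eq_sum_div_card, Finset.card_univ, Fintype.card_fin] at h1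
  have h3 : δ - δ / 4 ≤ (∑ j, Q k (dd (t j) f)) / n := by linarith
  rw [le_div_iff₀ hn'] at h3
  nlinarith

/-- families of large functions that are pairwise almost orthogonal -/
def Fam (k : ℕ) (δ eta : ℝ) {m : ℕ} (g : Fin m → G → ℂ) : Prop :=
  (∀ i, B1 (g i) ∧ δ ≤ Q (k + 1) (g i)) ∧
    ∀ i i', i ≠ i' → Q 1 (fun x => g i x * conj (g i' x)) ≤ eta

lemma bound (h4 : CodeS) {n k : ℕ} {t : Fin n → G} {lam δ c : ℝ} (hn : 0 < n) (hδ : 0 < δ)
    (hc : 0 < c) (hl0 : 0 ≤ lam) (hl : lam ≤ δ / 4) (hl' : lam ≤ δ * c ^ 4 / 32)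
    (hS : Samp lam t) (𝓕 : Finset (G → ℂ)) (hB : ∀ φ ∈ 𝓕, B1 φ)
    (hF : ∀ f : G → ℂ, B1 f → δ / 4 ≤ Q k f → ∃ φ ∈ 𝓕, c ≤ ‖ip f φ‖)
    {m : ℕ} {g : Fin m → G → ℂ} (hg : Fam k δ lam g) :
    (m : ℝ) ≤ ((𝓕.card : ℝ) + 1) ^ n * (2 / c ^ 2) := by
  classical
  have hcode : ∀ i j, ∃ o : Option 𝓕, (δ / 4 ≤ Q k (dd (t j) (g i)) → o.isSome) ∧
      ∀ φ : 𝓕, o = some φ → c ≤ ‖ip (dd (t j) (g i)) φ‖ := by
    intro i j
    by_cases h : δ / 4 ≤ Q k (dd (t j) (g i))
    · obtain ⟨φ, hφ, hφ'⟩ := hF _ ((hg.1 i).1.dd (t j)) h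
      refine ⟨some ⟨φ, hφ⟩, fun _ => rfl, fun ψ hψ => ?_⟩
      rw [← Option.some.inj hψ]
      exact hφ'
    · exact ⟨none, fun h' => absurd h' h, fun ψ hψ => by simp at hψ⟩
  choose code hcode1 hcode2 using hcode
  have hfib : ∀ κ : Fin n → Option 𝓕,
      (((Finset.univ.filter fun i => code i = κ).card : ℕ) : ℝ) ≤ 2 / c ^ 2 := by
    intro κ
    rcases (Finset.univ.filter fun i => code i = κ).eq_empty_or_nonempty with he | ⟨i0, hi0⟩
    · rw [he]
      simp only [Finset.card_empty, Nat.cast_zero]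
      positivity
    have hi0' : code i0 = κ := (Finset.mem_filter.1 hi0).2
    let J : Finset (Fin n) := Finset.univ.filter fun j => (κ j).isSome
    let φ : Fin n → G → ℂ := fun j => (κ j).elim (fun _ => 0) fun ψ => (ψ : G → ℂ)
    have hφ : ∀ j, B1 (φ j) := by
      intro j
      rcases h : κ j with _ | ψ
      · intro x
        simp [φ, h]
      · have : φ j = ψ := by simp [φ, h]
        rw [this]
        exact hB _ ψ.2
    have hJ : δ / 2 * n ≤ J.card := by
      refine many hn hδ hl hS (hg.1 i0).1 (hg.1 i0).2 J fun j hj => ?_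
      refine Finset.mem_filter.2 ⟨Finset.mem_univ _, ?_⟩
      rw [← hi0']
      exact hcode1 i0 j hj
    have key := h4 G n t lam lam c (δ / 2) J φ {i // code i = κ} (fun i => g i) hn hc
      (by linarith) hl0 hl0 (by linarith) hS hJ hφ (fun i => (hg.1 i).1) ?_ ?_
    · rw [Fintype.card_subtype] at key
      rw [le_div_iff₀ (by positivity)]
      exact key
    · intro i j hj
      obtain ⟨ψ, hψ⟩ := Option.isSome_iff_exists.1 (Finset.mem_filter.1 hj).2
      have : φ j = ψ := by simp [φ, hψ]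
      rw [this]
      refine hcode2 i j ψ ?_
      rw [i.2, hψ]
    · intro i i' hii
      exact hg.2 i i' fun h => hii (Subtype.ext h)
  have hsum : (Finset.univ : Finset (Fin m)).card =
      ∑ κ : Fin n → Option 𝓕, (Finset.univ.filter fun i => code i = κ).card :=
    Finset.card_eq_sum_card_fiberwise fun i _ => Finset.mem_univ _
  rw [Finset.card_univ, Fintype.card_fin] at hsum
  calc (m : ℝ) = ∑ κ : Fin n → Option 𝓕,
        (((Finset.univ.filter fun i => code i = κ).card : ℕ) : ℝ) := by exact_mod_cast hsum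
    _ ≤ ∑ κ : Fin n → Option 𝓕, 2 / c ^ 2 := Finset.sum_le_sum fun κ _ => hfib κ
    _ = _ := by
      rw [Finset.sum_const, Finset.card_univ, Fintype.card_fun, Fintype.card_option,
        Fintype.card_coe, Fintype.card_fin, nsmul_eq_mul]
      push_cast
      ring

lemma maximal {k : ℕ} {δ eta B : ℝ}
    (hb : ∀ (m : ℕ) (g : Fin m → G → ℂ), Fam k δ eta g → (m : ℝ) ≤ B) :
    ∃ (m : ℕ) (g : Fin m → G → ℂ), Fam k δ eta g ∧
      ∀ g' : Fin (m + 1) → G → ℂ, ¬ Fam k δ eta g' := by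
  by_contra hcon
  have hall : ∀ m : ℕ, ∃ g : Fin m → G → ℂ, Fam k δ eta g := by
    intro m
    induction m with
    | zero => exact ⟨fun i => i.elim0, fun i => i.elim0, fun i => i.elim0⟩
    | succ m ih =>
      obtain ⟨g, hg⟩ := ih
      by_contra hno
      exact hcon ⟨m, g, hg, fun g' hg' => hno ⟨g', hg'⟩⟩
  obtain ⟨m, hm⟩ := exists_nat_gt B
  obtain ⟨g, hg⟩ := hall m
  exact absurd (hb m g hg) (not_le.2 hm)

lemma ip_left (f g : G → ℂ) (χ : AddChar G ℂ) :
    ip (fun x => f x * conj (g x)) χ = ip f fun x => g x * χ x := by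
  simp only [ip, map_mul, mul_assoc]

lemma ip_right (f g : G → ℂ) (χ : AddChar G ℂ) :
    ‖ip (fun x => g x * conj (f x)) χ‖ = ‖ip f fun x => g x * (-χ) x‖ := by
  rw [← RCLike.norm_conj (K := ℂ) (ip (fun x => g x * conj (f x)) χ)]
  refine congrArg _ ?_
  simp only [ip, conj_exp]
  refine Finset.expect_congr rfl fun x _ => ?_
  rw [AddChar.neg_apply, AddChar.map_neg_eq_conj]
  simp only [map_mul, RCLike.conj_conj]
  ring

lemma detect (h3 : U2S) {k m : ℕ} {δ eta : ℝ} {g : Fin m → G → ℂ} (hg : Fam k δ eta g)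
    (hmax : ∀ g' : Fin (m + 1) → G → ℂ, ¬ Fam k δ eta g') {f : G → ℂ} (hf : B1 f)
    (hQ : δ ≤ Q (k + 1) f) :
    ∃ (i : Fin m) (χ : AddChar G ℂ), Real.sqrt eta ≤ ‖ip f fun x => g i x * χ x‖ := by
  by_contra hcon
  have hlt : ∀ (i : Fin m) (χ : AddChar G ℂ), ‖ip f fun x => g i x * χ x‖ ^ 2 ≤ eta := by
    intro i χ
    have h : ‖ip f fun x => g i x * χ x‖ < Real.sqrt eta := not_le.1 fun h => hcon ⟨i, χ, h⟩
    exact ((Real.lt_sqrt (norm_nonneg _)).1 h).le
  refine hmax (Fin.cons f g) ⟨fun i => ?_, fun i i' => ?_⟩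
  · refine Fin.cases ?_ (fun a => ?_) i
    · exact ⟨hf, hQ⟩
    · exact hg.1 a
  · refine Fin.cases ?_ (fun a => ?_) i <;> refine Fin.cases ?_ (fun b => ?_) i' <;> intro hne
    · exact absurd rfl hne
    · simp only [Fin.cons_zero, Fin.cons_succ]
      obtain ⟨χ, hχ⟩ := h3 G _ (hf.mul (hg.1 b).1.cj)
      rw [ip_left] at hχ
      exact hχ.trans (hlt b χ)
    · simp only [Fin.cons_zero, Fin.cons_succ]
      obtain ⟨χ, hχ⟩ := h3 G _ ((hg.1 a).1.mul hf.cj)
      rw [ip_right] at hχ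
      exact hχ.trans (hlt a (-χ))
    · simp only [Fin.cons_succ]
      exact hg.2 a b fun h => hne (congrArg _ h)

lemma size {k n m N : ℕ} {L C C1 c s : ℝ} (hL : 1 ≤ L) (hC : 0 ≤ C) (hC1 : 0 ≤ C1) (hc : 0 < c)
    (hs0 : 0 ≤ s) (hs : s ≤ Real.exp (C * L ^ k)) (hn : (n : ℝ) ≤ C1 * L)
    (hm : (m : ℝ) ≤ (s + 1) ^ n * (2 / c ^ 2)) (hN : (N : ℝ) ≤ Real.exp L) :
    (m : ℝ) * N ≤ Real.exp ((C1 * (C + 1) + 2 / c ^ 2 + 1) * L ^ (k + 1)) := by
  have hLk : 1 ≤ L ^ k := one_le_pow₀ hL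
  have hLk1 : L ≤ L ^ (k + 1) := by
    rw [pow_succ]
    nlinarith
  have h1 : s + 1 ≤ Real.exp ((C + 1) * L ^ k) := by
    have e1 : 1 ≤ Real.exp (C * L ^ k) := Real.one_le_exp (by positivity)
    have e2 : (2 : ℝ) ≤ Real.exp (L ^ k) := by
      have := Real.add_one_le_exp (L ^ k)
      linarith
    rw [add_mul, one_mul, Real.exp_add]
    nlinarith
  have h2 : (s + 1) ^ n ≤ Real.exp (C1 * (C + 1) * L ^ (k + 1)) := by
    refine (pow_le_pow_left₀ (by linarith) h1 n).trans ?_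
    rw [← Real.exp_nat_mul]
    refine Real.exp_le_exp.2 ?_
    calc (n : ℝ) * ((C + 1) * L ^ k) ≤ C1 * L * ((C + 1) * L ^ k) :=
          mul_le_mul_of_nonneg_right hn (by positivity)
      _ = _ := by ring
  have h3 : 2 / c ^ 2 ≤ Real.exp (2 / c ^ 2 * L ^ (k + 1)) := by
    have e1 := Real.add_one_le_exp (2 / c ^ 2 * L ^ (k + 1))
    have e2 : 2 / c ^ 2 ≤ 2 / c ^ 2 * L ^ (k + 1) :=
      le_mul_of_one_le_right (by positivity) (hL.trans hLk1)
    linarith
  have h4 : (N : ℝ) ≤ Real.exp (L ^ (k + 1)) := hN.trans (Real.exp_le_exp.2 hLk1)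
  rw [add_mul, add_mul, one_mul, Real.exp_add, Real.exp_add]
  refine mul_le_mul (hm.trans ?_) h4 (Nat.cast_nonneg _) (by positivity)
  exact mul_le_mul h2 h3 (by positivity) (by positivity)

end Inv

theorem inv (h1 : TsetS) (h2 : SampS) (h3 : U2S) (h4 : CodeS) : InvS := by
  intro k
  induction k with
  | zero =>
    intro δ hδ
    refine ⟨Real.sqrt δ, 0, Real.sqrt_pos.2 hδ, le_rfl, fun G _ _ => ?_⟩
    refine ⟨{fun _ => 1}, ?_, by simp, fun f hf hQ => ⟨fun _ => 1, Finset.mem_singleton_self _, ?_⟩⟩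
    · intro φ hφ x
      rw [Finset.mem_singleton.1 hφ]
      simp
    · have e : ip f (fun _ => 1) = 𝔼 x, f x := by simp [ip]
      rw [e]
      exact Real.sqrt_le_iff.2 ⟨norm_nonneg _, hQ⟩
  | succ k ih =>
    intro δ hδ
    classical
    obtain ⟨c, C, hc, hC, hF⟩ := ih (δ / 4) (by linarith)
    have hlam : 0 < min (δ / 4) (δ * c ^ 4 / 32) := lt_min (by linarith) (by positivity)
    obtain ⟨C1, hC1, hT⟩ := h1 _ hlam
    refine ⟨Real.sqrt (min (δ / 4) (δ * c ^ 4 / 32)), C1 * (C + 1) + 2 / c ^ 2 + 1,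
      Real.sqrt_pos.2 hlam, by positivity, fun G _ _ => ?_⟩
    obtain ⟨𝓕, hB, hcard, hF⟩ := hF G
    obtain ⟨n, t, hn, hnC, ht⟩ := hT G
    have hS := h2 G _ n t hn hlam.le ht
    have hb := fun (m : ℕ) (g : Fin m → G → ℂ)
      (hg : Inv.Fam k δ (min (δ / 4) (δ * c ^ 4 / 32)) g) =>
      Inv.bound h4 hn hδ hc hlam.le (min_le_left _ _) (min_le_right _ _) hS 𝓕 hB hF hg
    obtain ⟨m, g, hg, hmax⟩ := Inv.maximal hb
    refine ⟨(Finset.univ : Finset (Fin m × AddChar G ℂ)).image fun p x => g p.1 x * p.2 x,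
      ?_, ?_, fun f hf hQ => ?_⟩
    · intro φ hφ
      obtain ⟨p, -, rfl⟩ := Finset.mem_image.1 hφ
      exact (hg.1 p.1).1.mul (B1_char p.2)
    · refine le_trans ?_ (Inv.size one_le_LG hC hC1 hc (Nat.cast_nonneg _) hcard hnC (hb m g hg)
        card_le_exp_LG)
      have := Finset.card_image_le (s := (Finset.univ : Finset (Fin m × AddChar G ℂ)))
        (f := fun p x => g p.1 x * p.2 x)
      rw [Finset.card_univ, Fintype.card_prod, Fintype.card_fin, AddChar.card_eq] at this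
      exact_mod_cast this
    · obtain ⟨i, χ, h⟩ := Inv.detect h3 hg hmax hf hQ
      exact ⟨_, Finset.mem_image.2 ⟨(i, χ), Finset.mem_univ _, rfl⟩, h⟩

end Pool.Agent.MP_154433_an.T3S

end
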