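import Mathlib
import Pool.Agent.MP_154433_an.t3s.Basic

/-! A decreasing sequence of bounded nonempty convex sets in a Hilbert space has a common
point in the closures. -/

set_option autoImplicit false
set_option linter.unusedVariables false

open MeasureTheory ProbabilityTheory Filter Topology Function
open scoped BigOperators ComplexConjugate InnerProductSpace

noncomputable section

namespace Pool.Agent.MP_154433_an.T3S

namespace Nest

variable {E : Type} [NormedAddCommGroup E] [InnerProductSpace ℝ E] [CompleteSpace E]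

/-- the point of least norm of a closed convex set -/
lemma least {K : Set E} (hne : K.Nonempty) (hcl : IsClosed K) (hcv : Convex ℝ K) :
    ∃ v ∈ K, ∀ w ∈ K, ‖w - v‖ ^ 2 ≤ ‖w‖ ^ 2 - ‖v‖ ^ 2 := by
  obtain ⟨v, hv, hmin⟩ := exists_norm_eq_iInf_of_complete_convex hne hcl.isComplete hcv 0
  refine ⟨v, hv, fun w hw => ?_⟩
  have h := (norm_eq_iInf_iff_real_inner_le_zero hcv hv).1 hmin w hw
  rw [zero_sub, inner_neg_left] at h
  have e : ‖w‖ ^ 2 = ‖v‖ ^ 2 + 2 * ⟪v, w - v⟫_ℝ + ‖w - v‖ ^ 2 := by
    rw [← norm_add_sq_real, add_sub_cancel]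
  linarith

end Nest

theorem nest : NestS := by
  intro E _ _ _ C R hanti hne hcv hR
  choose x hx hmin using fun n =>
    Nest.least (K := closure (C n)) (hne n).closure isClosed_closure (hcv n).closure
  have hmem : ∀ n m, n ≤ m → x m ∈ closure (C n) := fun n m h => closure_mono (hanti h) (hx m)
  have hb : ∀ n, ‖x n‖ ≤ R := fun n =>
    closure_minimal (t := {y : E | ‖y‖ ≤ R}) (hR n) (isClosed_le continuous_norm continuous_const)
      (hx n)
  have hmono : Monotone fun n => ‖x n‖ ^ 2 := fun n m h => by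
    have h1 := hmin n _ (hmem n m h)
    have h2 := sq_nonneg ‖x m - x n‖
    simp only
    linarith
  have hbdd : BddAbove (Set.range fun n => ‖x n‖ ^ 2) :=
    ⟨R ^ 2, by
      rintro _ ⟨n, rfl⟩
      exact pow_le_pow_left₀ (norm_nonneg _) (hb n) 2⟩
  have hlim := tendsto_atTop_ciSup hmono hbdd
  have hcs : CauchySeq x := by
    refine cauchySeq_of_le_tendsto_0' (fun n => √((⨆ i, ‖x i‖ ^ 2) - ‖x n‖ ^ 2))
      (fun n m h => ?_) ?_
    · rw [dist_comm, dist_eq_norm]
      refine Real.le_sqrt_of_sq_le ((hmin n _ (hmem n m h)).trans ?_)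
      have := le_ciSup hbdd m
      linarith
    · have h := ((tendsto_const_nhds (x := ⨆ i, ‖x i‖ ^ 2)).sub hlim).sqrt
      simpa using h
  obtain ⟨y, hy⟩ := cauchySeq_tendsto_of_complete hcs
  exact ⟨y, fun n => isClosed_closure.mem_of_tendsto hy (eventually_atTop.2 ⟨n, hmem n⟩)⟩

end Pool.Agent.MP_154433_an.T3S

end
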