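import Pool.Agent.MP_154433_an.t3s.Basic

/-! Row Net: a small family of test sequences controls all products of blocks. -/

set_option autoImplicit false
set_option linter.unusedVariables false

open Filter Topology Function
open scoped BigOperators

noncomputable section

namespace Pool.Agent.MP_154433_an.T3S

namespace Net

lemma sum_le {N M : ℕ} [NeZero N] (h : M ≤ N) (c : ℤ) {F : ZMod N → ℝ} (hF : ∀ x, 0 ≤ F x) :
    ∑ n ∈ Finset.range M, F (((n : ℤ) + c : ℤ) : ZMod N) ≤ N * 𝔼 x, F x := by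
  classical
  have inj : Set.InjOn (fun n : ℕ => (((n : ℤ) + c : ℤ) : ZMod N)) (Finset.range M : Set ℕ) := by
    intro n hn n' hn' e
    simp only [Finset.coe_range, Set.mem_Iio] at hn hn'
    push_cast at e
    have e1 := (ZMod.natCast_eq_natCast_iff' n n' N).1 (add_right_cancel e)
    rwa [Nat.mod_eq_of_lt (by omega), Nat.mod_eq_of_lt (by omega)] at e1
  rw [← Finset.sum_image (f := F) inj]
  refine (Finset.sum_le_sum_of_subset_of_nonneg (Finset.subset_univ _)
    fun x _ _ => hF x).trans (le_of_eq ?_)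
  have hN : (N : ℝ) ≠ 0 := Nat.cast_ne_zero.2 (NeZero.ne N)
  rw [Finset.expect_eq_sum_div_card, Finset.card_univ, ZMod.card, mul_div_cancel₀ _ hN]

lemma card_le {M C0 J l K : ℕ} {C1 : ℝ} (hM : 1 ≤ M) (hC : 1 ≤ C0) (hl : 1 ≤ l) (h1 : 0 ≤ C1)
    (hK : (K : ℝ) ≤ Real.exp (C1 * (Real.log ((C0 * M : ℕ) : ℝ) + 1) ^ l)) :
    ((M * K ^ J : ℕ) : ℝ) ≤
      Real.exp ((1 + J * C1 * (Real.log C0 + 1) ^ l) * (Real.log M + 1) ^ l) := by
  have hM0 : (0 : ℝ) < M := by exact_mod_cast hM
  have hC0 : (0 : ℝ) < C0 := by exact_mod_cast hC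
  have a1 : 0 ≤ Real.log M := Real.log_natCast_nonneg _
  have a2 : 0 ≤ Real.log C0 := Real.log_natCast_nonneg _
  have e1 : Real.log ((C0 * M : ℕ) : ℝ) + 1 ≤ (Real.log C0 + 1) * (Real.log M + 1) := by
    push_cast
    rw [Real.log_mul hC0.ne' hM0.ne']
    nlinarith [mul_nonneg a1 a2]
  have e2 : (K : ℝ) ≤ Real.exp (C1 * ((Real.log C0 + 1) ^ l * (Real.log M + 1) ^ l)) := by
    refine hK.trans (Real.exp_le_exp.2 (mul_le_mul_of_nonneg_left ?_ h1))
    rw [← mul_pow]
    exact pow_le_pow_left₀ (add_nonneg (Real.log_natCast_nonneg _) zero_le_one) e1 _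
  have e3 : (M : ℝ) ≤ Real.exp ((Real.log M + 1) ^ l) := by
    conv_lhs => rw [← Real.exp_log hM0]
    exact Real.exp_le_exp.2 ((by linarith : Real.log M ≤ Real.log M + 1).trans
      (le_self_pow₀ (by linarith) (by omega)))
  push_cast
  refine (mul_le_mul e3 (pow_le_pow_left₀ (Nat.cast_nonneg _) e2 J) (by positivity)
    (Real.exp_pos _).le).trans (le_of_eq ?_)
  rw [← Real.exp_nat_mul, ← Real.exp_add]
  congr 1
  ring

end Net

theorem net (h1 : ApxS) (h2 : CovS) : NetS := by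
  classical
  intro l hl J r b hb ε hε
  obtain ⟨R, hR⟩ : ∃ R : ℕ, ∀ t, 1 + |r t| ≤ R := by
    refine ⟨1 + ∑ t, (r t).natAbs, fun t => ?_⟩
    have := Finset.single_le_sum (f := fun t => (r t).natAbs) (fun _ _ => Nat.zero_le _)
      (Finset.mem_univ t)
    rw [Int.abs_eq_natAbs]
    exact_mod_cast Nat.add_le_add_left this 1
  obtain ⟨C0, hC, hC0⟩ : ∃ C0 : ℕ, 1 ≤ C0 ∧ ∀ t i, 2 * ((R : ℤ) + |b t i|) ≤ C0 := by
    refine ⟨2 * (R + ∑ p : Fin J × Fin (l + 1), (b p.1 p.2).natAbs) + 1, by omega, fun t i => ?_⟩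
    have := Finset.single_le_sum (f := fun p : Fin J × Fin (l + 1) => (b p.1 p.2).natAbs)
      (fun _ _ => Nat.zero_le _) (Finset.mem_univ (t, i))
    rw [Int.abs_eq_natAbs]
    simp only at this
    omega
  have hCr : (0 : ℝ) < C0 := by exact_mod_cast hC
  obtain ⟨C1, hC1, hV⟩ := h2 l (((C0 : ℝ) ^ (l + 1)) ^ 2 ^ (l + 1)) (ε / (2 * (J + 1) * C0))
    (by positivity) (by positivity)
  have key : ∀ M : ℕ, ∃ S : Finset (ℕ → ℂ), (∀ c ∈ S, B1 c) ∧
      (1 ≤ M → (S.card : ℝ) ≤
        Real.exp ((1 + J * C1 * (Real.log C0 + 1) ^ l) * (Real.log M + 1) ^ l)) ∧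
      (1 ≤ M → 8 * (J + 1) * (l + 1) / ε ≤ (M : ℝ) → ∀ (y : ℕ → ℝ) (τ : ℝ),
        (∀ c ∈ S, ‖∑ d ∈ Finset.range M, (y d : ℂ) * c d‖ ≤ τ) →
        ∀ u : Fin J → ℤ → ℂ, (∀ t, u t ∈ CZ (b t) (M ^ 2)) →
          ∑ n ∈ Finset.range M, ‖∑ d ∈ Finset.range M, (y d : ℂ) * ∏ t, u t (n + r t * d)‖ ≤
            (τ + ε * ∑ d ∈ Finset.range M, |y d|) * M) := by
    intro M
    rcases Nat.eq_zero_or_pos M with rfl | hM
    · exact ⟨∅, by simp, fun h => absurd h (by omega), fun h => absurd h (by omega)⟩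
    have : NeZero (C0 * M) := ⟨(Nat.mul_pos hC hM).ne'⟩
    obtain ⟨V, hV1, hV2, hV3⟩ := hV (ZMod (C0 * M))
    have hMr : (0 : ℝ) < M := by exact_mod_cast hM
    refine ⟨((Finset.range M) ×ˢ Fintype.piFinset fun _ : Fin J => V).image
      fun p d => ∏ t, p.2 t (((p.1 : ℤ) + r t * d : ℤ) : ZMod (C0 * M)), fun c hc => ?_,
      fun _ => ?_, fun _ hM1 y τ hτ u hu => ?_⟩
    · obtain ⟨p, hp, rfl⟩ := Finset.mem_image.1 hc
      exact fun d => norm_prod_le_one _ fun t _ =>
        hV1 _ (Fintype.mem_piFinset.1 (Finset.mem_product.1 hp).2 t) _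
    · rw [LG, ZMod.card] at hV2
      refine le_trans ?_ (Net.card_le (J := J) hM hC hl hC1 hV2)
      have := Finset.card_image_le (s := (Finset.range M) ×ˢ Fintype.piFinset fun _ : Fin J => V)
        (f := fun p (d : ℕ) => ∏ t, p.2 t (((p.1 : ℤ) + r t * d : ℤ) : ZMod (C0 * M)))
      rw [Finset.card_product, Finset.card_range, Fintype.card_piFinset_const] at this
      exact_mod_cast this
    · choose w hw1 hw2 using fun t => h1 l hl (b t) R C0 M (M ^ 2) (hb t) (hC0 t)
        (Nat.one_le_pow _ _ hM) (u t) (hu t)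
      choose v hv1 hv2 using fun t => hV3 (w t) (hw1 t)
      have hδ : (4 * (l + 1) * M / (M ^ 2 : ℕ) : ℝ) ≤ ε / (2 * (J + 1)) := by
        rw [div_le_iff₀ hε] at hM1
        push_cast
        rw [div_le_div_iff₀ (by positivity) (by positivity)]
        nlinarith
      have step : ∀ n ∈ Finset.range M,
          ‖∑ d ∈ Finset.range M, (y d : ℂ) * ∏ t, u t (n + r t * d)‖ ≤
          τ + ∑ d ∈ Finset.range M, |y d| * ∑ t, (ε / (2 * (J + 1)) +
            ‖w t (((n : ℤ) + r t * d : ℤ) : ZMod (C0 * M)) -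
              v t (((n : ℤ) + r t * d : ℤ) : ZMod (C0 * M))‖) := by
        intro n hn
        have e0 := hτ _ (Finset.mem_image_of_mem _ (Finset.mem_product.2
          (⟨hn, Fintype.mem_piFinset.2 hv1⟩ : (n, v).1 ∈ _ ∧ (n, v).2 ∈ _)))
        have e1 : ∑ d ∈ Finset.range M, (y d : ℂ) * ∏ t, u t (n + r t * d) =
            ∑ d ∈ Finset.range M, (y d : ℂ) * ∏ t, v t (((n : ℤ) + r t * d : ℤ) : ZMod (C0 * M)) +
            ∑ d ∈ Finset.range M, (y d : ℂ) * (∏ t, u t (n + r t * d) -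
              ∏ t, v t (((n : ℤ) + r t * d : ℤ) : ZMod (C0 * M))) := by
          rw [← Finset.sum_add_distrib]
          exact Finset.sum_congr rfl fun d _ => by ring
        rw [e1]
        refine (norm_add_le _ _).trans (add_le_add e0 ((norm_sum_le _ _).trans
          (Finset.sum_le_sum fun d hd => ?_)))
        rw [norm_mul, Complex.norm_real, Real.norm_eq_abs]
        refine mul_le_mul_of_nonneg_left ((norm_prod_sub_le _ (fun t => CZ_B1 (hu t) _)
          fun t => hV1 _ (hv1 t) _).trans (Finset.sum_le_sum fun t _ => ?_)) (abs_nonneg _)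
        have e2 : |(n : ℤ) + r t * d| ≤ R * M := by
          have a1 : (n : ℤ) ≤ M := by exact_mod_cast (Finset.mem_range.1 hn).le
          have a2 : (d : ℤ) ≤ M := by exact_mod_cast (Finset.mem_range.1 hd).le
          refine (abs_add_le _ _).trans ?_
          rw [abs_mul, Nat.abs_cast, Nat.abs_cast]
          have a3 := mul_le_mul_of_nonneg_left a2 (abs_nonneg (r t))
          have a4 := mul_le_mul_of_nonneg_right (hR t) (Int.natCast_nonneg M)
          linarith
        exact (norm_sub_le_norm_sub_add_norm_sub _ _ _).trans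
          (add_le_add ((hw2 t _ e2).trans hδ) le_rfl)
      refine (Finset.sum_le_sum step).trans ?_
      rw [Finset.sum_add_distrib, Finset.sum_const, Finset.card_range, nsmul_eq_mul,
        Finset.sum_comm, add_mul, mul_comm τ, Finset.mul_sum, Finset.sum_mul]
      refine add_le_add le_rfl (Finset.sum_le_sum fun d _ => ?_)
      rw [← Finset.mul_sum, Finset.sum_comm, mul_comm ε, mul_assoc]
      refine mul_le_mul_of_nonneg_left ?_ (abs_nonneg _)
      have e3 : ∀ t ∈ (Finset.univ : Finset (Fin J)), ∑ n ∈ Finset.range M, (ε / (2 * (J + 1)) +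
          ‖w t (((n : ℤ) + r t * d : ℤ) : ZMod (C0 * M)) -
            v t (((n : ℤ) + r t * d : ℤ) : ZMod (C0 * M))‖) ≤ ε / (J + 1) * M := fun t _ => by
        rw [Finset.sum_add_distrib, Finset.sum_const, Finset.card_range, nsmul_eq_mul]
        have a1 := Net.sum_le (N := C0 * M) (M := M) (Nat.le_mul_of_pos_left M hC) (r t * d)
          (F := fun x => ‖w t x - v t x‖) fun x => norm_nonneg _
        have a2 := mul_le_mul_of_nonneg_left (hv2 t) (Nat.cast_nonneg (α := ℝ) (C0 * M))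
        have a3 : ((C0 * M : ℕ) : ℝ) * (ε / (2 * (J + 1) * C0)) = M * (ε / (2 * (J + 1))) := by
          push_cast
          field_simp
        have a4 : ε / (J + 1) * M = M * (ε / (2 * (J + 1))) + M * (ε / (2 * (J + 1))) := by
          field_simp
          ring
        rw [a4]
        exact add_le_add le_rfl (a1.trans (a2.trans a3.le))
      refine (Finset.sum_le_sum e3).trans ?_
      rw [Finset.sum_const, Finset.card_univ, Fintype.card_fin, nsmul_eq_mul, ← mul_assoc]
      refine mul_le_mul_of_nonneg_right ?_ hMr.le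
      rw [← mul_div_assoc, div_le_iff₀ (by positivity)]
      nlinarith
  choose S hS1 hS2 hS3 using key
  refine ⟨_, S, hS1, hS2, ?_⟩
  filter_upwards [eventually_ge_atTop 1,
    (tendsto_natCast_atTop_atTop (R := ℝ)).eventually_ge_atTop (8 * (J + 1) * (l + 1) / ε)]
    with M a1 a2
  exact hS3 M a1 a2

end Pool.Agent.MP_154433_an.T3S

end
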