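import Mathlib
import Pool.Agent.MP_154433_an.t3s.Basic

/-! Normalisation of the weights. -/

set_option autoImplicit false
set_option linter.unusedVariables false

open MeasureTheory ProbabilityTheory Filter Topology Function
open scoped BigOperators ComplexConjugate InnerProductSpace

noncomputable section

namespace Pool.Agent.MP_154433_an.T3S

namespace Nrm

lemma ind_nonneg (p : ℕ → Prop) (d : ℕ) : 0 ≤ ind p d := by
  unfold ind; split_ifs <;> norm_num

lemma sum_yw (σ : ℕ → ℝ) (p : ℕ → Prop) (M : ℕ) :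
    ∑ d ∈ Finset.range M, yw σ p M d = (Wt (ind p) M - Wt σ M) / Wt σ M := by
  simp only [yw, Wt]
  rw [← Finset.sum_div, Finset.sum_sub_distrib]

lemma pw {σ : ℕ → ℝ} (h : ∀ n, 0 ≤ σ n) (h' : ∀ᶠ M in atTop, 0 < Wt σ M) :
    PW fun M d => σ d / Wt σ M := by
  refine ⟨fun M d => div_nonneg (h d) (Finset.sum_nonneg fun k _ => h k), ?_⟩
  filter_upwards [h'] with M hM
  rw [← Finset.sum_div]
  exact div_self hM.ne'

/-- Changing the weights costs the total variation. -/
lemma tv (M : ℕ) (w w' : ℕ → ℝ) (c : ℕ → ℂ) (hc : ∀ d, ‖c d‖ ≤ 1) :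
    ‖∑ d ∈ Finset.range M, (w d : ℂ) * c d‖ ≤
      ‖∑ d ∈ Finset.range M, (w' d : ℂ) * c d‖ + ∑ d ∈ Finset.range M, |w d - w' d| := by
  have e : ∑ d ∈ Finset.range M, (w d : ℂ) * c d = ∑ d ∈ Finset.range M, (w' d : ℂ) * c d +
      ∑ d ∈ Finset.range M, ((w d - w' d : ℝ) : ℂ) * c d := by
    rw [← Finset.sum_add_distrib]
    refine Finset.sum_congr rfl fun d _ => ?_
    push_cast
    ring
  rw [e]
  refine (norm_add_le _ _).trans (add_le_add le_rfl ((norm_sum_le _ _).trans
    (Finset.sum_le_sum fun d _ => ?_)))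
  rw [norm_mul, Complex.norm_real, Real.norm_eq_abs]
  exact mul_le_of_le_one_right (abs_nonneg _) (hc d)

lemma near_ev {w w' : ℕ → ℕ → ℝ} (h : Near w w') {ε : ℝ} (hε : 0 < ε) :
    ∀ᶠ M in atTop, ∑ d ∈ Finset.range M, |w M d - w' M d| ≤ ε :=
  (Tendsto.eventually_lt_const hε h).mono fun _ h => h.le

section Abel

variable {V : Type} [NormedAddCommGroup V] [NormedSpace ℝ V] {σ : ℕ → ℝ}

lemma abel_one (ha : Antitone σ) (v : ℕ → V) (hv : ∀ d, ‖v d‖ ≤ 1) (M : ℕ) :
    ‖∑ d ∈ Finset.range M, σ d • (v (d + 1) - v d) - σ M • v M + σ 0 • v 0‖ ≤ σ 0 - σ M := by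
  induction M with
  | zero => simp
  | succ M ih =>
    have e : ∑ d ∈ Finset.range (M + 1), σ d • (v (d + 1) - v d) - σ (M + 1) • v (M + 1) + σ 0 • v 0 =
        (∑ d ∈ Finset.range M, σ d • (v (d + 1) - v d) - σ M • v M + σ 0 • v 0) +
          (σ M - σ (M + 1)) • v (M + 1) := by
      rw [Finset.sum_range_succ, smul_sub, sub_smul]
      abel
    have h1 : 0 ≤ σ M - σ (M + 1) := sub_nonneg.2 (ha (Nat.le_succ M))
    have h2 : ‖(σ M - σ (M + 1)) • v (M + 1)‖ ≤ σ M - σ (M + 1) := by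
      rw [norm_smul, Real.norm_eq_abs, abs_of_nonneg h1]
      exact mul_le_of_le_one_right h1 (hv _)
    rw [e]
    exact (norm_add_le _ _).trans (by linarith)

lemma abel_two (h0 : ∀ n, 0 ≤ σ n) (ha : Antitone σ) (v : ℕ → V) (hv : ∀ d, ‖v d‖ ≤ 1) (M : ℕ) :
    ‖∑ d ∈ Finset.range M, σ d • (v (d + 1) - v d)‖ ≤ 2 * σ 0 := by
  have h := abel_one ha v hv M
  have b : ∀ n, ‖σ n • v n‖ ≤ σ n := fun n => by
    rw [norm_smul, Real.norm_eq_abs, abs_of_nonneg (h0 n)]
    exact mul_le_of_le_one_right (h0 n) (hv _)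
  have e : ∑ d ∈ Finset.range M, σ d • (v (d + 1) - v d) =
      (∑ d ∈ Finset.range M, σ d • (v (d + 1) - v d) - σ M • v M + σ 0 • v 0) + σ M • v M -
        σ 0 • v 0 := by abel
  rw [e]
  refine (norm_sub_le _ _).trans ?_
  have := norm_add_le (∑ d ∈ Finset.range M, σ d • (v (d + 1) - v d) - σ M • v M + σ 0 • v 0)
    (σ M • v M)
  linarith [b M, b 0]

lemma abel_h (h0 : ∀ n, 0 ≤ σ n) (ha : Antitone σ) (u : ℕ → V) (hu : ∀ d, ‖u d‖ ≤ 1) (M h : ℕ) :
    ‖∑ d ∈ Finset.range M, σ d • (u (d + h) - u d)‖ ≤ h * (2 * σ 0) := by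
  induction h with
  | zero => simp
  | succ h ih =>
    have e : ∑ d ∈ Finset.range M, σ d • (u (d + (h + 1)) - u d) =
        ∑ d ∈ Finset.range M, σ d • (u (d + h) - u d) +
          ∑ d ∈ Finset.range M, σ d • (u (d + 1 + h) - u (d + h)) := by
      rw [← Finset.sum_add_distrib]
      refine Finset.sum_congr rfl fun d _ => ?_
      rw [← smul_add, show d + 1 + h = d + (h + 1) by ring]
      congr 1
      abel
    have h2 := abel_two h0 ha (fun d => u (d + h)) (fun d => hu _) M
    rw [e]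
    refine (norm_add_le _ _).trans ?_
    push_cast
    linarith

end Abel

end Nrm

open Nrm in
theorem nrm : NormS := by
  refine ⟨fun σ p h0 hW hM => ?_, fun w w' hn hM ε hε => ?_, fun l w w' hn hS J r b hb ε hε => ?_,
    fun σ h0 ha hW h ε hε => ?_⟩
  · have hδ : Tendsto (fun M => ∑ d ∈ Finset.range M, yw σ p M d) atTop (𝓝 0) := by
      rw [NormedAddGroup.tendsto_nhds_zero]
      intro ε hε
      filter_upwards [hM (ε / 2) (half_pos hε)] with M h
      have h1 := h 0
      simp only [AddChar.zero_apply, mul_one] at h1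
      rw [← Complex.ofReal_sum, Complex.norm_real] at h1
      linarith
    have hp : ∀ᶠ M in atTop, 0 < Wt σ M := hW.eventually_gt_atTop 0
    have hq : ∀ᶠ M in atTop, 0 < Wt σ M ∧ 0 < Wt (ind p) M ∧ Wt (ind p) M ≤ 2 * Wt σ M := by
      filter_upwards [hp, (NormedAddGroup.tendsto_nhds_zero.1 hδ) (1 / 2) (by norm_num)] with M a c
      rw [sum_yw, Real.norm_eq_abs, abs_lt, lt_div_iff₀ a, div_lt_iff₀ a] at c
      exact ⟨a, by linarith [c.1], by linarith [c.2]⟩
    refine ⟨pw (ind_nonneg p) (hq.mono fun M h => h.2.1), pw h0 hp, ?_, ?_, hδ⟩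
    · filter_upwards [hq] with M h
      calc ∑ d ∈ Finset.range M, |yw σ p M d|
          ≤ ∑ d ∈ Finset.range M, (ind p d + σ d) / Wt σ M := by
            refine Finset.sum_le_sum fun d _ => ?_
            rw [yw, abs_div, abs_of_pos h.1]
            refine div_le_div_of_nonneg_right ?_ h.1.le
            rw [abs_le]
            constructor <;> linarith [ind_nonneg p d, h0 d]
        _ = (Wt (ind p) M + Wt σ M) / Wt σ M := by
            rw [← Finset.sum_div, Finset.sum_add_distrib]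
            rfl
        _ ≤ 3 := by
            rw [div_le_iff₀ h.1]
            linarith [h.2.2]
    · have h1 : Tendsto (fun M => |∑ d ∈ Finset.range M, yw σ p M d|) atTop (𝓝 0) := by
        simpa using hδ.abs
      refine h1.congr' ?_
      filter_upwards [hq] with M h
      have e : ∀ d, |nu p M d - nb σ M d - yw σ p M d| =
          ind p d * |1 / Wt (ind p) M - 1 / Wt σ M| := fun d => by
        rw [← abs_of_nonneg (ind_nonneg p d), ← abs_mul, nu, nb, yw]
        congr 1
        ring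
      simp only [e]
      rw [← Finset.sum_mul, sum_yw, show ∑ d ∈ Finset.range M, ind p d = |Wt (ind p) M| from
        (abs_of_pos h.2.1).symm, ← abs_mul, ← abs_neg]
      congr 1
      have := h.1.ne'
      have := h.2.1.ne'
      field_simp
      ring
  · filter_upwards [hM (ε / 2) (half_pos hε), near_ev hn (half_pos hε), eventually_ge_atTop 1]
      with M a c d χ
    have : NeZero (2 * M) := ⟨by omega⟩
    have := tv M (w M) (w' M) (fun d => χ (d : ZMod (2 * M))) fun d => (χ.norm_apply _).le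
    linarith [a χ]
  · filter_upwards [hS J r b hb (ε / 2) (half_pos hε), near_ev hn (half_pos hε)] with M a c u hu
    have h1 : ∀ n : ℕ, ‖∑ d ∈ Finset.range M, (w M d : ℂ) * ∏ t, u t (n + r t * d)‖ ≤
        ‖∑ d ∈ Finset.range M, (w' M d : ℂ) * ∏ t, u t (n + r t * d)‖ + ε / 2 := fun n =>
      (tv M (w M) (w' M) (fun d => ∏ t, u t (n + r t * d))
        fun d => norm_prod_le_one _ fun t _ => CZ_B1 (hu t) _).trans (add_le_add le_rfl c)
    refine (Finset.sum_le_sum fun n _ => h1 n).trans ?_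
    rw [Finset.sum_add_distrib, Finset.sum_const, Finset.card_range, nsmul_eq_mul]
    linarith [a u hu]
  · filter_upwards [hW.eventually_gt_atTop 0, hW.eventually_ge_atTop (h * (2 * σ 0) / ε)]
      with M a c V _ _ u hu
    have e : ∑ d ∈ Finset.range M, nb σ M d • (u (d + h) - u d) =
        (Wt σ M)⁻¹ • ∑ d ∈ Finset.range M, σ d • (u (d + h) - u d) := by
      rw [Finset.smul_sum]
      refine Finset.sum_congr rfl fun d _ => ?_
      rw [smul_smul, nb, div_eq_inv_mul]
    rw [e, norm_smul, Real.norm_eq_abs, abs_of_pos (inv_pos.2 a), inv_mul_le_iff₀ a]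
    rw [div_le_iff₀ hε] at c
    exact (abel_h h0 ha u hu M h).trans c

end Pool.Agent.MP_154433_an.T3S

end
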