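import Pool.Agent.MP_154433_an.t3s.Basic

/-! Row Prod: the weighted averages vanish on products of asymptotic dual functions. -/

set_option autoImplicit false
set_option linter.unusedVariables false

open MeasureTheory Filter Topology Function
open scoped BigOperators

noncomputable section

namespace Pool.Agent.MP_154433_an.T3S

namespace Prodr

variable {X : Type} [MeasurableSpace X] {μ : Measure X} [IsProbabilityMeasure μ] {T : X ≃ᵐ X}
  {ι : Type} [Fintype ι]

lemma orbit {k : ℕ} {b : Fin k → ℤ} {H0 : ℕ} {u : X → ℂ} (hu : u ∈ CX T b H0) (x : X) :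
    (fun n => u (Tz T n x)) ∈ CZ b H0 := by
  refine convexHull_min (t := (LinearMap.funLeft ℝ ℂ fun n : ℤ => Tz T n x) ⁻¹' CZ b H0) ?_
    ((convex_convexHull ℝ _).linear_preimage _) hu
  rintro _ ⟨H, β, hH, hβ, rfl⟩
  refine subset_convexHull ℝ _ ⟨H, fun i τ m => β i τ (Tz T m x), hH,
    fun i τ => (hβ i τ).2.comp _, funext fun n => ?_⟩
  simp only [LinearMap.funLeft_apply, blk, sh, ← Tz_add, add_comm n]

lemma int_norm (w : ℕ → ℕ → ℝ) (r : ι → ℤ) {f : ι → X → ℂ} (hf : ∀ i, MB1 (f i)) (M : ℕ) (v : ℤ) :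
    Integrable (fun x => ‖wavg T w r f M (Tz T v x)‖) μ :=
  Integrable.of_bound
    ((wavg_meas T w r (fun i => (hf i).1) M).comp (Tz_meas T v)).norm.aestronglyMeasurable _
    (Eventually.of_forall fun x => by
      rw [norm_norm]; exact wavg_norm_le T w r (fun i => (hf i).2) M _)

lemma small (hT : MeasurePreserving T μ μ) {w : ℕ → ℕ → ℝ} {r : ι → ℤ} {u : ι → X → ℂ}
    (hu : ∀ i, MB1 (u i)) {M : ℕ} (hM : 1 ≤ M) {ε : ℝ}
    (h : ∀ x, ∑ n ∈ Finset.range M, ‖wavg T w r u M (Tz T n x)‖ ≤ ε * M) :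
    ∫ x, ‖wavg T w r u M x‖ ∂μ ≤ ε := by
  have h1 := integral_mono (μ := μ)
    (integrable_finsetSum (Finset.range M) fun (n : ℕ) _ => int_norm (T := T) w r hu M n)
    (integrable_const (ε * M)) h
  rw [integral_finsetSum _ fun (n : ℕ) _ => int_norm (T := T) w r hu M n, integral_const, probReal_univ,
    one_smul, Finset.sum_congr rfl fun (n : ℕ) _ => integral_Tz hT n
      (f := fun x => ‖wavg T w r u M x‖)
      (wavg_meas T w r (fun i => (hu i).1) M).norm.aestronglyMeasurable,
    Finset.sum_const, Finset.card_range, nsmul_eq_mul, mul_comm] at h1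
  exact le_of_mul_le_mul_right h1 (by exact_mod_cast hM)

lemma close (hT : MeasurePreserving T μ μ) (w : ℕ → ℕ → ℝ) (r : ι → ℤ) {D u : ι → X → ℂ}
    (hD : ∀ i, MB1 (D i)) (hu : ∀ i, MB1 (u i)) (M : ℕ) {δ : ℝ}
    (h : ∀ i, ∫ x, ‖D i x - u i x‖ ∂μ ≤ δ) :
    ∫ x, ‖wavg T w r D M x‖ ∂μ ≤ ∫ x, ‖wavg T w r u M x‖ ∂μ +
      (∑ d ∈ Finset.range M, |w M d|) * (Fintype.card ι * δ) := by
  have i0 : ∀ f : ι → X → ℂ, (∀ i, MB1 (f i)) → Integrable (fun x => ‖wavg T w r f M x‖) μ :=
    fun f hf => by simpa only [Tz_zero] using int_norm (μ := μ) (T := T) w r hf M 0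
  have i1 : ∀ (i : ι) (v : ℤ), Integrable (fun x => ‖D i (Tz T v x) - u i (Tz T v x)‖) μ :=
    fun i v => ((((hD i).tz T v).integrable μ).sub (((hu i).tz T v).integrable μ)).norm
  have i2 : ∀ d : ℕ, Integrable (fun x => |w M d| *
      ∑ i, ‖D i (Tz T (r i * d) x) - u i (Tz T (r i * d) x)‖) μ := fun d =>
    (integrable_finsetSum _ fun i _ => i1 i _).const_mul _
  have h1 := integral_mono (μ := μ) (i0 D hD)
    ((i0 u hu).add (integrable_finsetSum (Finset.range M) fun d _ => i2 d)) (fun x => by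
      have e : wavg T w r D M x = wavg T w r u M x + ∑ d ∈ Finset.range M, (w M d : ℂ) *
          (∏ i, D i (Tz T (r i * d) x) - ∏ i, u i (Tz T (r i * d) x)) := by
        simp only [wavg, ← Finset.sum_add_distrib]
        exact Finset.sum_congr rfl fun d _ => by ring
      simp only [Pi.add_apply]
      rw [e]
      refine (norm_add_le _ _).trans (add_le_add le_rfl ((norm_sum_le _ _).trans
        (Finset.sum_le_sum fun d _ => ?_)))
      rw [norm_mul, Complex.norm_real, Real.norm_eq_abs]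
      exact mul_le_mul_of_nonneg_left (norm_prod_sub_le _ (fun i => (hD i).2 _)
        fun i => (hu i).2 _) (abs_nonneg _))
  refine h1.trans ?_
  rw [integral_add' (i0 u hu) (integrable_finsetSum (Finset.range M) fun d _ => i2 d),
    integral_finsetSum _ fun d _ => i2 d, Finset.sum_mul]
  refine add_le_add le_rfl (Finset.sum_le_sum fun d _ => ?_)
  rw [integral_const_mul, integral_finsetSum _ fun i _ => i1 i _]
  refine mul_le_mul_of_nonneg_left ?_ (abs_nonneg _)
  refine (Finset.sum_le_sum fun i _ => (integral_Tz hT (r i * d)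
    (f := fun x => ‖D i x - u i x‖)
    ((hD i).1.sub (hu i).1).norm.aestronglyMeasurable).le.trans (h i)).trans ?_
  rw [Finset.sum_const, Finset.card_univ, nsmul_eq_mul]

end Prodr

theorem prodr : ProdS := by
  intro l w hS hB X _ μ _ T hT ι _ r D hD
  choose b hb hD using hD
  let e := Fintype.equivFin ι
  refine tendsto_order.2 ⟨fun a ha => Eventually.of_forall fun M =>
    ha.trans_le (integral_nonneg fun x => sq_nonneg _), fun a ha => ?_⟩
  have hε : 0 < a / 13 := by positivity
  filter_upwards [hS _ (r ∘ e.symm) (b ∘ e.symm) (fun t => hb _) _ hε, hB, eventually_ge_atTop 1]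
    with M h1 h2 h3
  have hJ : (0 : ℝ) < Fintype.card ι + 1 := by positivity
  choose u hu1 hu2 using fun t => (hD t).2 (M ^ 2) (a / 13 / (Fintype.card ι + 1))
    (div_pos hε hJ)
  have hu : ∀ i, MB1 (u i) := fun i => CX_MB1 (hu1 i)
  have h4 := Prodr.small (μ := μ) (w := w) (r := r) hT hu h3 (ε := a / 13) fun x => by
    refine le_trans (le_of_eq (Finset.sum_congr rfl fun n _ => ?_))
      (h1 (fun t n => u (e.symm t) (Tz T n x)) fun t => Prodr.orbit (hu1 _) x)
    refine congrArg _ (Finset.sum_congr rfl fun d _ => congrArg _ ?_)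
    rw [← e.symm.prod_comp]
    simp only [comp_apply, ← Tz_add, add_comm (n : ℤ)]
  have h5 := Prodr.close hT w r (fun i => (hD i).1) hu M hu2
  have h6 : (Fintype.card ι : ℝ) * (a / 13 / (Fintype.card ι + 1)) ≤ a / 13 := by
    rw [← mul_div_assoc, div_le_iff₀ hJ]
    nlinarith
  have h7 := mul_le_mul h2 h6 (by positivity) (by norm_num)
  have i0 : Integrable (fun x => ‖wavg T w r D M x‖) μ := by
    simpa only [Tz_zero] using Prodr.int_norm (μ := μ) (T := T) w r (fun i => (hD i).1) M 0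
  have h8 : ∫ x, ‖wavg T w r D M x‖ ^ 2 ∂μ ≤ ∫ x, 3 * ‖wavg T w r D M x‖ ∂μ :=
    integral_mono_of_nonneg (Eventually.of_forall fun x => sq_nonneg _) (i0.const_mul _)
      (Eventually.of_forall fun x => by
        have := (wavg_norm_le T w r (fun i => (hD i).1.2) M x).trans h2
        simp only
        nlinarith [norm_nonneg (wavg T w r D M x)])
  rw [integral_const_mul] at h8
  linarith

end Pool.Agent.MP_154433_an.T3S

end
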