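import Mathlib
import Pool.Agent.MP_154433_an.t3s.Basic

/-! Reduction to distinct nonzero exponents. -/

set_option autoImplicit false
set_option linter.unusedVariables false

open MeasureTheory ProbabilityTheory Filter Topology Function
open scoped BigOperators ComplexConjugate InnerProductSpace

noncomputable section

namespace Pool.Agent.MP_154433_an.T3S

namespace Red

variable {X ι : Type} [MeasurableSpace X] {μ : Measure X} [IsProbabilityMeasure μ] {T : X ≃ᵐ X}
  [Fintype ι] {w w' : ℕ → ℕ → ℝ} {r : ι → ℤ} {f : ι → X → ℂ}

lemma intg (hf : ∀ i, MB1 (f i)) (M : ℕ) : Integrable (fun x => ‖wavg T w r f M x‖ ^ 2) μ :=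
  Integrable.of_bound ((wavg_meas T w r (fun i => (hf i).1) M).norm.pow_const 2).aestronglyMeasurable
    ((∑ d ∈ Finset.range M, |w M d|) ^ 2) (Eventually.of_forall fun x => by
      rw [norm_pow, norm_norm]
      exact pow_le_pow_left₀ (norm_nonneg _) (wavg_norm_le T w r (fun i => (hf i).2) M x) 2)

lemma near (hn : Near w w') (hf : ∀ i, MB1 (f i)) (h : Van μ T w r f) : Van μ T w' r f := by
  have l := (h.const_mul 2).add ((hn.pow 2).const_mul 2)
  simp only [mul_zero, zero_add, zero_pow two_ne_zero] at l
  refine squeeze_zero (fun M => integral_nonneg fun x => sq_nonneg _) (fun M => ?_) l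
  refine (integral_mono (intg hf M) (((intg (w := w) (T := T) (r := r) hf M).const_mul 2).add
    (integrable_const (2 * (∑ d ∈ Finset.range M, |w M d - w' M d|) ^ 2))) fun x => ?_).trans ?_
  · have a := wavg_norm_le T (fun M d => w M d - w' M d) r (fun i => (hf i).2) M x
    have e : wavg T w' r f M x =
        wavg T w r f M x - wavg T (fun M d => w M d - w' M d) r f M x := by
      simp only [wavg, ← Finset.sum_sub_distrib, ← sub_mul, Complex.ofReal_sub, sub_sub_cancel]
    have b := pow_le_pow_left₀ (norm_nonneg _)
      (e ▸ (norm_sub_le _ _).trans (add_le_add le_rfl a)) 2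
    simp only [Pi.add_apply]
    nlinarith [sq_nonneg (‖wavg T w r f M x‖ - ∑ d ∈ Finset.range M, |w M d - w' M d|)]
  · simp only [Pi.add_apply]
    rw [integral_add ((intg hf M).const_mul 2) (integrable_const _), integral_const_mul]
    simp

end Red

open Red in
theorem red : RedS := by
  intro w w' hn h0 X _ μ _ T hT ℓ h k f hf
  let s := (Finset.univ.image k).erase 0
  let r : Fin s.card → ℤ := fun j => s.equivFin.symm j
  let F : ℤ → X → ℂ := fun v x => ∏ i ∈ Finset.univ.filter fun i => k i = v, f i x
  have hF : ∀ v, MB1 (F v) := fun v => MB1.prod _ fun i _ => hf i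
  have e : ∀ M x, wavg T w' k f M x = F 0 x * wavg T w' r (fun j => F (r j)) M x := fun M x => by
    simp only [wavg, Finset.mul_sum]
    refine Finset.sum_congr rfl fun d _ => ?_
    rw [mul_left_comm, ← Finset.prod_fiberwise_of_maps_to (t := insert 0 s) (g := k) fun i _ => ?_,
      Finset.prod_insert (Finset.notMem_erase _ _),
      (Equiv.prod_comp s.equivFin.symm fun v : s => F v (Tz T (v * d) x)).trans
        (Finset.prod_coe_sort s fun v => F v (Tz T (v * d) x))]
    · refine congrArg _ (congrArg₂ _ (Finset.prod_congr rfl fun i hi => ?_)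
        (Finset.prod_congr rfl fun v _ => Finset.prod_congr rfl fun i hi => ?_))
      · rw [(Finset.mem_filter.1 hi).2, zero_mul, Tz_zero]
      · rw [(Finset.mem_filter.1 hi).2]
    · rw [Finset.mem_insert, Finset.mem_erase]
      exact (em _).imp_right fun c => ⟨c, Finset.mem_image_of_mem _ (Finset.mem_univ i)⟩
  have v : Van μ T w' r fun j => F (r j) := by
    rcases Nat.eq_zero_or_pos s.card with c | c
    · have : IsEmpty (Fin s.card) := c ▸ inferInstanceAs (IsEmpty (Fin 0))
      have l := h0.pow 2
      rw [zero_pow two_ne_zero] at l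
      refine l.congr fun M => ?_
      simp only [wavg, Finset.univ_eq_empty, Finset.prod_empty, mul_one, ← Complex.ofReal_sum,
        Complex.norm_real, Real.norm_eq_abs, sq_abs]
      simp
    · refine near hn (fun j => hF _) (h _ c ?_ r
        (Subtype.val_injective.comp s.equivFin.symm.injective)
        (fun j => (Finset.mem_erase.1 (s.equivFin.symm j).2).1) _ fun j => hF _)
      exact Finset.card_erase_le.trans (Finset.card_image_le.trans (by simp))
  refine squeeze_zero (fun M => integral_nonneg fun x => sq_nonneg _) (fun M => ?_) v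
  refine integral_mono (intg hf M) (intg (fun j => hF _) M) fun x => ?_
  refine pow_le_pow_left₀ (norm_nonneg _) ?_ 2
  rw [e, norm_mul]
  exact mul_le_of_le_one_left (norm_nonneg _) ((hF 0).2 x)

end Pool.Agent.MP_154433_an.T3S

end
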