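import Mathlib
import Pool.Agent.MP_154433_an.t3s.Basic

/-! Averages over long boxes are almost invariant under short shifts. -/

set_option autoImplicit false
set_option linter.unusedVariables false

open MeasureTheory ProbabilityTheory Filter Topology Function
open scoped BigOperators ComplexConjugate InnerProductSpace

noncomputable section

namespace Pool.Agent.MP_154433_an.T3S

namespace Shift

lemma step (H : ℕ) {φ : ℤ → ℂ} (hφ : B1 φ) (s : ℤ) :
    ‖∑ a ∈ Finset.range H, φ (a + (s + 1)) - ∑ a ∈ Finset.range H, φ (a + s)‖ ≤ 2 := by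
  have e : ∑ a ∈ Finset.range H, φ (a + (s + 1)) - ∑ a ∈ Finset.range H, φ (a + s) =
      φ (H + s) - φ ((0 : ℕ) + s) := by
    rw [← Finset.sum_range_sub (fun a : ℕ => φ (a + s)), ← Finset.sum_sub_distrib]
    refine Finset.sum_congr rfl fun a _ => ?_
    congr 2
    push_cast
    ring
  rw [e]
  refine (norm_sub_le _ _).trans ?_
  linarith [hφ (H + s), hφ ((0 : ℕ) + s)]

lemma sums (H : ℕ) {φ : ℤ → ℂ} (hφ : B1 φ) (s : ℤ) :
    ‖∑ a ∈ Finset.range H, φ (a + s) - ∑ a ∈ Finset.range H, φ a‖ ≤ 2 * |(s : ℝ)| := by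
  induction s using Int.induction_on with
  | zero => simp
  | succ i ih =>
    refine (norm_sub_le_norm_sub_add_norm_sub _ (∑ a ∈ Finset.range H, φ (a + i)) _).trans ?_
    have h1 := step H hφ i
    have h0 : (0 : ℝ) ≤ i := Nat.cast_nonneg i
    push_cast at ih ⊢
    rw [abs_of_nonneg h0] at ih
    rw [abs_of_nonneg (by linarith)]
    linarith
  | pred i ih =>
    refine (norm_sub_le_norm_sub_add_norm_sub _ (∑ a ∈ Finset.range H, φ (a + -i)) _).trans ?_
    have h1 := step H hφ (-i - 1)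
    rw [norm_sub_rev, sub_add_cancel] at h1
    have h0 : (0 : ℝ) ≤ i := Nat.cast_nonneg i
    push_cast at ih ⊢
    rw [abs_neg, abs_of_nonneg h0] at ih
    rw [abs_of_nonpos (by linarith)]
    linarith

lemma one {H M : ℕ} (hH : 1 ≤ H) {φ : ℤ → ℂ} (hφ : B1 φ) {s : ℤ} (hs : |s| ≤ M) :
    ‖(𝔼 a : Fin H, φ (((a : ℕ) : ℤ) + s)) - 𝔼 a : Fin H, φ ((a : ℕ) : ℤ)‖ ≤ 2 * M / H := by
  have h0 : (0 : ℝ) < H := by exact_mod_cast hH
  have h1 : |(s : ℝ)| ≤ M := by exact_mod_cast hs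
  rw [Fintype.expect_eq_sum_div_card, Fintype.expect_eq_sum_div_card, Fintype.card_fin,
    Fin.sum_univ_eq_sum_range (fun a : ℕ => φ (a + s)), Fin.sum_univ_eq_sum_range (fun a : ℕ => φ a),
    ← sub_div, norm_div, Complex.norm_natCast]
  exact div_le_div_of_nonneg_right ((sums H hφ s).trans (by linarith)) h0.le

lemma exp_cons {k : ℕ} {A : Type} [Fintype A] (f : (Fin (k + 1) → A) → ℂ) :
    𝔼 h, f h = 𝔼 a : A, 𝔼 h : Fin k → A, f (Fin.cons a h) := by
  rw [← Fintype.expect_equiv (Fin.consEquiv fun _ => A) (fun x => f (Fin.cons x.1 x.2)) f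
    fun x => rfl, ← Finset.univ_product_univ, Finset.expect_product]

lemma box {H M : ℕ} (hH : 1 ≤ H) (k : ℕ) : ∀ (Φ : (Fin k → ℤ) → ℂ), B1 Φ → ∀ s : Fin k → ℤ,
    (∀ j, |s j| ≤ M) →
    ‖(𝔼 h : Fin k → Fin H, Φ fun j => ((h j : ℕ) : ℤ) + s j) -
      𝔼 h : Fin k → Fin H, Φ fun j => ((h j : ℕ) : ℤ)‖ ≤ 2 * k * M / H := by
  induction k with
  | zero =>
    intro Φ _ s _
    have e : ∀ h : Fin 0 → Fin H, (fun j => ((h j : ℕ) : ℤ) + s j) = fun j => ((h j : ℕ) : ℤ) :=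
      fun h => Subsingleton.elim _ _
    simp [e]
  | succ k ih =>
    intro Φ hΦ s hs
    have e1 : ∀ (a : Fin H) (h : Fin k → Fin H),
        (fun j => (((Fin.cons a h : Fin (k + 1) → Fin H) j : ℕ) : ℤ) + s j) =
          Fin.cons (((a : ℕ) : ℤ) + s 0) fun j => ((h j : ℕ) : ℤ) + s j.succ := fun a h =>
      funext fun j => Fin.cases rfl (fun _ => rfl) j
    have e2 : ∀ (a : Fin H) (h : Fin k → Fin H),
        (fun j => (((Fin.cons a h : Fin (k + 1) → Fin H) j : ℕ) : ℤ)) =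
          Fin.cons ((a : ℕ) : ℤ) fun j => ((h j : ℕ) : ℤ) := fun a h =>
      funext fun j => Fin.cases rfl (fun _ => rfl) j
    rw [exp_cons, exp_cons]
    simp only [e1, e2]
    refine (norm_sub_le_norm_sub_add_norm_sub _ (𝔼 a : Fin H, 𝔼 h : Fin k → Fin H,
      Φ (Fin.cons (((a : ℕ) : ℤ) + s 0) fun j => ((h j : ℕ) : ℤ))) _).trans ?_
    have h1 : ‖(𝔼 a : Fin H, 𝔼 h : Fin k → Fin H,
        Φ (Fin.cons (((a : ℕ) : ℤ) + s 0) fun j => ((h j : ℕ) : ℤ) + s j.succ)) -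
        𝔼 a : Fin H, 𝔼 h : Fin k → Fin H,
          Φ (Fin.cons (((a : ℕ) : ℤ) + s 0) fun j => ((h j : ℕ) : ℤ))‖ ≤ 2 * k * M / H := by
      rw [← Finset.expect_sub_distrib]
      exact norm_exp_le_of (by positivity) fun a _ =>
        ih (fun τ => Φ (Fin.cons (((a : ℕ) : ℤ) + s 0) τ)) (hΦ.comp _) _ fun j => hs _
    have h2 : ‖(𝔼 a : Fin H, 𝔼 h : Fin k → Fin H,
        Φ (Fin.cons (((a : ℕ) : ℤ) + s 0) fun j => ((h j : ℕ) : ℤ))) -
        𝔼 a : Fin H, 𝔼 h : Fin k → Fin H,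
          Φ (Fin.cons ((a : ℕ) : ℤ) fun j => ((h j : ℕ) : ℤ))‖ ≤ 2 * M / H := by
      rw [Finset.expect_comm, Finset.expect_comm (Finset.univ : Finset (Fin H)),
        ← Finset.expect_sub_distrib]
      exact norm_exp_le_of (by positivity) fun h _ =>
        one hH (φ := fun z => Φ (Fin.cons z fun j => ((h j : ℕ) : ℤ))) (hΦ.comp _) (hs 0)
    refine (add_le_add h1 h2).trans (le_of_eq ?_)
    push_cast
    ring

end Shift

theorem shift : ShiftS := by
  intro k H M Ψ hH hM hΨ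
  have : Nonempty (Fin M) := ⟨⟨0, hM⟩⟩
  have h0 : (0 : ℝ) ≤ 4 * k * M / H := by positivity
  rw [← Finset.expect_sub_distrib]
  refine norm_exp_le_of h0 fun h _ => ?_
  rw [Finset.expect_comm (Finset.univ : Finset (Fin k → Fin H)),
    ← Fintype.expect_const (ι := Fin k → Fin M) (𝔼 h' : Fin k → Fin H, Ψ (dif h h')),
    ← Finset.expect_sub_distrib]
  refine norm_exp_le_of h0 fun u _ => ?_
  rw [Finset.expect_comm (Finset.univ : Finset (Fin k → Fin H)),
    ← Fintype.expect_const (ι := Fin k → Fin M) (𝔼 h' : Fin k → Fin H, Ψ (dif h h')),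
    ← Finset.expect_sub_distrib]
  refine norm_exp_le_of h0 fun u' _ => ?_
  have h1 := Shift.box (M := M) hH k (fun τ => Ψ fun j => τ j - ((h j : ℕ) : ℤ)) (hΨ.comp _)
    (dif u u') fun j => by
      have := (u j).2
      have := (u' j).2
      rw [dif, abs_le]
      omega
  have e : ∀ h' : Fin k → Fin H,
      (fun j => ((h' j : ℕ) : ℤ) + dif u u' j - ((h j : ℕ) : ℤ)) = dif h h' + dif u u' := fun h' =>
    funext fun j => by
      simp only [dif, Pi.add_apply]
      ring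
  simp only [e] at h1
  rw [norm_sub_rev]
  refine h1.trans ?_
  gcongr
  norm_num

end Pool.Agent.MP_154433_an.T3S
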