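import Pool.Agent.MP_154433_an.t3s.Basic

/-! Small sets on which all nontrivial characters have small mean. -/

set_option autoImplicit false

open scoped BigOperators

noncomputable section

namespace Pool.Agent.MP_154433_an.T3S

namespace Tset

lemma exp_le {y : ℝ} (h : |y| ≤ 1) : Real.exp y ≤ 1 + y + y ^ 2 := by
  have := (abs_le.1 (Real.abs_exp_sub_one_sub_id_le h)).2
  linarith

lemma greedy {G P : Type} [Fintype G] [Nonempty G] [Fintype P] (a : P → G → ℝ)
    (h1 : ∀ p x, |a p x| ≤ 1) (h2 : ∀ p, ∑ x, a p x = 0) {s : ℝ} (s0 : 0 ≤ s) (s1 : s ≤ 1)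
    (n : ℕ) : ∃ t : Fin n → G,
      ∑ p, Real.exp (s * ∑ j, a p (t j) - n * s ^ 2) ≤ Fintype.card P := by
  induction n with
  | zero => exact ⟨Fin.elim0, by simp⟩
  | succ n ih =>
    obtain ⟨t, ht⟩ := ih
    have key : ∀ p, ∑ x, Real.exp (s * a p x - s ^ 2) ≤ ∑ _x : G, (1 : ℝ) := fun p => by
      have e1 : ∀ x, Real.exp (s * a p x - s ^ 2) ≤
          (1 + s * a p x + s ^ 2) * Real.exp (-s ^ 2) := fun x => by
        rw [sub_eq_add_neg, Real.exp_add]
        refine mul_le_mul_of_nonneg_right ((exp_le ?_).trans ?_) (Real.exp_pos _).le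
        · rw [abs_mul, abs_of_nonneg s0]
          exact mul_le_one₀ s1 (abs_nonneg _) (h1 p x)
        · have := (sq_le_one_iff_abs_le_one _).2 (h1 p x)
          nlinarith [sq_nonneg s]
      refine (Finset.sum_le_sum fun x _ => e1 x).trans ?_
      rw [← Finset.sum_mul, Finset.sum_add_distrib, Finset.sum_add_distrib, ← Finset.mul_sum, h2,
        mul_zero, add_zero, ← Finset.sum_add_distrib, Finset.sum_mul]
      refine Finset.sum_le_sum fun x _ => ?_
      rw [Real.exp_neg, ← div_eq_mul_inv, div_le_one (Real.exp_pos _)]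
      linarith [Real.add_one_le_exp (s ^ 2)]
    obtain ⟨x, -, hx⟩ := Finset.exists_le_of_sum_le (s := Finset.univ) Finset.univ_nonempty
      (f := fun x : G => ∑ p, Real.exp (s * ∑ j, a p (t j) - n * s ^ 2) *
        Real.exp (s * a p x - s ^ 2))
      (g := fun _ => ∑ p, Real.exp (s * ∑ j, a p (t j) - n * s ^ 2)) (by
        rw [Finset.sum_comm, Finset.sum_comm (s := (Finset.univ : Finset G))]
        refine Finset.sum_le_sum fun p _ => ?_
        rw [← Finset.mul_sum]
        refine (mul_le_mul_of_nonneg_left (key p) (Real.exp_pos _).le).trans (le_of_eq ?_)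
        rw [Finset.mul_sum]
        simp)
    refine ⟨Fin.cons x t, le_trans (le_of_eq ?_) (hx.trans ht)⟩
    refine Finset.sum_congr rfl fun p _ => ?_
    rw [← Real.exp_add, Fin.sum_univ_succ]
    simp only [Fin.cons_zero, Fin.cons_succ]
    congr 1
    push_cast
    ring

end Tset

open Tset in
theorem tset : TsetS := by
  classical
  intro lam hl
  obtain ⟨s, s0, s1, s2⟩ : ∃ s : ℝ, 0 < s ∧ s ≤ 1 ∧ 2 * s ≤ lam :=
    ⟨min lam 1 / 2, by positivity, by linarith [min_le_right lam 1],
      by linarith [min_le_left lam 1]⟩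
  refine ⟨1 / s ^ 2 + 1, by positivity, fun G _ _ => ?_⟩
  have hL : 1 ≤ LG G := one_le_LG
  have hN : (0 : ℝ) < Fintype.card G := by exact_mod_cast Fintype.card_pos
  obtain ⟨t, ht⟩ := greedy (G := G) (P := {χ : AddChar G ℂ // χ ≠ 0} × Bool)
    (fun p x => (bif p.2 then 1 else -1) * (p.1.1 x).re)
    (fun p x => by
      have := (Complex.abs_re_le_norm (p.1.1 x)).trans (AddChar.norm_apply _ _).le
      rcases p with ⟨χ, _ | _⟩ <;> simpa using this)
    (fun p => by
      rw [← Finset.mul_sum, ← Complex.re_sum, AddChar.sum_eq_zero_iff_ne_zero.2 p.1.2]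
      simp) s0.le s1 ⌈LG G / s ^ 2⌉₊
  have hq : 0 < LG G / s ^ 2 := by positivity
  have n0 : 0 < ⌈LG G / s ^ 2⌉₊ := Nat.ceil_pos.2 hq
  have n1 := Nat.le_ceil (LG G / s ^ 2)
  have n2 := Nat.ceil_lt_add_one hq.le
  refine ⟨_, t, n0, ?_, fun χ hχ => ?_⟩
  · rw [add_mul, one_div_mul_eq_div]
    linarith
  generalize ⌈LG G / s ^ 2⌉₊ = n at *
  have n3 : (0 : ℝ) < n := by exact_mod_cast n0
  have hc : (Fintype.card ({χ : AddChar G ℂ // χ ≠ 0} × Bool) : ℝ) ≤ Real.exp (LG G) := by
    have c1 : Fintype.card {χ : AddChar G ℂ // χ ≠ 0} ≤ Fintype.card G :=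
      (Fintype.card_subtype_le _).trans AddChar.card_eq.le
    have c2 : (Fintype.card {χ : AddChar G ℂ // χ ≠ 0} : ℝ) ≤ Fintype.card G := by
      exact_mod_cast c1
    rw [Fintype.card_prod, Fintype.card_bool, LG, Real.exp_add, Real.exp_log hN]
    push_cast
    exact mul_le_mul c2 (by linarith [Real.add_one_le_exp 1]) (by norm_num) hN.le
  have key : ∀ e : Bool, ∑ j, (bif e then 1 else -1) * (χ (t j)).re ≤ lam * n := fun e => by
    have h1 := Real.exp_le_exp.1 ((Finset.single_le_sum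
      (f := fun p : {χ : AddChar G ℂ // χ ≠ 0} × Bool => Real.exp
        (s * ∑ j, (bif p.2 then 1 else -1) * (p.1.1 (t j)).re - n * s ^ 2))
      (fun _ _ => (Real.exp_pos _).le) (Finset.mem_univ (⟨χ, hχ⟩, e))).trans (ht.trans hc))
    rw [div_le_iff₀ (by positivity)] at n1
    refine le_of_mul_le_mul_left ?_ s0
    have := mul_le_mul_of_nonneg_right s2 (mul_pos s0 n3).le
    dsimp only at h1
    nlinarith
  have k1 := key true
  have k2 := key false
  simp only [cond_true, cond_false, one_mul, neg_mul, Finset.sum_neg_distrib] at k1 k2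
  rw [re_exp, Finset.expect_eq_sum_div_card, Finset.card_univ, Fintype.card_fin, abs_div,
    abs_of_pos n3, div_le_iff₀ n3]
  exact abs_le.2 ⟨by linarith, k1⟩

end Pool.Agent.MP_154433_an.T3S

end
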