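import Mathlib
import Pool.Agent.MP_154433_an.Main
import Pool.Agent.MP_154433_an.t3s.Basic

/-! The union bound over families of quasi-polynomial size. -/

set_option autoImplicit false
set_option linter.unusedVariables false

open MeasureTheory ProbabilityTheory Filter Topology Function
open scoped BigOperators ComplexConjugate InnerProductSpace

noncomputable section

namespace Pool.Agent.MP_154433_an.T3S

namespace Ub

lemma log1 : ∀ᶠ M : ℕ in atTop, 1 ≤ Real.log M :=
  (Real.tendsto_log_atTop.comp tendsto_natCast_atTop_atTop).eventually_ge_atTop 1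

lemma one {Ω : Type} [MeasurableSpace Ω] {P : Measure Ω} [IsProbabilityMeasure P] {σ : ℕ → ℝ}
    (hσ : ∀ n, 0 ≤ σ n ∧ σ n ≤ 1) {E : ℕ → Set Ω} (hE : ∀ n, MeasurableSet (E n))
    (hind : iIndepSet E P) (hP : ∀ n, P (E n) = ENNReal.ofReal (σ n)) {l : ℕ} (hl : 1 ≤ l)
    (hg : Gr σ l) {C : ℝ} {S : ℕ → Finset (ℕ → ℂ)} (hb : ∀ M, ∀ c ∈ S M, B1 c)
    (hS : ∀ M, 1 ≤ M → ((S M).card : ℝ) ≤ Real.exp (C * (Real.log M + 1) ^ l)) {ε : ℝ}
    (h0 : 0 < ε) (h1 : ε ≤ 1) (θ : ℂ) (hθ : ‖θ‖ = 1) :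
    ∀ᵐ ω ∂P, ∀ᶠ M in atTop, ∀ c ∈ S M, ∑ k ∈ Finset.range M,
      ((E k).indicator (fun _ => (1 : ℝ)) ω - σ k) * (θ * c k).re ≤ ε * Wt σ M := by
  let B : ℕ → Set Ω := fun M => ⋃ c ∈ S M, {ω | ε * ∑ k ∈ Finset.range M, σ k ≤
      ∑ k ∈ Finset.range M, ((E k).indicator (fun _ => (1 : ℝ)) ω - σ k) * (θ * c k).re}
  have hB : ∀ᶠ M in atTop, P.real (B M) ≤ 1 / (M : ℝ) ^ 2 := by
    filter_upwards [hg.eventually_ge_atTop (4 * (|C| * 2 ^ l + 2) / ε ^ 2), eventually_ge_atTop 1,
      log1] with M hM hM1 hL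
    have hM0 : (0 : ℝ) < M := by exact_mod_cast hM1
    have x1 : Real.log M ≤ Real.log M ^ l := le_self_pow₀ hL (by omega)
    have x2 : C * (Real.log M + 1) ^ l ≤ |C| * 2 ^ l * Real.log M ^ l := by
      rw [mul_assoc, ← mul_pow]
      exact mul_le_mul (le_abs_self C) (pow_le_pow_left₀ (by linarith) (by linarith) l)
        (by positivity) (abs_nonneg C)
    rw [div_le_div_iff₀ (by positivity) (by positivity), Wt] at hM
    refine (measureReal_biUnion_finset_le _ _).trans ?_
    refine (Finset.sum_le_card_nsmul _ _ _ fun c hc => MP_154433_an.tail hσ hE hind hP (fun k =>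
      (Complex.abs_re_le_norm _).trans (by rw [norm_mul, hθ, one_mul]; exact hb M c hc k))
      M h0.le h1).trans ?_
    rw [nsmul_eq_mul]
    refine (mul_le_mul_of_nonneg_right (hS M hM1) (Real.exp_pos _).le).trans ?_
    rw [← Real.exp_add]
    refine (Real.exp_le_exp.2 (show _ ≤ -(2 * Real.log M) by linarith)).trans (le_of_eq ?_)
    rw [Real.exp_neg, two_mul, Real.exp_add, Real.exp_log hM0, one_div, sq]
  have hsum : Summable fun M => P.real (B M) := by
    refine Summable.of_norm_bounded_eventually_nat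
      (Real.summable_one_div_nat_pow.2 one_lt_two) ?_
    filter_upwards [hB] with M hM
    rwa [Real.norm_eq_abs, abs_of_nonneg measureReal_nonneg]
  have hne : ∑' M, P (B M) ≠ ⊤ := by
    have : ∀ M, P (B M) = ENNReal.ofReal (P.real (B M)) := fun M =>
      (ofReal_measureReal (measure_ne_top _ _)).symm
    simp only [this]
    rw [← ENNReal.ofReal_tsum_of_nonneg (fun _ => measureReal_nonneg) hsum]
    exact ENNReal.ofReal_ne_top
  filter_upwards [ae_eventually_notMem hne] with ω hω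
  filter_upwards [hω] with M hM c hc
  simp only [B, Set.mem_iUnion, not_exists, Set.mem_ofPred_eq, not_le] at hM
  exact (hM c hc).le

end Ub

theorem ub : UbS := by
  intro σ hσ Ω _ P _ E hE hind hP l hl hg C S hb hS ε hε
  have h0 : 0 < min (ε / 2) 1 := lt_min (half_pos hε) one_pos
  have h := Ub.one hσ hE hind hP hl hg hb hS h0 (min_le_right _ _)
  filter_upwards [h 1 (by simp), h (-1) (by simp), h Complex.I (by simp), h (-Complex.I) (by simp)]
    with ω a1 a2 a3 a4
  filter_upwards [a1, a2, a3, a4, hg.eventually_ge_atTop 1, Ub.log1] with M b1 b2 b3 b4 hM hL c hc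
  have hW : 0 < Wt σ M := by
    have : 0 < Real.log M ^ l := by positivity
    rw [le_div_iff₀ this] at hM
    linarith
  have key : ∀ θ : ℂ, ∑ k ∈ Finset.range M, ((E k).indicator (fun _ => (1 : ℝ)) ω - σ k) *
      (θ * c k).re ≤ min (ε / 2) 1 * Wt σ M →
      (θ * ∑ d ∈ Finset.range M, (yw σ (fun m => ω ∈ E m) M d : ℂ) * c d).re ≤ ε / 2 := by
    intro θ hθ
    refine le_trans (le_of_eq_of_le ?_ ((div_le_iff₀ hW).2 hθ)) (min_le_left _ _)
    rw [Finset.mul_sum, Complex.re_sum, Finset.sum_div]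
    refine Finset.sum_congr rfl fun k _ => ?_
    rw [mul_left_comm, Complex.re_ofReal_mul, yw, div_mul_eq_mul_div]
    by_cases hk : ω ∈ E k <;> simp [ind, hk]
  have c1 := key _ (b1 c hc)
  have c2 := key _ (b2 c hc)
  have c3 := key _ (b3 c hc)
  have c4 := key _ (b4 c hc)
  simp only [one_mul, neg_mul, Complex.neg_re, Complex.mul_re, Complex.I_re, Complex.I_im, zero_mul,
    zero_sub, neg_neg] at c1 c2 c3 c4
  refine (Complex.norm_le_abs_re_add_abs_im _).trans ?_
  have := abs_le.2 ⟨neg_le.1 c2, c1⟩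
  have := abs_le.2 ⟨neg_le.1 c3, c4⟩
  linarith

end Pool.Agent.MP_154433_an.T3S

end
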