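import Mathlib
import Pool.Agent.MP_154433_an.t3s.Basic

/-! The factor generated by dual functions has the uniformity property. -/

set_option autoImplicit false
set_option linter.unusedVariables false

open MeasureTheory ProbabilityTheory Filter Topology Function
open scoped BigOperators ComplexConjugate InnerProductSpace

noncomputable section

namespace Pool.Agent.MP_154433_an.T3S

namespace UnifAux

lemma int_zero {X : Type} {B m0 : MeasurableSpace X} {μ : Measure X} [IsProbabilityMeasure μ]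
    (hB : B ≤ m0) {g D : X → ℂ} (hg : MB1 g) (hD : MB1 D) (hDB : Measurable[B] D)
    (h0 : μ[g | B] =ᵐ[μ] 0) : ∫ x, g x * D x ∂μ = 0 := by
  have h1 := condExp_bilin_of_stronglyMeasurable_right (μ := μ) (m := B)
    (ContinuousLinearMap.mul ℝ ℂ) (f := g) (g := D) hDB.stronglyMeasurable
    ((hg.mul hD).integrable μ) (hg.integrable μ)
  have h2 : μ[fun x => g x * D x | B] =ᵐ[μ] 0 := by
    filter_upwards [h1, h0] with x a b
    simp only [ContinuousLinearMap.mul_apply'] at a
    rw [a, b]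
    simp
  rw [← integral_condExp hB, integral_congr_ae h2]
  simp

lemma le_pow_div {t s : ℝ} (ht : 0 ≤ t) (hs : 0 < s) (m : ℕ) :
    t ≤ s + t ^ (m + 1) / s ^ m := by
  rcases le_or_gt t s with h | h
  · have : 0 ≤ t ^ (m + 1) / s ^ m := by positivity
    linarith
  · have h1 : s ^ m ≤ t ^ m := pow_le_pow_left₀ hs.le h.le m
    have h2 : t ≤ t ^ (m + 1) / s ^ m := by
      rw [le_div_iff₀ (by positivity), pow_succ']
      exact mul_le_mul_of_nonneg_left h1 ht
    linarith

lemma sum_eq (H : ℕ) (hH : 1 ≤ H) (q : ℕ → ℕ → ℝ) :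
    ∑ n ∈ Finset.range H, ∑ n' ∈ Finset.range H, q n n' =
      (𝔼 h : Fin H, 𝔼 h' : Fin H, q h' h) * H ^ 2 := by
  have hH' : (H : ℝ) ≠ 0 := by
    have : (0 : ℝ) < H := by exact_mod_cast hH
    exact this.ne'
  simp only [Finset.expect_eq_sum_div_card, Finset.card_univ, Fintype.card_fin]
  rw [Finset.sum_comm, ← Finset.sum_div,
    Fin.sum_univ_eq_sum_range (fun n' => ∑ h' : Fin H, q h' n') H]
  have e : ∀ n', ∑ h' : Fin H, q h' n' = ∑ n ∈ Finset.range H, q n n' := fun n' =>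
    Fin.sum_univ_eq_sum_range (fun n => q n n') H
  simp only [e]
  field_simp

lemma wavg_eq {X : Type} [MeasurableSpace X] (T : X ≃ᵐ X) (w : ℕ → ℕ → ℝ) {l : ℕ}
    (r : Fin (l + 1) → ℤ) (i0 : Fin (l + 1)) (c : Fin (l + 1) → X → ℂ) (F : X → ℂ) (M : ℕ) :
    wavg T w r (update c i0 F) M =
      wavg T w (Fin.cons (r i0) fun j : Fin l => r (i0.succAbove j) : Fin (l + 1) → ℤ)
        (Fin.cons F fun j : Fin l => c (i0.succAbove j) : Fin (l + 1) → X → ℂ) M := by
  funext x
  simp only [wavg]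
  refine Finset.sum_congr rfl fun d _ => ?_
  rw [Fin.prod_univ_succAbove _ i0, Fin.prod_univ_succ]
  simp only [update_self, Fin.cons_zero, Fin.cons_succ,
    update_of_ne (Fin.succAbove_ne i0 _)]

end UnifAux

open UnifAux

theorem unif (h1 : FacS) (h2 : ZeroS) (h3 : GvnS) : UnifS := by
  intro w hw hinv X _ μ _ T hT l r hr hr0 i0 g hg h0 ε hε
  obtain ⟨l, rfl⟩ : ∃ l', l = l' + 1 := ⟨l - 1, by have := i0.pos; omega⟩
  obtain ⟨m, hm⟩ : ∃ m, 2 ^ l = m + 1 := ⟨2 ^ l - 1, by have := Nat.two_pow_pos l; omega⟩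
  obtain ⟨hF, hD⟩ := h1 (l + 1) X μ T hT
  let b' : Fin (l + 1) → ℤ := Fin.cons (r i0) fun j : Fin l => r i0 - r (i0.succAbove j)
  let b : Fin (l + 1 + 1) → ℤ := Fin.cons 1 b'
  have hb : ∀ i, b i ≠ 0 := by
    intro i
    refine Fin.cases ?_ (fun i => ?_) i
    · simp [b]
    · refine Fin.cases ?_ (fun j => ?_) i
      · simpa [b, b'] using hr0 i0
      · simp only [b, b', Fin.cons_succ]
        intro e
        exact Fin.succAbove_ne i0 j (hr (sub_eq_zero.1 e)).symm
  have hs : 0 < ε / 2 := by positivity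
  have hsm : 0 < (ε / 2) ^ m := by positivity
  obtain ⟨H, hH, hQ⟩ := h2 X μ T hT (l + 1 + 1) b g hg
    (fun D hD' => int_zero hF.1 hg hD'.1 (hD b hb D hD') h0) (ε / 2 * (ε / 2) ^ m) (by positivity)
  let q : ℕ → ℕ → ℝ := fun n n' => QX μ T H (l + 1) b' (ddX T ((n : ℤ) - (n' : ℤ)) g)
  have hq : QX μ T H (l + 1 + 1) b g = 𝔼 h : Fin H, 𝔼 h' : Fin H, q h' h := by
    rw [QX]
    simp only [b, q, Fin.cons_zero, Fin.tail_cons, one_mul]
  refine ⟨H, fun n n' => ε / 2 + q n n' / (ε / 2) ^ m, hH, ?_, ?_⟩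
  · simp only [Finset.sum_add_distrib, Finset.sum_const, Finset.card_range, nsmul_eq_mul,
      ← Finset.sum_div]
    rw [sum_eq H hH q, ← hq]
    have h4 : QX μ T H (l + 1 + 1) b g * H ^ 2 / (ε / 2) ^ m ≤ ε / 2 * H ^ 2 := by
      rw [div_le_iff₀ hsm]
      have := mul_le_mul_of_nonneg_right hQ (sq_nonneg (H : ℝ))
      linarith
    linarith
  · intro n n' c hc η hη
    let F : X → ℂ := fun y => g (Tz T n y) * conj (g (Tz T n' y))
    have hFm : MB1 F := (hg.tz T n).mul (hg.tz T n').cj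
    have hFe : F = fun y => ddX T ((n : ℤ) - (n' : ℤ)) g (Tz T n' y) := by
      funext y
      simp only [F, ddX, ← Tz_add, sub_add_cancel]
    have hf : ∀ i, MB1 ((Fin.cons F fun j : Fin l => c (i0.succAbove j) :
        Fin (l + 1) → X → ℂ) i) := by
      intro i
      refine Fin.cases ?_ (fun j => ?_) i
      · exact hFm
      · exact hc _
    filter_upwards [h3 w hw hinv X μ T hT H hH l
      (Fin.cons (r i0) fun j : Fin l => r (i0.succAbove j) : Fin (l + 1) → ℤ) _ hf
      (η * (ε / 2) ^ m) (by positivity)] with M hM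
    simp only [Fin.cons_zero, Fin.cons_succ] at hM
    rw [← wavg_eq, hm] at hM
    have h5 : QX μ T H (l + 1) b' F = q n n' := by
      rw [hFe]
      exact QX_tz hT H (l + 1) b' n' (hg.ddX T _)
    have h6 := le_pow_div (t := ∫ x, ‖wavg T w r (update c i0 F) M x‖ ^ 2 ∂μ)
      (integral_nonneg fun x => sq_nonneg _) hs m
    have h7 : (∫ x, ‖wavg T w r (update c i0 F) M x‖ ^ 2 ∂μ) ^ (m + 1) / (ε / 2) ^ m ≤
        q n n' / (ε / 2) ^ m + η := by
      rw [div_le_iff₀ hsm, add_mul, div_mul_cancel₀ _ hsm.ne', ← h5]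
      exact hM
    exact h6.trans (by linarith)

end Pool.Agent.MP_154433_an.T3S

end
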