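import Mathlib
import Pool.Agent.MP_154433_an.t3s.Basic

/-! A von Neumann type inequality by Fourier analysis on a cyclic group. -/

set_option autoImplicit false
set_option linter.unusedVariables false

open MeasureTheory ProbabilityTheory Filter Topology Function
open scoped BigOperators ComplexConjugate InnerProductSpace

noncomputable section

namespace Pool.Agent.MP_154433_an.T3S

namespace Vn

variable {G E : Type} [AddCommGroup G] [Fintype G] [NormedAddCommGroup E] [InnerProductSpace ℂ E]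

lemma plan (u : G → E) : ∑ χ : AddChar G ℂ, ‖∑ z, χ (-z) • u z‖ ^ 2 =
    Fintype.card G * ∑ z, ‖u z‖ ^ 2 := by
  classical
  have h : ∑ χ : AddChar G ℂ, ⟪∑ z, χ (-z) • u z, ∑ z, χ (-z) • u z⟫_ℂ =
      Fintype.card G * ∑ z, ⟪u z, u z⟫_ℂ := by
    simp only [sum_inner, inner_sum, inner_smul_left, inner_smul_right, ← AddChar.map_neg_eq_conj,
      Finset.mul_sum, ← mul_assoc, ← AddChar.map_add_eq_mul]
    rw [Finset.sum_comm]
    refine Finset.sum_congr rfl fun z _ => ?_
    rw [Finset.sum_comm]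
    simp only [← Finset.sum_mul, AddChar.sum_apply_eq_ite, neg_neg, neg_add_eq_zero, ite_mul,
      zero_mul, Finset.sum_ite_eq, Finset.mem_univ, if_true]
  simp only [inner_self_eq_norm_sq_to_K] at h
  apply RCLike.ofReal_injective (K := ℂ)
  push_cast
  exact h

lemma conv {ι : Type} (s : Finset ι) (w : ι → ℂ) (a : ι → G) (u : G → E) {τ : ℝ}
    (h : ∀ χ : AddChar G ℂ, ‖∑ d ∈ s, w d * χ (a d)‖ ≤ τ) :
    ∑ z, ‖∑ d ∈ s, w d • u (z + a d)‖ ^ 2 ≤ τ ^ 2 * ∑ z, ‖u z‖ ^ 2 := by
  have c : (0 : ℝ) < Fintype.card G := by exact_mod_cast Fintype.card_pos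
  refine le_of_mul_le_mul_left ?_ c
  rw [← plan, mul_left_comm, ← plan, Finset.mul_sum]
  refine Finset.sum_le_sum fun χ _ => ?_
  have e : ∑ z, χ (-z) • ∑ d ∈ s, w d • u (z + a d) =
      (∑ d ∈ s, w d * χ (a d)) • ∑ z, χ (-z) • u z := by
    simp only [Finset.smul_sum, Finset.sum_smul]
    rw [Finset.sum_comm, Finset.sum_comm (s := Finset.univ)]
    refine Finset.sum_congr rfl fun d _ => Fintype.sum_equiv (Equiv.addRight (a d)) _ _ fun z => ?_
    rw [Equiv.coe_addRight, smul_smul, smul_smul, mul_assoc, ← AddChar.map_add_eq_mul, mul_comm,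
      neg_add_rev, add_neg_cancel_left]
  rw [e, norm_smul, mul_pow]
  exact mul_le_mul_of_nonneg_right (pow_le_pow_left₀ (norm_nonneg _) (h χ) 2) (sq_nonneg _)

lemma it_norm (V : E ≃ₗᵢ[ℂ] E) (n : ℕ) (v : E) : ‖(⇑V)^[n] v‖ = ‖v‖ := by
  induction n with
  | zero => rfl
  | succ n ih => rw [iterate_succ_apply', V.norm_map, ih]

lemma it_sum (V : E ≃ₗᵢ[ℂ] E) {ι : Type} (s : Finset ι) (w : ι → ℂ) (x : ι → E) (n : ℕ) :
    ∑ d ∈ s, w d • (⇑V)^[n] (x d) = (⇑V)^[n] (∑ d ∈ s, w d • x d) := by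
  induction n with
  | zero => rfl
  | succ n ih => simp only [iterate_succ_apply', ← ih, map_sum, map_smul]

end Vn

open Vn in
theorem vn : VnS := by
  intro E _ _ V M w τ v hM h
  have : NeZero (2 * M) := ⟨by omega⟩
  have t0 : 0 ≤ τ := (norm_nonneg _).trans (h 0)
  have a := conv (Finset.range M) (fun d => (w d : ℂ)) (fun d => (d : ZMod (2 * M)))
    (fun z => (⇑V)^[z.val] v) h
  generalize hx : ∑ d ∈ Finset.range M, (w d : ℂ) • (⇑V)^[d] v = x
  have b : ∑ n ∈ Finset.range M, ‖x‖ ^ 2 ≤ ∑ z : ZMod (2 * M),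
      ‖∑ d ∈ Finset.range M, (w d : ℂ) • (⇑V)^[(z + (d : ZMod (2 * M))).val] v‖ ^ 2 := by
    have vl : ∀ n < 2 * M, (n : ZMod (2 * M)).val = n := fun n => ZMod.val_cast_of_lt
    refine le_trans (le_of_eq ?_) (Finset.sum_le_univ_sum_of_nonneg
      (s := (Finset.range M).image fun n : ℕ => (n : ZMod (2 * M))) fun _ => sq_nonneg _)
    rw [Finset.sum_image fun n hn m hm e => by
      rw [← vl n (by have := Finset.mem_range.1 hn; omega), e,
        vl m (by have := Finset.mem_range.1 hm; omega)]]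
    refine Finset.sum_congr rfl fun n hn => ?_
    rw [← it_norm V n x, ← hx, ← it_sum]
    refine congrArg (fun y => ‖y‖ ^ 2) (Finset.sum_congr rfl fun d hd => ?_)
    have := Finset.mem_range.1 hn
    have := Finset.mem_range.1 hd
    rw [← Nat.cast_add, vl _ (by omega), iterate_add_apply]
  simp only [it_norm, Finset.sum_const, Finset.card_univ, ZMod.card, Finset.card_range,
    nsmul_eq_mul] at a b
  have m : (0 : ℝ) < M := by exact_mod_cast hM
  refine (pow_le_pow_iff_left₀ (norm_nonneg _) (by positivity) two_ne_zero).1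
    (le_of_mul_le_mul_left ((b.trans a).trans ?_) m)
  push_cast
  nlinarith [mul_nonneg m.le (sq_nonneg (τ * ‖v‖))]

end Pool.Agent.MP_154433_an.T3S

end
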