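import Pool.Agent.MP_154433_an.t3s.Basic

/-! Averages over differences of a window are controlled by the Fourier coefficients. -/

set_option autoImplicit false

open scoped BigOperators ComplexConjugate

noncomputable section

namespace Pool.Agent.MP_154433_an.T3S

theorem win : WinS := by
  classical
  intro G _ _ V _ _ a Φ τ ha hΦ
  have hN : (Fintype.card G : ℂ) ≠ 0 := by exact_mod_cast Fintype.card_ne_zero
  have hV : (Fintype.card V : ℂ) ≠ 0 := by exact_mod_cast Fintype.card_ne_zero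
  have e1 : ∀ s, Φ s = ∑ χ : AddChar G ℂ, (𝔼 t, Φ t * χ t) * χ (-s) := fun s => by
    simp only [Finset.expect_mul, mul_assoc, ← AddChar.map_add_eq_mul]
    rw [← Finset.expect_sum_comm]
    simp only [← Finset.mul_sum, AddChar.sum_apply_eq_ite, add_neg_eq_zero, mul_ite, mul_zero]
    rw [Finset.expect_eq_sum_div_card, Finset.sum_ite_eq', if_pos (Finset.mem_univ _),
      Finset.card_univ, mul_div_cancel_right₀ _ hN]
  have e2 : ∀ χ : AddChar G ℂ,
      𝔼 v, 𝔼 v', χ (a v - a v') = ((‖𝔼 v, χ (a v)‖ ^ 2 : ℝ) : ℂ) := fun χ => by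
    rw [Complex.ofReal_pow, ← Complex.mul_conj', conj_exp, Finset.expect_mul_expect]
    simp only [sub_eq_add_neg, AddChar.map_add_eq_mul, AddChar.map_neg_eq_conj]
  have e3 : ∑ χ : AddChar G ℂ, ‖𝔼 v, χ (a v)‖ ^ 2 = (Fintype.card G : ℝ) / Fintype.card V := by
    refine Complex.ofReal_injective ?_
    rw [Complex.ofReal_sum]
    simp only [← e2, ← Finset.expect_sum_comm, AddChar.sum_apply_eq_ite, sub_eq_zero, ha.eq_iff]
    simp only [Finset.expect_eq_sum_div_card, Finset.sum_ite_eq, Finset.mem_univ, if_true,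
      Finset.card_univ, Finset.sum_const, nsmul_eq_mul]
    push_cast
    field_simp
  have e4 : 𝔼 v, 𝔼 v', Φ (a v' - a v) =
      ∑ χ : AddChar G ℂ, (𝔼 t, Φ t * χ t) * ((‖𝔼 v, χ (a v)‖ ^ 2 : ℝ) : ℂ) := by
    simp only [← e2, Finset.mul_expect _ _ (𝔼 t, Φ t * _), ← Finset.expect_sum_comm]
    refine Finset.expect_congr rfl fun v _ => Finset.expect_congr rfl fun v' _ => ?_
    rw [e1, neg_sub]
  rw [e4, ← e3, Finset.sum_mul]
  refine (norm_sum_le _ _).trans (Finset.sum_le_sum fun χ _ => ?_)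
  rw [norm_mul, Complex.norm_real, Real.norm_eq_abs, abs_of_nonneg (sq_nonneg _), mul_comm]
  exact mul_le_mul_of_nonneg_left (hΦ χ) (sq_nonneg _)

end Pool.Agent.MP_154433_an.T3S

end
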