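import Mathlib
import Pool.Agent.MP_154433_an.t3s.Basic

/-! A function orthogonal to all limits of blocks has small box averages. -/

set_option autoImplicit false
set_option linter.unusedVariables false

open MeasureTheory ProbabilityTheory Filter Topology Function
open scoped BigOperators ComplexConjugate InnerProductSpace

noncomputable section

namespace Pool.Agent.MP_154433_an.T3S

namespace Zero

/-- radial truncation -/
def clip (z : ℂ) : ℂ := z / (max 1 ‖z‖ : ℝ)

lemma norm_clip (z : ℂ) : ‖clip z‖ ≤ 1 := by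
  have h : (0 : ℝ) < max 1 ‖z‖ := lt_max_of_lt_left one_pos
  rw [clip, norm_div, Complex.norm_real, Real.norm_of_nonneg h.le, div_le_one h]
  exact le_max_right _ _

lemma clip_sub (z : ℂ) {u : ℂ} (hu : ‖u‖ ≤ 1) : ‖clip z - u‖ ≤ 2 * ‖z - u‖ := by
  rcases le_total ‖z‖ 1 with h | h
  · rw [clip, max_eq_left h, Complex.ofReal_one, div_one]
    linarith [norm_nonneg (z - u)]
  · have h0 : (0 : ℝ) < ‖z‖ := one_pos.trans_le h
    have e : clip z - z = ((1 - ‖z‖) / ‖z‖ : ℝ) * z := by
      have : (‖z‖ : ℂ) ≠ 0 := by exact_mod_cast h0.ne'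
      rw [clip, max_eq_right h]
      push_cast
      field_simp
    have e2 : ‖clip z - z‖ = ‖z‖ - 1 := by
      rw [e, norm_mul, Complex.norm_real, Real.norm_eq_abs, abs_div, abs_of_pos h0,
        div_mul_cancel₀ _ h0.ne', abs_of_nonpos (by linarith), neg_sub]
    have := norm_sub_le_norm_sub_add_norm_sub (clip z) z u
    have := norm_sub_norm_le z u
    linarith

lemma clip_meas : Measurable clip :=
  measurable_id.div (Complex.measurable_ofReal.comp (measurable_const.max measurable_norm))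

variable {X : Type} [MeasurableSpace X] {μ : Measure X} [IsProbabilityMeasure μ]

lemma l1 (f : Lp ℂ 2 μ) : ∫ x, ‖f x‖ ∂μ ≤ ‖f‖ := by
  rw [integral_norm_eq_lintegral_enorm (Lp.aestronglyMeasurable f),
    ← eLpNorm_one_eq_lintegral_enorm, Lp.norm_def]
  exact ENNReal.toReal_mono (Lp.eLpNorm_ne_top f)
    (eLpNorm_le_eLpNorm_of_exponent_le one_le_two (Lp.aestronglyMeasurable f))

lemma close (F F' : Lp ℂ 2 μ) {u : X → ℂ} (hu : MB1 u) (e : F' =ᵐ[μ] u) :
    ∫ x, ‖clip (F x) - u x‖ ∂μ ≤ 2 * dist F F' := by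
  rw [dist_eq_norm]
  refine le_trans ?_ (mul_le_mul_of_nonneg_left (l1 (F - F')) zero_le_two)
  rw [← integral_const_mul]
  refine integral_mono_of_nonneg (Eventually.of_forall fun _ => norm_nonneg _)
    ((((Lp.memLp (F - F')).integrable one_le_two).norm).const_mul 2) ?_
  filter_upwards [e, Lp.coeFn_sub F F'] with x h1 h2
  rw [h2, Pi.sub_apply, h1]
  exact clip_sub _ (hu.2 x)

end Zero

open T3S.Zero in
theorem zero (h1 : NestS) (h2 : LinkS) : ZeroS := by
  intro X _ μ _ T hT n b g hg h0 ε hε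
  by_contra hn
  push Not at hn
  obtain ⟨F, hF⟩ := h1 (Lp ℂ 2 μ)
    (fun H0 => {F | ∃ u ∈ CX T b H0, ε ≤ (∫ x, g x * u x ∂μ).re ∧ F =ᵐ[μ] u}) 1
    (fun H0 H1 hH F ⟨u, hu, h⟩ => by
      refine ⟨u, convexHull_mono ?_ hu, h⟩
      rintro v ⟨H, β, a, c⟩
      exact ⟨H, β, hH.trans a, c⟩)
    (fun H0 => by
      obtain ⟨β, hβ, e⟩ := h2 X μ T hT (H0 + 1) n b g hg
      have m := blk_MB1 T b (H0 + 1) hβ
      exact ⟨(MemLp.of_bound m.1.aestronglyMeasurable 1 (Eventually.of_forall m.2)).toLp _, _,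
        subset_convexHull ℝ _ ⟨H0 + 1, β, Nat.le_succ _, hβ, rfl⟩,
        e ▸ (hn _ (Nat.le_add_left _ _)).le, MemLp.coeFn_toLp _⟩)
    (fun H0 F ⟨u, hu, e1, e2⟩ F' ⟨u', hu', e1', e2'⟩ a c ha hc hac => by
      refine ⟨a • u + c • u', convex_convexHull ℝ _ hu hu' ha hc hac, ?_, ?_⟩
      · have e : ∀ x, g x * (a • u + c • u') x = a * (g x * u x) + c * (g x * u' x) := fun x => by
          simp only [Pi.add_apply, Pi.smul_apply, Complex.real_smul]
          ring
        simp only [e]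
        rw [integral_add (((hg.mul (CX_MB1 hu)).integrable μ).const_mul _)
          (((hg.mul (CX_MB1 hu')).integrable μ).const_mul _), integral_const_mul,
          integral_const_mul, Complex.add_re, Complex.re_ofReal_mul, Complex.re_ofReal_mul]
        have := mul_le_mul_of_nonneg_left e1 ha
        have := mul_le_mul_of_nonneg_left e1' hc
        calc ε = a * ε + c * ε := by rw [← add_mul, hac, one_mul]
          _ ≤ _ := by linarith
      · filter_upwards [Lp.coeFn_add (a • F) (c • F'), Lp.coeFn_smul a F, Lp.coeFn_smul c F', e2, e2']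
          with x p1 p2 p3 p4 p5
        simp only [p1, Pi.add_apply, p2, p3, Pi.smul_apply, p4, p5])
    (fun H0 F ⟨u, hu, _, e⟩ => by
      have := Lp.norm_le_of_ae_bound (f := F) zero_le_one (by
        filter_upwards [e] with x h
        rw [h]
        exact (CX_MB1 hu).2 x)
      simpa [measureUnivNNReal] using this)
  have key : ∀ H0 δ, 0 < δ → ∃ u ∈ CX T b H0, ε ≤ (∫ x, g x * u x ∂μ).re ∧
      ∫ x, ‖clip (F x) - u x‖ ∂μ ≤ δ := fun H0 δ hδ => by
    obtain ⟨F', ⟨u, hu, e1, e2⟩, hd⟩ := Metric.mem_closure_iff.1 (hF H0) (δ / 2) (half_pos hδ)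
    exact ⟨u, hu, e1, (close F F' (CX_MB1 hu) e2).trans (by linarith)⟩
  have m : MB1 fun x => clip (F x) :=
    ⟨clip_meas.comp (Lp.stronglyMeasurable F).measurable, fun x => norm_clip _⟩
  have z := h0 _ ⟨m, fun H0 δ hδ => (key H0 δ hδ).imp fun u h => ⟨h.1, h.2.2⟩⟩
  obtain ⟨u, hu, e1, e2⟩ := key 0 (ε / 2) (half_pos hε)
  have mu := CX_MB1 hu
  have e3 : ‖∫ x, g x * clip (F x) - g x * u x ∂μ‖ ≤ ∫ x, ‖clip (F x) - u x‖ ∂μ :=
    norm_integral_le_of_norm_le ((m.integrable μ).sub (mu.integrable μ)).norm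
      (Eventually.of_forall fun x => by
        rw [← mul_sub, norm_mul]
        exact mul_le_of_le_one_left (norm_nonneg _) (hg.2 x))
  rw [integral_sub ((hg.mul m).integrable μ) ((hg.mul mu).integrable μ), z, zero_sub, norm_neg] at e3
  linarith [Complex.re_le_norm (∫ x, g x * u x ∂μ)]

end Pool.Agent.MP_154433_an.T3S

end
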