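import Pool.Agent.MP_154433_an.t3s.Ae
import Pool.Agent.MP_154433_an.t3s.Apx
import Pool.Agent.MP_154433_an.t3s.Asm
import Pool.Agent.MP_154433_an.t3s.Bridge
import Pool.Agent.MP_154433_an.t3s.Code
import Pool.Agent.MP_154433_an.t3s.Cov
import Pool.Agent.MP_154433_an.t3s.Dual
import Pool.Agent.MP_154433_an.t3s.End
import Pool.Agent.MP_154433_an.t3s.Erg
import Pool.Agent.MP_154433_an.t3s.Fac
import Pool.Agent.MP_154433_an.t3s.Four
import Pool.Agent.MP_154433_an.t3s.Gcs
import Pool.Agent.MP_154433_an.t3s.Good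
import Pool.Agent.MP_154433_an.t3s.Gvn
import Pool.Agent.MP_154433_an.t3s.Inv
import Pool.Agent.MP_154433_an.t3s.Link
import Pool.Agent.MP_154433_an.t3s.Nest
import Pool.Agent.MP_154433_an.t3s.Net
import Pool.Agent.MP_154433_an.t3s.Nrm
import Pool.Agent.MP_154433_an.t3s.Prod
import Pool.Agent.MP_154433_an.t3s.Red
import Pool.Agent.MP_154433_an.t3s.Shift
import Pool.Agent.MP_154433_an.t3s.Tset
import Pool.Agent.MP_154433_an.t3s.Ub
import Pool.Agent.MP_154433_an.t3s.Unif
import Pool.Agent.MP_154433_an.t3s.Vdc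
import Pool.Agent.MP_154433_an.t3s.Vn
import Pool.Agent.MP_154433_an.t3s.Win
import Pool.Agent.MP_154433_an.t3s.Zero

/-! Assembly: the two main statements follow from the deterministic theorems. -/

set_option autoImplicit false

namespace Pool.Agent.MP_154433_an.T3S

theorem aeAll : AeS := ae (net (apx shift (dual gcs win)) (cov (inv tset samp u2 code))) ub nrm

theorem mainAll (h : T3x.DET) : MainS :=
  mainOf fac (good prodr) (unif fac (zero nest link) (gvn vdc)) aeAll nrm (erg vn) red endr
    (detOf h)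

theorem mainWAll (h : T3x.DETW) : MainWS := mainWOf aeAll nrm (erg vn) red endr (detWOf h)

end Pool.Agent.MP_154433_an.T3S
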