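import Mathlib
import Pool.Agent.MP_154433_an.t3s.Basic
import Pool.Agent.MP_154433_an.sg.Blk

/-! Row Good: the structured factor is good. -/

set_option autoImplicit false
set_option linter.unusedVariables false

open MeasureTheory ProbabilityTheory Filter Topology Function
open scoped BigOperators ComplexConjugate InnerProductSpace

noncomputable section

namespace Pool.Agent.MP_154433_an.T3S

open SG (ABM)

namespace GoodR

variable {X : Type} [m0 : MeasurableSpace X] {μ : Measure X} {T : X ≃ᵐ X}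

def MB (f : X → ℂ) : Prop := Measurable f ∧ ∃ C : ℝ, 0 ≤ C ∧ ∀ x, ‖f x‖ ≤ C

lemma MB.add {f g : X → ℂ} (hf : MB f) (hg : MB g) : MB fun x => f x + g x := by
  obtain ⟨hf, C, h0, hC⟩ := hf
  obtain ⟨hg, D, h1, hD⟩ := hg
  exact ⟨hf.add hg, C + D, add_nonneg h0 h1,
    fun x => (norm_add_le _ _).trans (add_le_add (hC x) (hD x))⟩

lemma MB.mul {f g : X → ℂ} (hf : MB f) (hg : MB g) : MB fun x => f x * g x := by
  obtain ⟨hf, C, h0, hC⟩ := hf
  obtain ⟨hg, D, h1, hD⟩ := hg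
  refine ⟨hf.mul hg, C * D, mul_nonneg h0 h1, fun x => ?_⟩
  rw [norm_mul]
  exact mul_le_mul (hC x) (hD x) (norm_nonneg _) h0

lemma MB.const (c : ℂ) : MB fun _ : X => c := ⟨measurable_const, ‖c‖, norm_nonneg _, fun _ => le_rfl⟩

lemma MB.sub {f g : X → ℂ} (hf : MB f) (hg : MB g) : MB fun x => f x - g x := by
  obtain ⟨hf, C, h0, hC⟩ := hf
  obtain ⟨hg, D, h1, hD⟩ := hg
  exact ⟨hf.sub hg, C + D, add_nonneg h0 h1,
    fun x => (norm_sub_le _ _).trans (add_le_add (hC x) (hD x))⟩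

lemma MB.ofReal {φ : X → ℝ} (h : Measurable φ ∧ ∃ C : ℝ, ∀ x, |φ x| ≤ C) :
    MB fun x => (φ x : ℂ) := by
  obtain ⟨h, C, hC⟩ := h
  refine ⟨Complex.measurable_ofReal.comp h, |C|, abs_nonneg _, fun x => ?_⟩
  rw [Complex.norm_real, Real.norm_eq_abs]
  exact (hC x).trans (le_abs_self _)

lemma MB.intn {f : X → ℂ} (hf : MB f) (μ : Measure X) [IsFiniteMeasure μ] :
    Integrable (fun x => ‖f x‖) μ := by
  obtain ⟨hf, C, h0, hC⟩ := hf
  exact (Integrable.of_bound hf.aestronglyMeasurable C (Eventually.of_forall hC)).norm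

lemma MB.tz {f : X → ℂ} (hf : MB f) (T : X ≃ᵐ X) (v : ℤ) : MB fun x => f (Tz T v x) := by
  obtain ⟨hf, C, h0, hC⟩ := hf
  exact ⟨hf.comp (Tz_meas T v), C, h0, fun x => hC _⟩

lemma MB.sum {κ : Type} (s : Finset κ) {F : κ → X → ℂ} (h : ∀ i ∈ s, MB (F i)) :
    MB fun x => ∑ i ∈ s, F i x := by
  classical
  induction s using Finset.induction_on with
  | empty => simpa using MB.const (X := X) 0
  | insert a s ha ih =>
    simp only [Finset.sum_insert ha]
    exact (h a (Finset.mem_insert_self _ _)).add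
      (ih fun i hi => h i (Finset.mem_insert_of_mem hi))

/-- the average as a linear function of one slot -/
def op (T : X ≃ᵐ X) (w : ℕ → ℕ → ℝ) (a : ℤ) (R : ℕ → X → ℂ) (g : X → ℂ) (M : ℕ) (x : X) : ℂ :=
  ∑ d ∈ Finset.range M, (w M d : ℂ) * (g (Tz T (a * d) x) * R d x)

def V (μ : Measure X) (u : ℕ → X → ℂ) : Prop :=
  Tendsto (fun M => ∫ x, ‖u M x‖ ∂μ) atTop (𝓝 0)

section Slot

variable [IsProbabilityMeasure μ] {w : ℕ → ℕ → ℝ} {a : ℤ} {R : ℕ → X → ℂ} {K : ℝ}

lemma op_MB (hK : 0 ≤ K) (hR : ∀ d, Measurable (R d)) (hb : ∀ d x, ‖R d x‖ ≤ K) {g : X → ℂ}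
    (hg : MB g) (M : ℕ) : MB (op T w a R g M) :=
  MB.sum _ fun d _ => (MB.const _).mul ((hg.tz T _).mul ⟨hR d, K, hK, hb d⟩)

lemma op_int (hT : MeasurePreserving T μ μ) (hK : 0 ≤ K) (hb : ∀ d x, ‖R d x‖ ≤ K) {g : X → ℂ}
    (hg : MB g) (M : ℕ) : ∫ x, ‖op T w a R g M x‖ ∂μ ≤
      (∑ d ∈ Finset.range M, |w M d|) * (K * ∫ x, ‖g x‖ ∂μ) := by
  have hi : ∀ d ∈ Finset.range M,
      Integrable (fun x => |w M d| * (K * ‖g (Tz T (a * d) x)‖)) μ := fun d _ =>
    (((hg.tz T _).intn μ).const_mul K).const_mul _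
  have h1 : ∫ x, ‖op T w a R g M x‖ ∂μ ≤
      ∫ x, ∑ d ∈ Finset.range M, |w M d| * (K * ‖g (Tz T (a * d) x)‖) ∂μ := by
    refine integral_mono_of_nonneg (Eventually.of_forall fun x => norm_nonneg _)
      (integrable_finsetSum _ hi) (Eventually.of_forall fun x => ?_)
    refine (norm_sum_le _ _).trans (Finset.sum_le_sum fun d _ => ?_)
    rw [norm_mul, norm_mul, Complex.norm_real, Real.norm_eq_abs, mul_comm K]
    exact mul_le_mul_of_nonneg_left (mul_le_mul_of_nonneg_left (hb d x) (norm_nonneg _))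
      (abs_nonneg _)
  refine h1.trans (le_of_eq ?_)
  rw [integral_finsetSum _ hi, Finset.sum_mul]
  refine Finset.sum_congr rfl fun d _ => ?_
  rw [integral_const_mul, integral_const_mul,
    integral_Tz hT (a * d) (f := fun x => ‖g x‖) hg.1.norm.aestronglyMeasurable]

lemma op_add (g g' : X → ℂ) (M : ℕ) (x : X) :
    op T w a R (fun x => g x + g' x) M x = op T w a R g M x + op T w a R g' M x := by
  simp only [op, ← Finset.sum_add_distrib]
  exact Finset.sum_congr rfl fun d _ => by ring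

lemma op_mul (c : ℂ) (g : X → ℂ) (M : ℕ) (x : X) :
    op T w a R (fun x => c * g x) M x = c * op T w a R g M x := by
  simp only [op, Finset.mul_sum]
  exact Finset.sum_congr rfl fun d _ => by ring

lemma int_add (hK : 0 ≤ K) (hR : ∀ d, Measurable (R d)) (hb : ∀ d x, ‖R d x‖ ≤ K) {g g' : X → ℂ}
    (hg : MB g) (hg' : MB g') (M : ℕ) : ∫ x, ‖op T w a R (fun x => g x + g' x) M x‖ ∂μ ≤
      ∫ x, ‖op T w a R g M x‖ ∂μ + ∫ x, ‖op T w a R g' M x‖ ∂μ := by
  have h1 := (op_MB (T := T) (w := w) (a := a) hK hR hb hg M).intn μ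
  have h2 := (op_MB (T := T) (w := w) (a := a) hK hR hb hg' M).intn μ
  rw [← integral_add h1 h2]
  refine integral_mono_of_nonneg (Eventually.of_forall fun x => norm_nonneg _) (h1.add h2)
    (Eventually.of_forall fun x => ?_)
  show ‖op T w a R (fun x => g x + g' x) M x‖ ≤ _
  rw [op_add]
  exact norm_add_le _ _

lemma V_add (hK : 0 ≤ K) (hR : ∀ d, Measurable (R d)) (hb : ∀ d x, ‖R d x‖ ≤ K) {g g' : X → ℂ}
    (hg : MB g) (hg' : MB g') (h : V μ (op T w a R g)) (h' : V μ (op T w a R g')) :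
    V μ (op T w a R fun x => g x + g' x) := by
  have h3 := h.add h'
  rw [add_zero] at h3
  exact squeeze_zero (fun M => integral_nonneg fun x => norm_nonneg _)
    (fun M => int_add hK hR hb hg hg' M) h3

omit [IsProbabilityMeasure μ] in
lemma V_mul (c : ℂ) {g : X → ℂ} (h : V μ (op T w a R g)) : V μ (op T w a R fun x => c * g x) := by
  have h3 := h.const_mul ‖c‖
  rw [mul_zero] at h3
  refine h3.congr fun M => ?_
  simp only [op_mul, norm_mul, integral_const_mul]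

lemma V_apx (hT : MeasurePreserving T μ μ) (hw : Bd w) (hK : 0 ≤ K) (hR : ∀ d, Measurable (R d))
    (hb : ∀ d x, ‖R d x‖ ≤ K) {g : X → ℂ} (hg : MB g)
    (h : ∀ ε : ℝ, 0 < ε → ∃ g', MB g' ∧ V μ (op T w a R g') ∧ ∫ x, ‖g x - g' x‖ ∂μ ≤ ε) :
    V μ (op T w a R g) := by
  refine tendsto_order.2 ⟨fun c hc => Eventually.of_forall fun M =>
    hc.trans_le (integral_nonneg fun x => norm_nonneg _), fun c hc => ?_⟩
  obtain ⟨g', hg', hV, hε⟩ := h (c / (2 * (3 * K + 1))) (by positivity)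
  filter_upwards [hw, (tendsto_order.1 hV).2 (c / 2) (by positivity)] with M h1 h2
  have e : g = fun x => g' x + (g x - g' x) := funext fun x => by ring
  have h3 := int_add (μ := μ) (T := T) (w := w) (a := a) hK hR hb hg' (hg.sub hg') M
  rw [← e] at h3
  have h4 := op_int (w := w) (a := a) hT hK hb (hg.sub hg') M
  have h5 : (∑ d ∈ Finset.range M, |w M d|) * (K * ∫ x, ‖g x - g' x‖ ∂μ) ≤
      3 * (K * (c / (2 * (3 * K + 1)))) :=
    mul_le_mul h1 (mul_le_mul_of_nonneg_left hε hK)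
      (mul_nonneg hK (integral_nonneg fun x => norm_nonneg _)) (by norm_num)
  have h6 : 3 * (K * (c / (2 * (3 * K + 1)))) ≤ c / 2 := by
    rw [← mul_assoc, mul_div_assoc', div_le_div_iff₀ (by positivity) (by norm_num)]
    nlinarith
  linarith

lemma slot (hT : MeasurePreserving T μ μ) (hw : Bd w) (hK : 0 ≤ K) (hR : ∀ d, Measurable (R d))
    (hb : ∀ d x, ‖R d x‖ ≤ K) (S : Set (X → ℝ)) (h1 : (1 : X → ℝ) ∈ S)
    (hm : ∀ φ ∈ S, ∀ φ' ∈ S, φ * φ' ∈ S) (hS : ∀ φ ∈ S, Measurable φ ∧ ∃ C : ℝ, ∀ x, |φ x| ≤ C)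
    (hV : ∀ φ ∈ S, V μ (op T w a R fun x => (φ x : ℂ))) {g : X → ℂ} (hg : MB g)
    (hB : AEStronglyMeasurable[⨆ φ ∈ S, MeasurableSpace.comap φ inferInstance] g μ) :
    V μ (op T w a R g) := by
  have hsp : ∀ φ ∈ Submodule.span ℝ S, V μ (op T w a R fun x => (φ x : ℂ)) := by
    intro φ hφ
    induction hφ using Submodule.span_induction with
    | mem x h => exact hV x h
    | zero =>
      have := V_mul 0 (hV 1 h1)
      simpa using this
    | add f g hf hg ihf ihg =>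
      have := V_add hK hR hb (MB.ofReal (SG.Dens.span_bdd hS hf))
        (MB.ofReal (SG.Dens.span_bdd hS hg)) ihf ihg
      simpa using this
    | smul c f hf ihf =>
      have := V_mul (c : ℂ) ihf
      simpa using this
  have hre : ∀ ψ : X → ℝ, (Measurable ψ ∧ ∃ C : ℝ, ∀ x, |ψ x| ≤ C) →
      AEStronglyMeasurable[⨆ φ ∈ S, MeasurableSpace.comap φ inferInstance] ψ μ →
      V μ (op T w a R fun x => (ψ x : ℂ)) := by
    intro ψ hψ hψB
    refine V_apx hT hw hK hR hb (MB.ofReal hψ) fun ε hε => ?_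
    obtain ⟨C, hC⟩ := hψ.2
    obtain ⟨φ, hφ, hlt⟩ := SG.Dens.partB h1 hm hS μ ψ ⟨hψB, C, Eventually.of_forall hC⟩ ε hε
    refine ⟨fun x => (φ x : ℂ), MB.ofReal (SG.Dens.span_bdd hS hφ), hsp φ hφ, ?_⟩
    refine le_of_eq_of_le (integral_congr_ae (Eventually.of_forall fun x => ?_)) hlt.le
    show ‖(ψ x : ℂ) - (φ x : ℂ)‖ = |ψ x - φ x|
    rw [← Complex.ofReal_sub, Complex.norm_real, Real.norm_eq_abs]
  obtain ⟨C, h0, hC⟩ := hg.2
  have b1 : Measurable (fun x => (g x).re) ∧ ∃ C : ℝ, ∀ x, |(g x).re| ≤ C :=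
    ⟨Complex.measurable_re.comp hg.1, C, fun x => (Complex.abs_re_le_norm _).trans (hC x)⟩
  have b2 : Measurable (fun x => (g x).im) ∧ ∃ C : ℝ, ∀ x, |(g x).im| ≤ C :=
    ⟨Complex.measurable_im.comp hg.1, C, fun x => (Complex.abs_im_le_norm _).trans (hC x)⟩
  have v1 := hre _ b1 (Complex.continuous_re.comp_aestronglyMeasurable hB)
  have v2 := hre _ b2 (Complex.continuous_im.comp_aestronglyMeasurable hB)
  have v3 := V_add hK hR hb (MB.ofReal b1) ((MB.const Complex.I).mul (MB.ofReal b2)) v1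
    (V_mul Complex.I v2)
  have e : g = fun x => ((g x).re : ℂ) + Complex.I * ((g x).im : ℂ) := funext fun x => by
    rw [mul_comm, Complex.re_add_im]
  rw [← e] at v3
  exact v3

end Slot

lemma wavg_update {ι : Type} [Fintype ι] [DecidableEq ι] (w : ℕ → ℕ → ℝ) (r : ι → ℤ)
    (f : ι → X → ℂ) (i : ι) (g : X → ℂ) : wavg T w r (update f i g) =
      op T w (r i) (fun d x => ∏ j ∈ Finset.univ.erase i, f j (Tz T (r j * d) x)) g := by
  funext M x
  refine Finset.sum_congr rfl fun d _ => ?_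
  rw [← Finset.mul_prod_erase _ _ (Finset.mem_univ i), update_self]
  congr 2
  exact Finset.prod_congr rfl fun j hj => by rw [update_of_ne (Finset.ne_of_mem_erase hj)]

lemma inv_all (hT : MeasurePreserving T μ μ) {φ : X → ℝ} (h : (fun x => φ (T x)) =ᵐ[μ] φ) (v : ℤ) :
    ∀ᵐ x ∂μ, φ (Tz T v x) = φ x := by
  have hadd : ∀ v v' : ℤ, (∀ᵐ x ∂μ, φ (Tz T v x) = φ x) → (∀ᵐ x ∂μ, φ (Tz T v' x) = φ x) →
      ∀ᵐ x ∂μ, φ (Tz T (v + v') x) = φ x := by
    intro v v' hv hv'
    filter_upwards [(Tz_mp hT v').quasiMeasurePreserving.ae hv, hv'] with x h1 h2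
    rw [Tz_add, h1, h2]
  have h1 : ∀ᵐ x ∂μ, φ (Tz T 1 x) = φ x := by
    filter_upwards [h] with x hx
    rw [Tz_one, hx]
  have h2 : ∀ᵐ x ∂μ, φ (Tz T (-1) x) = φ x := by
    filter_upwards [(Tz_mp hT (-1)).quasiMeasurePreserving.ae h1] with x hx
    rw [← hx, ← Tz_add, add_neg_cancel, Tz_zero]
  induction v using Int.induction_on with
  | zero => exact Eventually.of_forall fun x => by rw [Tz_zero]
  | succ n ih => exact hadd _ _ ih h1
  | pred n ih =>
    rw [sub_eq_add_neg]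
    exact hadd _ _ ih h2

/-- an invariant function times a product of dual functions -/
def Shape (μ : Measure X) (T : X ≃ᵐ X) (l : ℕ) (φ : X → ℝ) : Prop :=
  Measurable φ ∧ (∀ x, |φ x| ≤ 1) ∧ ∃ (ph : X → ℝ) (κ : Type) (_ : Fintype κ) (D : κ → X → ℂ),
    (∀ x, |ph x| ≤ 1) ∧ (∀ v : ℤ, ∀ᵐ x ∂μ, ph (Tz T v x) = ph x) ∧
    (∀ t, ∃ b : Fin (l + 1) → ℤ, (∀ i, b i ≠ 0) ∧ D t ∈ DD μ T b) ∧
    ∀ x, (φ x : ℂ) = ph x * ∏ t, D t x

lemma shape (hT : MeasurePreserving T μ μ) (l : ℕ) {φ : X → ℝ}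
    (h : φ ∈ Submonoid.closure (Gen μ T l)) : Shape μ T l φ := by
  induction h using Submonoid.closure_induction with
  | mem φ h =>
    rcases h with ⟨b, hb, hD⟩ | ⟨h1, h2, h3⟩
    · refine ⟨?_, fun x => ?_, fun _ => 1, Unit, inferInstance, fun _ x => (φ x : ℂ),
        fun x => by simp, fun v => Eventually.of_forall fun x => rfl, fun _ => ⟨b, hb, hD⟩,
        fun x => by simp⟩
      · exact Complex.measurable_re.comp hD.1.1
      · have := hD.1.2 x
        rwa [Complex.norm_real, Real.norm_eq_abs] at this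
    · exact ⟨h1, h2, φ, Empty, inferInstance, fun t => t.elim, h2, inv_all hT h3,
        fun t => t.elim, fun x => by simp⟩
  | one =>
    exact ⟨measurable_const, fun x => by simp, fun _ => 1, Empty, inferInstance, fun t => t.elim,
      fun x => by simp, fun v => Eventually.of_forall fun x => rfl, fun t => t.elim,
      fun x => by simp⟩
  | mul φ φ' _ _ h h' =>
    obtain ⟨a1, a2, ph, κ, _, D, a3, a4, a5, a6⟩ := h
    obtain ⟨b1, b2, ph', κ', _, D', b3, b4, b5, b6⟩ := h'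
    refine ⟨a1.mul b1, fun x => ?_, fun x => ph x * ph' x, κ ⊕ κ', inferInstance, Sum.elim D D',
      fun x => ?_, fun v => ?_, ?_, fun x => ?_⟩
    · rw [Pi.mul_apply, abs_mul]
      exact mul_le_one₀ (a2 x) (abs_nonneg _) (b2 x)
    · rw [abs_mul]
      exact mul_le_one₀ (a3 x) (abs_nonneg _) (b3 x)
    · filter_upwards [a4 v, b4 v] with x h1 h2
      rw [h1, h2]
    · rintro (t | t)
      · exact a5 t
      · exact b5 t
    · rw [Pi.mul_apply, Complex.ofReal_mul, a6, b6, Fintype.prod_sum_type, Complex.ofReal_mul]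
      simp only [Sum.elim_inl, Sum.elim_inr]
      ring

lemma wavg_MB {ι : Type} [Fintype ι] (w : ℕ → ℕ → ℝ) (r : ι → ℤ) {f : ι → X → ℂ}
    (hf : ∀ i, MB1 (f i)) (M : ℕ) : MB (wavg T w r f M) :=
  ⟨wavg_meas T w r (fun i => (hf i).1) M, _, Finset.sum_nonneg fun d _ => abs_nonneg _,
    wavg_norm_le T w r (fun i => (hf i).2) M⟩

lemma V_of_sq [IsProbabilityMeasure μ] {u : ℕ → X → ℂ} (hu : ∀ M, MB (u M))
    (h : Tendsto (fun M => ∫ x, ‖u M x‖ ^ 2 ∂μ) atTop (𝓝 0)) : V μ u := by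
  refine tendsto_order.2 ⟨fun c hc => Eventually.of_forall fun M =>
    hc.trans_le (integral_nonneg fun x => norm_nonneg _), fun c hc => ?_⟩
  filter_upwards [(tendsto_order.1 h).2 (c / 2 * (c / 2)) (by positivity)] with M h1
  have hi : Integrable (fun x => ‖u M x‖ ^ 2) μ := by
    refine (((hu M).mul (hu M)).intn μ).congr (Eventually.of_forall fun x => ?_)
    show ‖u M x * u M x‖ = ‖u M x‖ ^ 2
    rw [norm_mul, sq]
  have h2 : ∫ x, ‖u M x‖ ∂μ ≤ ∫ x, (c / 2 + (c / 2)⁻¹ * ‖u M x‖ ^ 2) ∂μ := by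
    refine integral_mono_of_nonneg (Eventually.of_forall fun x => norm_nonneg _)
      ((integrable_const _).add (hi.const_mul _)) (Eventually.of_forall fun x => ?_)
    have h0 : 0 < c / 2 := by positivity
    have h3 : ‖u M x‖ * (c / 2) ≤ (c / 2 + (c / 2)⁻¹ * ‖u M x‖ ^ 2) * (c / 2) := by
      have e : (c / 2 + (c / 2)⁻¹ * ‖u M x‖ ^ 2) * (c / 2) = c / 2 * (c / 2) + ‖u M x‖ ^ 2 := by
        field_simp
      rw [e]
      nlinarith [sq_nonneg (c / 2 - ‖u M x‖), mul_nonneg (norm_nonneg (u M x)) h0.le]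
    exact le_of_mul_le_mul_right h3 h0
  rw [integral_add (integrable_const _) (hi.const_mul _), integral_const, integral_const_mul,
    probReal_univ, one_smul] at h2
  have h4 : (c / 2)⁻¹ * ∫ x, ‖u M x‖ ^ 2 ∂μ < c / 2 := by
    rw [inv_mul_lt_iff₀ (by positivity)]
    exact h1
  linarith

lemma base [IsProbabilityMeasure μ] (h : ProdS) {l : ℕ} {w : ℕ → ℕ → ℝ} (hs : Str l w) (hw : Bd w)
    (hT : MeasurePreserving T μ μ) {ι : Type} [Fintype ι] (r : ι → ℤ) (φ : ι → X → ℝ)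
    (hφ : ∀ i, Shape μ T l (φ i)) : V μ (wavg T w r fun i x => (φ i x : ℂ)) := by
  choose a1 a2 ph κ inst D a3 a4 a5 a6 using hφ
  have hD : ∀ s : Σ i, κ i, MB1 (D s.1 s.2) := fun s => by
    obtain ⟨b, -, hb⟩ := a5 s.1 s.2
    exact hb.1
  have h1 := V_of_sq (μ := μ) (fun M => wavg_MB (T := T) w (fun s : Σ i, κ i => r s.1) hD M)
    (h l w hs hw X μ T hT (Σ i, κ i) (fun s => r s.1) (fun s => D s.1 s.2) fun s => a5 s.1 s.2)
  refine squeeze_zero (fun M => integral_nonneg fun x => norm_nonneg _) (fun M => ?_) h1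
  refine integral_mono_of_nonneg (Eventually.of_forall fun x => norm_nonneg _)
    ((wavg_MB w _ hD M).intn μ) ?_
  have h2 : ∀ᵐ x ∂μ, ∀ (i : ι) (v : ℤ), ph i (Tz T v x) = ph i x :=
    ae_all_iff.2 fun i => ae_all_iff.2 fun v => a4 i v
  filter_upwards [h2] with x hx
  have e : wavg T w r (fun i x => (φ i x : ℂ)) M x = (∏ i, (ph i x : ℂ)) *
      wavg T w (fun s : Σ i, κ i => r s.1) (fun s => D s.1 s.2) M x := by
    simp only [wavg, Finset.mul_sum, a6, hx, Finset.prod_mul_distrib, Fintype.prod_sigma]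
    exact Finset.sum_congr rfl fun d _ => by ring
  rw [e, norm_mul]
  refine mul_le_of_le_one_left (norm_nonneg _) (norm_prod_le_one _ fun i _ => ?_)
  rw [Complex.norm_real, Real.norm_eq_abs]
  exact a3 i x

lemma prod_bd {ι : Type} (s : Finset ι) {f : ι → X → ℂ} (hf : ∀ i, MB (f i)) :
    ∃ K : ℝ, 0 ≤ K ∧ ∀ y : ι → X, ‖∏ j ∈ s, f j (y j)‖ ≤ K := by
  choose hm C h0 hC using hf
  refine ⟨∏ j ∈ s, C j, Finset.prod_nonneg fun j _ => h0 j, fun y => ?_⟩
  rw [norm_prod]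
  exact Finset.prod_le_prod (fun j _ => norm_nonneg _) fun j _ => hC j _

lemma all [IsProbabilityMeasure μ] (h : ProdS) {l : ℕ} {w : ℕ → ℕ → ℝ} (hs : Str l w) (hw : Bd w)
    (hT : MeasurePreserving T μ μ) {ι : Type} [Fintype ι] (r : ι → ℤ) (s : Finset ι) :
    ∀ f : ι → X → ℂ, (∀ i, MB (f i)) → (∀ i ∈ s, AEStronglyMeasurable[B0 μ T l] (f i) μ) →
      (∀ i ∉ s, ∃ φ ∈ Submonoid.closure (Gen μ T l), f i = fun x => (φ x : ℂ)) →
      V μ (wavg T w r f) := by
  classical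
  induction s using Finset.induction_on with
  | empty =>
    intro f _ _ h3
    choose φ hφ e using fun i => h3 i (Finset.notMem_empty i)
    rw [show f = fun i x => (φ i x : ℂ) from funext e]
    exact base h hs hw hT r φ fun i => shape hT l (hφ i)
  | insert a s ha ih =>
    intro f h1 h2 h3
    obtain ⟨K, hK, hb⟩ := prod_bd (Finset.univ.erase a) h1
    have hS : ∀ φ ∈ (Submonoid.closure (Gen μ T l) : Set (X → ℝ)),
        Measurable φ ∧ ∃ C : ℝ, ∀ x, |φ x| ≤ C := fun φ hφ =>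
      ⟨(shape hT l hφ).1, 1, (shape hT l hφ).2.1⟩
    rw [← update_eq_self a f, wavg_update]
    refine slot (R := fun d x => ∏ j ∈ Finset.univ.erase a, f j (Tz T (r j * d) x)) hT hw hK
      (fun d => Finset.measurable_prod _ fun j _ => (h1 j).1.comp (Tz_meas T _))
      (fun d x => hb _) (Submonoid.closure (Gen μ T l) : Set (X → ℝ)) (one_mem _)
      (fun φ hφ φ' hφ' => mul_mem hφ hφ') hS (fun φ hφ => ?_) (h1 a) ?_
    · rw [← wavg_update]
      refine ih _ (fun i => ?_) (fun i hi => ?_) fun i hi => ?_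
      · by_cases e : i = a
        · rw [e, update_self]
          exact MB.ofReal (hS φ hφ)
        · rw [update_of_ne e]
          exact h1 i
      · rw [update_of_ne (ne_of_mem_of_not_mem hi ha)]
        exact h2 i (Finset.mem_insert_of_mem hi)
      · by_cases e : i = a
        · rw [e, update_self]
          exact ⟨φ, hφ, rfl⟩
        · rw [update_of_ne e]
          exact h3 i fun hi' => (Finset.mem_insert.1 hi').elim e hi
    · refine (h2 a (Finset.mem_insert_self _ _)).mono ?_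
      exact iSup₂_le fun φ hφ => le_iSup₂_of_le φ (Submonoid.subset_closure hφ) le_rfl

lemma clip {g : X → ℂ} (hm : Measurable g) (C : ℝ) : MB ({x | ‖g x‖ ≤ C}.indicator g) := by
  refine ⟨hm.indicator (measurableSet_le hm.norm measurable_const), |C|, abs_nonneg _,
    fun x => ?_⟩
  by_cases hx : x ∈ {x | ‖g x‖ ≤ C}
  · rw [Set.indicator_of_mem hx]
    exact le_trans hx (le_abs_self _)
  · rw [Set.indicator_of_notMem hx, norm_zero]
    exact abs_nonneg _

omit m0 in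
lemma rep (B : MeasurableSpace X) {m0 : MeasurableSpace X} {μ : Measure X} (hB : B ≤ m0)
    {f : X → ℂ} (hf : ABM B μ f) :
    ∃ g : X → ℂ, MB g ∧ AEStronglyMeasurable[B] g μ ∧ f =ᵐ[μ] g := by
  obtain ⟨hf, C, hC⟩ := hf
  have hm : Measurable (hf.mk f) := (hf.stronglyMeasurable_mk.mono hB).measurable
  have e : f =ᵐ[μ] {x | ‖hf.mk f x‖ ≤ C}.indicator (hf.mk f) := by
    filter_upwards [hf.ae_eq_mk, hC] with x h1 h2
    have h3 : x ∈ {x | ‖hf.mk f x‖ ≤ C} := by
      show ‖hf.mk f x‖ ≤ C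
      rwa [← h1]
    rw [Set.indicator_of_mem h3, h1]
  exact ⟨_, clip hm C, hf.congr e, e⟩

end GoodR

open GoodR in
theorem good (h : ProdS) : GoodS := by
  intro l w hs hw X m0 μ _ T hT ι _ r f hf
  have hB : B0 μ T l ≤ m0 := iSup₂_le fun φ hφ =>
    (shape hT l (Submonoid.subset_closure hφ)).1.comap_le
  choose g h1 h2 h3 using fun i => rep _ hB (hf i)
  have hV := all h hs hw hT r Finset.univ g h1 (fun i _ => h2 i)
    fun i hi => absurd (Finset.mem_univ i) hi
  obtain ⟨K, hK, hb⟩ := prod_bd Finset.univ h1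
  have h4 : ∀ᵐ x ∂μ, ∀ (i : ι) (v : ℤ), f i (Tz T v x) = g i (Tz T v x) :=
    ae_all_iff.2 fun i => ae_all_iff.2 fun v => (Tz_mp hT v).quasiMeasurePreserving.ae (h3 i)
  have h5 := hV.const_mul (3 * K)
  rw [mul_zero] at h5
  refine squeeze_zero' (Eventually.of_forall fun M => integral_nonneg fun x => sq_nonneg _) ?_ h5
  filter_upwards [hw] with M hM
  have hn : ∀ x, ‖wavg T w r g M x‖ ≤ 3 * K := fun x => by
    refine (norm_sum_le _ _).trans (le_trans (Finset.sum_le_sum fun d _ => ?_)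
      ((Finset.sum_mul _ _ K).ge.trans (mul_le_mul_of_nonneg_right hM hK)))
    rw [norm_mul, Complex.norm_real, Real.norm_eq_abs]
    exact mul_le_mul_of_nonneg_left (hb _) (abs_nonneg _)
  have hi : Integrable (fun x => ‖wavg T w r g M x‖) μ :=
    MB.intn ⟨wavg_meas T w r (fun i => (h1 i).1) M, 3 * K, by positivity, hn⟩ μ
  rw [← integral_const_mul]
  refine integral_mono_of_nonneg (Eventually.of_forall fun x => sq_nonneg _) (hi.const_mul _) ?_
  filter_upwards [h4] with x hx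
  have e : wavg T w r f M x = wavg T w r g M x := by simp only [wavg, hx]
  rw [e, sq]
  exact mul_le_mul_of_nonneg_right (hn x) (norm_nonneg _)

end Pool.Agent.MP_154433_an.T3S

end
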