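import Mathlib
import Pool.Agent.MP_154433_an.t3s.Basic

/-! The van der Corput inequality for asymptotically invariant weights. -/

set_option autoImplicit false
set_option linter.unusedVariables false

open MeasureTheory ProbabilityTheory Filter Topology Function
open scoped BigOperators ComplexConjugate InnerProductSpace

noncomputable section

namespace Pool.Agent.MP_154433_an.T3S

namespace Vdc

lemma jensen {s : Finset ℕ} {w : ℕ → ℝ} (hw : ∀ d, 0 ≤ w d) (h1 : ∑ d ∈ s, w d = 1) (a : ℕ → ℂ) :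
    ‖∑ d ∈ s, (w d : ℂ) * a d‖ ^ 2 ≤ ∑ d ∈ s, w d * ‖a d‖ ^ 2 := by
  have h2 : ‖∑ d ∈ s, (w d : ℂ) * a d‖ ≤ ∑ d ∈ s, w d * ‖a d‖ := by
    refine (norm_sum_le _ _).trans (Finset.sum_le_sum fun d _ => ?_)
    rw [norm_mul, Complex.norm_real, Real.norm_eq_abs, abs_of_nonneg (hw d)]
  have h3 : (∑ d ∈ s, w d * ‖a d‖) ^ 2 ≤ (∑ d ∈ s, w d) * ∑ d ∈ s, w d * ‖a d‖ ^ 2 := by
    refine Finset.sum_sq_le_sum_mul_sum_of_sq_eq_mul s (fun d _ => hw d)
      (fun d _ => mul_nonneg (hw d) (sq_nonneg _)) fun d _ => by ring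
  rw [h1, one_mul] at h3
  exact (pow_le_pow_left₀ (norm_nonneg _) h2 2).trans h3

lemma sq_exp {H : ℕ} (v : Fin H → ℂ) :
    ((‖𝔼 h, v h‖ ^ 2 : ℝ) : ℂ) = 𝔼 h : Fin H, 𝔼 h' : Fin H, v h' * conj (v h) := by
  rw [← Complex.normSq_eq_norm_sq, ← Complex.mul_conj, conj_exp, Finset.mul_expect]
  refine Finset.expect_congr rfl fun h _ => ?_
  rw [Finset.expect_mul]

lemma swap {H : ℕ} (s : Finset ℕ) (w : ℕ → ℂ) (F : ℕ → Fin H → ℂ) :
    ∑ d ∈ s, w d * 𝔼 h, F d h = 𝔼 h, ∑ d ∈ s, w d * F d h := by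
  rw [Finset.expect_sum_comm]
  exact Finset.sum_congr rfl fun d _ => Finset.mul_expect _ _ _

end Vdc

theorem vdc : VdcS := by
  intro w hw hinv H hH η hη
  haveI : Nonempty (Fin H) := ⟨⟨0, hH⟩⟩
  set ε : ℝ := min (η / 3) 1 with hε
  have hε0 : 0 < ε := lt_min (by positivity) one_pos
  have hε1 : ε ≤ 1 := min_le_right _ _
  have hε2 : ε ≤ η / 3 := min_le_left _ _
  have hall := (Filter.eventually_all (ι := Fin H)).2 fun h => hinv (h : ℕ) ε hε0
  filter_upwards [hall, hw.2] with M hM h1 u hu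
  set a : ℕ → ℂ := fun d => 𝔼 h : Fin H, u (d + h) with ha
  have hA : ‖∑ d ∈ Finset.range M, (w M d : ℂ) * a d‖ ^ 2 ≤
      ∑ d ∈ Finset.range M, w M d * ‖a d‖ ^ 2 := Vdc.jensen (hw.1 M) h1 a
  have hA1 : ‖∑ d ∈ Finset.range M, (w M d : ℂ) * a d‖ ≤ 1 := by
    refine (norm_sum_le _ _).trans ?_
    rw [← h1]
    refine Finset.sum_le_sum fun d _ => ?_
    rw [norm_mul, Complex.norm_real, Real.norm_eq_abs, abs_of_nonneg (hw.1 M d)]
    exact mul_le_of_le_one_right (hw.1 M d) (norm_exp_le_of zero_le_one fun h _ => hu _)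
  have hD : ‖∑ d ∈ Finset.range M, (w M d : ℂ) * a d -
      ∑ d ∈ Finset.range M, (w M d : ℂ) * u d‖ ≤ ε := by
    have e : ∑ d ∈ Finset.range M, (w M d : ℂ) * a d - ∑ d ∈ Finset.range M, (w M d : ℂ) * u d =
        𝔼 h : Fin H, ∑ d ∈ Finset.range M, (w M d : ℂ) * (u (d + h) - u d) := by
      rw [← Vdc.swap, ← Finset.sum_sub_distrib]
      refine Finset.sum_congr rfl fun d _ => ?_
      rw [Finset.expect_sub_distrib, Fintype.expect_const, mul_sub]
    rw [e]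
    refine norm_exp_le_of hε0.le fun h _ => ?_
    have := hM h ℂ u hu
    simpa only [Complex.real_smul] using this
  have hR : ∑ d ∈ Finset.range M, w M d * ‖a d‖ ^ 2 = (𝔼 h : Fin H, 𝔼 h' : Fin H,
      ∑ d ∈ Finset.range M, (w M d : ℂ) * (u (d + h') * conj (u (d + h)))).re := by
    have e : (𝔼 h : Fin H, 𝔼 h' : Fin H,
        ∑ d ∈ Finset.range M, (w M d : ℂ) * (u (d + h') * conj (u (d + h)))) =
        ((∑ d ∈ Finset.range M, w M d * ‖a d‖ ^ 2 : ℝ) : ℂ) := by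
      rw [Complex.ofReal_sum]
      simp only [Complex.ofReal_mul, ha, Vdc.sq_exp]
      rw [Vdc.swap]
      refine Finset.expect_congr rfl fun h _ => ?_
      rw [Vdc.swap]
    rw [e, Complex.ofReal_re]
  rw [← hR]
  have hS : ‖∑ d ∈ Finset.range M, (w M d : ℂ) * u d‖ ≤
      ‖∑ d ∈ Finset.range M, (w M d : ℂ) * a d‖ + ε := by
    have := norm_sub_norm_le (∑ d ∈ Finset.range M, (w M d : ℂ) * u d)
      (∑ d ∈ Finset.range M, (w M d : ℂ) * a d)
    rw [norm_sub_rev] at this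
    linarith
  have h0 := norm_nonneg (∑ d ∈ Finset.range M, (w M d : ℂ) * a d)
  have h2 := pow_le_pow_left₀ (norm_nonneg _) hS 2
  nlinarith

end Pool.Agent.MP_154433_an.T3S

end
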