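import Mathlib
import Pool.Agent.MP_154433_an.t3s.Basic
import Pool.Agent.MP_154433_an.t3s.Asm

/-! The almost sure properties of the random weights. -/

set_option autoImplicit false
set_option linter.unusedVariables false

open MeasureTheory ProbabilityTheory Filter Topology Function
open scoped BigOperators ComplexConjugate InnerProductSpace

noncomputable section

namespace Pool.Agent.MP_154433_an.T3S

namespace Ae

open Classical in
def chars : ℕ → Finset (ℕ → ℂ)
  | 0 => ∅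
  | M + 1 => (Finset.univ : Finset (AddChar (ZMod (2 * (M + 1))) ℂ)).image
      fun χ d => χ (d : ZMod (2 * (M + 1)))

lemma chars_B1 (M : ℕ) : ∀ c ∈ chars M, B1 c := by
  intro c hc
  cases M with
  | zero => simp [chars] at hc
  | succ M =>
    simp only [chars, Finset.mem_image] at hc
    obtain ⟨χ, -, rfl⟩ := hc
    exact (B1_char χ).comp _

lemma chars_card (M : ℕ) (hM : 1 ≤ M) :
    ((chars M).card : ℝ) ≤ Real.exp (1 * (Real.log M + 1) ^ 1) := by
  classical
  cases M with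
  | zero => omega
  | succ M =>
    have h1 : (chars (M + 1)).card ≤ 2 * (M + 1) := by
      refine Finset.card_image_le.trans (le_of_eq ?_)
      rw [Finset.card_univ, AddChar.card_eq, ZMod.card]
    have h2 : (0 : ℝ) < ((M + 1 : ℕ) : ℝ) := by positivity
    rw [one_mul, pow_one, Real.exp_add, Real.exp_log h2]
    have h3 : (2 : ℝ) ≤ Real.exp 1 := by have := Real.add_one_le_exp 1; linarith
    have h4 : ((chars (M + 1)).card : ℝ) ≤ 2 * ((M + 1 : ℕ) : ℝ) := by exact_mod_cast h1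
    nlinarith

lemma chars_mem (M : ℕ) (hM : 1 ≤ M) (χ : AddChar (ZMod (2 * M)) ℂ) :
    (fun d : ℕ => χ (d : ZMod (2 * M))) ∈ chars M := by
  classical
  cases M with
  | zero => omega
  | succ M =>
    simp only [chars, Finset.mem_image]
    exact ⟨χ, Finset.mem_univ _, rfl⟩

end Ae

open Ae

theorem ae (h1 : NetS) (h2 : UbS) (h3 : NormS) : AeS := by
  intro σ hσ Ω _ P _ E hE hind hP hg
  have h0 : ∀ n, 0 ≤ σ n := fun n => (hσ n).1
  have hW := Asm.wt_tendsto h0 hg
  have hmix : ∀ᵐ ω ∂P, Mix (yw σ fun m => ω ∈ E m) := by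
    have := ae_all_iff.2 fun j : ℕ => h2 σ hσ Ω P E hE hind hP 1 le_rfl hg 1 chars chars_B1
      chars_card (1 / ((j : ℝ) + 1)) (by positivity)
    filter_upwards [this] with ω hω ε hε
    obtain ⟨j, hj⟩ := exists_nat_one_div_lt hε
    filter_upwards [hω j, eventually_ge_atTop 1] with M hM hM1 χ
    exact (hM _ (chars_mem M hM1 χ)).trans hj.le
  have hstr : ∀ᵐ ω ∂P, ∀ (l J : ℕ) (r : Fin J → ℤ) (b : Fin J → Fin (l + 1) → ℤ) (j : ℕ),
      1 ≤ l → Gr σ l → (∀ t i, b t i ≠ 0) → Bd (yw σ fun m => ω ∈ E m) → ∀ᶠ M in atTop,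
      ∀ u : Fin J → ℤ → ℂ, (∀ t, u t ∈ CZ (b t) (M ^ 2)) →
        ∑ n ∈ Finset.range M, ‖∑ d ∈ Finset.range M, (yw σ (fun m => ω ∈ E m) M d : ℂ) *
          ∏ t, u t (n + r t * d)‖ ≤ 4 * (1 / ((j : ℝ) + 1)) * M := by
    simp only [ae_all_iff]
    intro l J r b j hl hgl hb
    obtain ⟨C, S, s1, s2, s3⟩ := h1 l hl J r b hb (1 / ((j : ℝ) + 1)) (by positivity)
    have := h2 σ hσ Ω P E hE hind hP l hl hgl C S s1 s2 (1 / ((j : ℝ) + 1)) (by positivity)
    filter_upwards [this] with ω hω hbd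
    filter_upwards [hω, s3, hbd] with M m1 m2 m3 u hu
    refine (m2 _ _ m1 u hu).trans (mul_le_mul_of_nonneg_right ?_ (Nat.cast_nonneg M))
    have := mul_le_mul_of_nonneg_left m3 (by positivity : (0 : ℝ) ≤ 1 / ((j : ℝ) + 1))
    linarith
  filter_upwards [hmix, hstr] with ω m1 m2
  refine ⟨m1, fun l hl hgl J r b hb ε hε => ?_⟩
  obtain ⟨j, hj⟩ := exists_nat_one_div_lt (by positivity : 0 < ε / 4)
  filter_upwards [m2 l J r b j hl hgl hb (h3.1 σ _ h0 hW m1).2.2.1] with M hM u hu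
  exact (hM u hu).trans (mul_le_mul_of_nonneg_right (by linarith) (Nat.cast_nonneg M))

end Pool.Agent.MP_154433_an.T3S

end
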